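import Mathlib

set_option autoImplicit false

namespace Pool.Agent.H46

open Finset

/-- Adjacency operator of the cube. -/
def cubeA {n : ℕ} (f : (Fin n → Bool) → ℤ) (x : Fin n → Bool) : ℤ :=
  ∑ i, f (Function.update x i (!x i))

theorem sum_cons {n : ℕ} (F : (Fin (n + 1) → Bool) → ℕ) :
    ∑ x, F x = ∑ y : Fin n → Bool, F (Fin.cons false y) + ∑ y : Fin n → Bool, F (Fin.cons true y) := by
  rw [← (Fin.consEquiv (fun _ : Fin (n + 1) => Bool)).sum_comp, Fintype.sum_prod_type]
  simp only [Fintype.sum_bool]
  rw [add_comm]
  rfl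

theorem cubeA_cons {n : ℕ} (f : (Fin (n + 1) → Bool) → ℤ) (b : Bool) (x : Fin n → Bool) :
    cubeA f (Fin.cons b x) =
      f (Fin.cons (!b) x) + cubeA (fun y => f (Fin.cons b y)) x := by
  unfold cubeA
  rw [Fin.sum_univ_succ]
  congr 1
  · simp [Fin.update_cons_zero]
  · apply Finset.sum_congr rfl
    intro i _
    simp only [Fin.cons_succ]
    rw [← Fin.cons_update]

/-- Support bounds for eigenfunctions of the cube. -/
theorem cube_support : ∀ (n i : ℕ) (f : (Fin n → Bool) → ℤ),
    (∀ x, cubeA f x = ((n : ℤ) - 2 * i) * f x) → (∃ x, f x ≠ 0) →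
      2 ^ i ≤ ∑ x, (if f x ≠ 0 then 1 else 0) ∧
      (1 ≤ i → 2 ^ (i - 1) ≤ ∑ x, (if 0 < f x then 1 else 0)) := by
  intro n
  induction n with
  | zero =>
    intro i f hf hne
    obtain ⟨x, hx⟩ := hne
    have h0 : cubeA f x = 0 := by simp [cubeA]
    have h1 := hf x
    rw [h0] at h1
    have hi : i = 0 := by
      rcases Nat.eq_zero_or_pos i with h | h
      · exact h
      · exfalso
        have h2 : ((0 : ℕ) : ℤ) - 2 * i ≠ 0 := by push_cast; omega
        rcases mul_eq_zero.mp h1.symm with h3 | h3
        · exact h2 h3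
        · exact hx h3
    subst hi
    refine ⟨?_, fun h => absurd h (by omega)⟩
    rw [pow_zero]
    have : (if f x ≠ 0 then 1 else 0) ≤ ∑ x, (if f x ≠ 0 then 1 else 0) :=
      Finset.single_le_sum (f := fun x => if f x ≠ 0 then 1 else 0) (fun _ _ => Nat.zero_le _)
        (Finset.mem_univ x)
    rwa [if_pos hx] at this
  | succ n ih =>
    intro i f hf hne
    set f0 : (Fin n → Bool) → ℤ := fun y => f (Fin.cons false y) with hf0
    set f1 : (Fin n → Bool) → ℤ := fun y => f (Fin.cons true y) with hf1
    have e0 : ∀ x, f1 x + cubeA f0 x = (((n + 1 : ℕ) : ℤ) - 2 * i) * f0 x := by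
      intro x
      have := hf (Fin.cons false x)
      rw [cubeA_cons] at this
      simpa using this
    have e1 : ∀ x, f0 x + cubeA f1 x = (((n + 1 : ℕ) : ℤ) - 2 * i) * f1 x := by
      intro x
      have := hf (Fin.cons true x)
      rw [cubeA_cons] at this
      simpa using this
    have hg : ∀ x, cubeA (fun y => f0 y + f1 y) x = ((n : ℤ) - 2 * i) * (f0 x + f1 x) := by
      intro x
      have h1 := e0 x
      have h2 := e1 x
      have h3 : cubeA (fun y => f0 y + f1 y) x = cubeA f0 x + cubeA f1 x := by
        unfold cubeA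
        rw [← Finset.sum_add_distrib]
      rw [h3]
      push_cast at h1 h2
      linarith
    by_cases hgz : ∃ x, f0 x + f1 x ≠ 0
    · obtain ⟨b1, b2⟩ := ih i (fun y => f0 y + f1 y) hg hgz
      constructor
      · refine b1.trans ?_
        rw [sum_cons, ← Finset.sum_add_distrib]
        apply Finset.sum_le_sum
        intro y _
        change (if f0 y + f1 y ≠ 0 then 1 else 0) ≤ (if f0 y ≠ 0 then 1 else 0) +
          (if f1 y ≠ 0 then 1 else 0)
        by_cases h0 : f0 y = 0
        · by_cases h1 : f1 y = 0
          · simp [h0, h1]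
          · rw [if_pos h1]; split_ifs <;> omega
        · rw [if_pos h0]; split_ifs <;> omega
      · intro hi
        refine (b2 hi).trans ?_
        rw [sum_cons, ← Finset.sum_add_distrib]
        apply Finset.sum_le_sum
        intro y _
        change (if 0 < f0 y + f1 y then 1 else 0) ≤ (if 0 < f0 y then 1 else 0) +
          (if 0 < f1 y then 1 else 0)
        by_cases h0 : 0 < f0 y
        · rw [if_pos h0]; split_ifs <;> omega
        · by_cases h1 : 0 < f1 y
          · rw [if_pos h1]; split_ifs <;> omega
          · rw [if_neg (by omega)]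
            exact Nat.zero_le _
    · push Not at hgz
      have hneg : ∀ x, f1 x = - f0 x := fun x => by have := hgz x; omega
      have hne0 : ∃ x, f0 x ≠ 0 := by
        obtain ⟨x, hx⟩ := hne
        rw [← Fin.cons_self_tail x] at hx
        refine ⟨Fin.tail x, ?_⟩
        intro h0
        have h1 := hneg (Fin.tail x)
        rw [h0] at h1
        cases hb : x 0 with
        | false => rw [hb] at hx; exact hx h0
        | true => rw [hb] at hx; exact hx (by simpa using h1)
      have hA0 : ∀ x, cubeA f0 x = (((n + 1 : ℕ) : ℤ) - 2 * i + 1) * f0 x := by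
        intro x
        have h1 := e0 x
        rw [hneg x] at h1
        linarith
      rcases Nat.eq_zero_or_pos i with hi | hi
      · subst hi
        refine ⟨?_, fun h => absurd h (by omega)⟩
        rw [pow_zero]
        obtain ⟨x, hx⟩ := hne
        have : (if f x ≠ 0 then 1 else 0) ≤ ∑ x, (if f x ≠ 0 then 1 else 0) :=
          Finset.single_le_sum (f := fun x => if f x ≠ 0 then 1 else 0) (fun _ _ => Nat.zero_le _)
            (Finset.mem_univ x)
        rwa [if_pos hx] at this
      · obtain ⟨j, rfl⟩ : ∃ j, i = j + 1 := ⟨i - 1, by omega⟩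
        obtain ⟨b1, _⟩ := ih j f0 (by
          intro x
          rw [hA0 x]
          push_cast
          ring) hne0
        constructor
        · rw [sum_cons]
          change 2 ^ (j + 1) ≤ ∑ y, (if f0 y ≠ 0 then 1 else 0) + ∑ y, (if f1 y ≠ 0 then 1 else 0)
          have : ∑ y, (if f1 y ≠ 0 then 1 else 0) = ∑ y, (if f0 y ≠ 0 then 1 else 0) := by
            apply Finset.sum_congr rfl
            intro y _
            rw [hneg y]
            simp
          rw [this, pow_succ]
          omega
        · intro _
          rw [sum_cons, Nat.add_sub_cancel]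
          refine b1.trans ?_
          rw [← Finset.sum_add_distrib]
          apply Finset.sum_le_sum
          intro y _
          change (if f0 y ≠ 0 then 1 else 0) ≤ (if 0 < f0 y then 1 else 0) +
            (if 0 < f1 y then 1 else 0)
          rw [hneg y]
          split_ifs <;> omega

end Pool.Agent.H46
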