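import Mathlib

set_option autoImplicit false

namespace Pool.Agent.H46

open Finset

variable {V : Type*} [DecidableEq V]

/-- Twice the number of edges of `R` inside `S`. -/
def DD (R : SimpleGraph V) [DecidableRel R.Adj] (S : Finset V) : ℕ :=
  ∑ v ∈ S, (S.filter (R.Adj v)).card

theorem DD_erase (R : SimpleGraph V) [DecidableRel R.Adj] (S : Finset V) (v : V) (hv : v ∈ S) :
    DD R S = DD R (S.erase v) + 2 * (S.filter (R.Adj v)).card := by
  unfold DD
  rw [← Finset.add_sum_erase S _ hv]
  have h1 : ∑ x ∈ S.erase v, (S.filter (R.Adj x)).card =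
      ∑ x ∈ S.erase v, (((S.erase v).filter (R.Adj x)).card + if R.Adj v x then 1 else 0) := by
    apply Finset.sum_congr rfl
    intro x _
    by_cases hxv : R.Adj v x
    · rw [if_pos hxv]
      have : S.filter (R.Adj x) = insert v ((S.erase v).filter (R.Adj x)) := by
        ext a
        simp only [mem_filter, mem_insert, mem_erase]
        constructor
        · rintro ⟨h1, h2⟩
          by_cases hav : a = v
          · exact Or.inl hav
          · exact Or.inr ⟨⟨hav, h1⟩, h2⟩
        · rintro (h | h)
          · subst h; exact ⟨hv, hxv.symm⟩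
          · exact ⟨h.1.2, h.2⟩
      rw [this, Finset.card_insert_of_notMem (by simp)]
    · rw [if_neg hxv]
      have : S.filter (R.Adj x) = (S.erase v).filter (R.Adj x) := by
        ext a
        simp only [mem_filter, mem_erase]
        constructor
        · rintro ⟨h1, h2⟩
          refine ⟨⟨?_, h1⟩, h2⟩
          rintro rfl
          exact hxv h2.symm
        · rintro ⟨h1, h2⟩
          exact ⟨h1.2, h2⟩
      rw [this, add_zero]
  rw [h1, Finset.sum_add_distrib]
  have h2 : ∑ x ∈ S.erase v, (if R.Adj v x then 1 else 0) = (S.filter (R.Adj v)).card := by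
    rw [Finset.sum_boole]
    simp only [Nat.cast_id]
    congr 1
    ext a
    simp only [mem_filter, mem_erase]
    constructor
    · rintro ⟨h1, h2⟩; exact ⟨h1.2, h2⟩
    · rintro ⟨h1, h2⟩; exact ⟨⟨h2.ne', h1⟩, h2⟩
  rw [h2]
  omega

/-- Mader: a graph of average degree at least `4k` has a `(k+1)`-connected subgraph. -/
theorem avg_conn (R : SimpleGraph V) [DecidableRel R.Adj] (k : ℕ) (hk : 1 ≤ k)
    (S0 : Finset V) (h0 : S0.Nonempty) (hD : 4 * k * S0.card ≤ DD R S0) :
    ∃ S ⊆ S0, 2 * k + 2 ≤ S.card ∧
      ∀ X ⊆ S, X.card ≤ k → ∀ P ⊆ S \ X, P.Nonempty → P ≠ S \ X →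
        ∃ u ∈ P, ∃ v ∈ S \ X, v ∉ P ∧ R.Adj u v := by
  classical
  have hbig : 2 * k ≤ S0.card := by
    by_contra hlt
    have h1 : DD R S0 ≤ ∑ _v ∈ S0, S0.card := by
      unfold DD
      exact Finset.sum_le_sum (fun v _ => Finset.card_filter_le _ _)
    rw [Finset.sum_const, smul_eq_mul] at h1
    have h2 : 0 < S0.card := Finset.card_pos.mpr h0
    have h3 : 4 * k * S0.card ≤ S0.card * S0.card := le_trans hD h1
    have h4 : 4 * k ≤ S0.card := Nat.le_of_mul_le_mul_right h3 h2
    omega
  have hex : ∃ n : ℕ, ∃ S ⊆ S0, 2 * k ≤ S.card ∧ 4 * k * S.card < DD R S + 4 * k * k ∧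
      S.card = n := by
    refine ⟨S0.card, S0, Finset.Subset.refl _, hbig, ?_, rfl⟩
    have : 0 < 4 * k * k := by positivity
    omega
  obtain ⟨S, hS0, hS2k, hSD, hSn⟩ := Nat.find_spec hex
  have hmin : ∀ S' ⊆ S, S'.card < S.card → 2 * k ≤ S'.card →
      DD R S' + 4 * k * k ≤ 4 * k * S'.card := by
    intro S' h1 h2 h3
    by_contra h4
    push Not at h4
    have := Nat.find_min' hex ⟨S', h1.trans hS0, h3, h4, rfl⟩
    omega
  -- card ≠ 2k
  have hSgt : 2 * k + 1 ≤ S.card := by
    rcases Nat.lt_or_ge (2 * k) S.card with h | h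
    · exact h
    · exfalso
      have hSe : S.card = 2 * k := le_antisymm h hS2k
      have h1 : DD R S ≤ ∑ _v ∈ S, (S.card - 1) := by
        unfold DD
        apply Finset.sum_le_sum
        intro v hv
        have : S.filter (R.Adj v) ⊆ S.erase v := by
          intro a ha
          rw [Finset.mem_filter] at ha
          rw [Finset.mem_erase]
          exact ⟨ha.2.ne', ha.1⟩
        calc (S.filter (R.Adj v)).card ≤ (S.erase v).card := Finset.card_le_card this
          _ = S.card - 1 := Finset.card_erase_of_mem hv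
      rw [Finset.sum_const, smul_eq_mul, hSe] at h1
      rw [hSe] at hSD
      obtain ⟨j, rfl⟩ : ∃ j, k = j + 1 := ⟨k - 1, by omega⟩
      have h2 : 2 * (j + 1) - 1 = 2 * j + 1 := by omega
      rw [h2] at h1
      nlinarith
  have hdeg : ∀ v ∈ S, 2 * k + 1 ≤ (S.filter (R.Adj v)).card := by
    intro v hv
    by_contra hlt
    push Not at hlt
    have h1 := DD_erase R S v hv
    have h2 : (S.erase v).card = S.card - 1 := Finset.card_erase_of_mem hv
    have h3 := hmin (S.erase v) (Finset.erase_subset _ _) (by omega) (by omega)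
    rw [h2] at h3
    obtain ⟨c, hc⟩ : ∃ c, S.card = c + 1 := ⟨S.card - 1, by omega⟩
    rw [hc] at h3 hSD
    simp only [Nat.add_sub_cancel] at h3
    have h5 : (S.filter (R.Adj v)).card ≤ 2 * k := by omega
    nlinarith
  refine ⟨S, hS0, ?_, ?_⟩
  · have : S.Nonempty := by rw [← Finset.card_pos]; omega
    obtain ⟨v, hv⟩ := this
    have h1 := hdeg v hv
    have h2 : S.filter (R.Adj v) ⊆ S.erase v := by
      intro a ha
      rw [Finset.mem_filter] at ha
      rw [Finset.mem_erase]
      exact ⟨ha.2.ne', ha.1⟩
    have h3 := Finset.card_le_card h2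
    rw [Finset.card_erase_of_mem hv] at h3
    omega
  · intro X hX hXk P hP hPne hPS
    by_contra hcon
    push Not at hcon
    set Q := (S \ X) \ P with hQ
    have hQne : Q.Nonempty := by
      rw [Finset.nonempty_iff_ne_empty]
      intro h
      apply hPS
      apply Finset.Subset.antisymm hP
      rw [← Finset.sdiff_eq_empty_iff_subset]
      exact h
    have hnoPQ : ∀ u ∈ P, ∀ v ∈ Q, ¬ R.Adj u v := by
      intro u hu v hv
      rw [hQ, Finset.mem_sdiff] at hv
      exact hcon u hu v hv.1 hv.2
    set S1 := P ∪ X with hS1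
    set S2 := Q ∪ X with hS2
    have hPX : Disjoint P X := by
      rw [Finset.disjoint_left]
      intro a ha hb
      have := hP ha
      rw [Finset.mem_sdiff] at this
      exact this.2 hb
    have hQX : Disjoint Q X := by
      rw [Finset.disjoint_left]
      intro a ha hb
      rw [hQ, Finset.mem_sdiff, Finset.mem_sdiff] at ha
      exact ha.1.2 hb
    have hPQ : Disjoint P Q := by
      rw [hQ]; exact Finset.disjoint_sdiff
    have hPS' : P ⊆ S := hP.trans Finset.sdiff_subset
    have hQS' : Q ⊆ S := by
      rw [hQ]; exact Finset.sdiff_subset.trans Finset.sdiff_subset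
    have hS1S : S1 ⊆ S := Finset.union_subset hPS' hX
    have hS2S : S2 ⊆ S := Finset.union_subset hQS' hX
    have hcov : ∀ a ∈ S, a ∈ P ∨ a ∈ Q ∨ a ∈ X := by
      intro a ha
      by_cases h1 : a ∈ X
      · exact Or.inr (Or.inr h1)
      · by_cases h2 : a ∈ P
        · exact Or.inl h2
        · right; left
          rw [hQ, Finset.mem_sdiff, Finset.mem_sdiff]
          exact ⟨⟨ha, h1⟩, h2⟩
    have hc1 : S1.card = P.card + X.card := Finset.card_union_of_disjoint hPX
    have hc2 : S2.card = Q.card + X.card := Finset.card_union_of_disjoint hQX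
    have hc : S.card = P.card + Q.card + X.card := by
      have h1 : S = (P ∪ Q) ∪ X := by
        ext a
        simp only [mem_union]
        constructor
        · intro ha
          rcases hcov a ha with h | h | h
          · exact Or.inl (Or.inl h)
          · exact Or.inl (Or.inr h)
          · exact Or.inr h
        · rintro ((h | h) | h)
          · exact hPS' h
          · exact hQS' h
          · exact hX h
      rw [h1, Finset.card_union_of_disjoint, Finset.card_union_of_disjoint hPQ]
      rw [Finset.disjoint_union_left]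
      exact ⟨hPX, hQX⟩
    have hPpos : 0 < P.card := Finset.card_pos.mpr hPne
    have hQpos : 0 < Q.card := Finset.card_pos.mpr hQne
    -- degrees
    have hdP : ∀ v ∈ P, S.filter (R.Adj v) ⊆ S1.filter (R.Adj v) := by
      intro v hv a ha
      rw [Finset.mem_filter] at ha ⊢
      refine ⟨?_, ha.2⟩
      rw [hS1, Finset.mem_union]
      rcases hcov a ha.1 with h | h | h
      · exact Or.inl h
      · exact absurd ha.2 (hnoPQ v hv a h)
      · exact Or.inr h
    have hdQ : ∀ v ∈ Q, S.filter (R.Adj v) ⊆ S2.filter (R.Adj v) := by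
      intro v hv a ha
      rw [Finset.mem_filter] at ha ⊢
      refine ⟨?_, ha.2⟩
      rw [hS2, Finset.mem_union]
      rcases hcov a ha.1 with h | h | h
      · exact absurd ha.2.symm (hnoPQ a h v hv)
      · exact Or.inl h
      · exact Or.inr h
    have hdX : ∀ v ∈ X, (S.filter (R.Adj v)).card ≤
        (S1.filter (R.Adj v)).card + (S2.filter (R.Adj v)).card := by
      intro v hv
      refine le_trans (Finset.card_le_card ?_) (Finset.card_union_le _ _)
      intro a ha
      rw [Finset.mem_filter] at ha
      rw [Finset.mem_union, Finset.mem_filter, Finset.mem_filter, hS1, hS2, Finset.mem_union,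
        Finset.mem_union]
      rcases hcov a ha.1 with h | h | h
      · exact Or.inl ⟨Or.inl h, ha.2⟩
      · exact Or.inr ⟨Or.inl h, ha.2⟩
      · exact Or.inl ⟨Or.inr h, ha.2⟩
    have hsz1 : 2 * k ≤ S1.card := by
      obtain ⟨v, hv⟩ := hPne
      have h1 := hdeg v (hPS' hv)
      have h2 := Finset.card_le_card (hdP v hv)
      have h3 := Finset.card_filter_le S1 (R.Adj v)
      omega
    have hsz2 : 2 * k ≤ S2.card := by
      obtain ⟨v, hv⟩ := hQne
      have h1 := hdeg v (hQS' hv)
      have h2 := Finset.card_le_card (hdQ v hv)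
      have h3 := Finset.card_filter_le S2 (R.Adj v)
      omega
    have hb1 := hmin S1 hS1S (by omega) hsz1
    have hb2 := hmin S2 hS2S (by omega) hsz2
    have hsum : DD R S ≤ DD R S1 + DD R S2 := by
      unfold DD
      have h1 : S = (P ∪ Q) ∪ X := by
        ext a
        simp only [mem_union]
        constructor
        · intro ha
          rcases hcov a ha with h | h | h
          · exact Or.inl (Or.inl h)
          · exact Or.inl (Or.inr h)
          · exact Or.inr h
        · rintro ((h | h) | h)
          · exact hPS' h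
          · exact hQS' h
          · exact hX h
      have hdisj : Disjoint (P ∪ Q) X := by
        rw [Finset.disjoint_union_left]
        exact ⟨hPX, hQX⟩
      have e1 : ∑ v ∈ S, (S.filter (R.Adj v)).card =
          ∑ v ∈ P, (S.filter (R.Adj v)).card + ∑ v ∈ Q, (S.filter (R.Adj v)).card +
            ∑ v ∈ X, (S.filter (R.Adj v)).card := by
        conv_lhs => rw [show (∑ v ∈ S, (S.filter (R.Adj v)).card) =
          ∑ v ∈ (P ∪ Q) ∪ X, (S.filter (R.Adj v)).card from by rw [← h1]]
        rw [Finset.sum_union hdisj, Finset.sum_union hPQ]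
      have e2 : ∑ v ∈ S1, (S1.filter (R.Adj v)).card =
          ∑ v ∈ P, (S1.filter (R.Adj v)).card + ∑ v ∈ X, (S1.filter (R.Adj v)).card := by
        rw [hS1, Finset.sum_union hPX]
      have e3 : ∑ v ∈ S2, (S2.filter (R.Adj v)).card =
          ∑ v ∈ Q, (S2.filter (R.Adj v)).card + ∑ v ∈ X, (S2.filter (R.Adj v)).card := by
        rw [hS2, Finset.sum_union hQX]
      rw [e1, e2, e3]
      have i1 : ∑ v ∈ P, (S.filter (R.Adj v)).card ≤ ∑ v ∈ P, (S1.filter (R.Adj v)).card :=
        Finset.sum_le_sum (fun v hv => Finset.card_le_card (hdP v hv))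
      have i2 : ∑ v ∈ Q, (S.filter (R.Adj v)).card ≤ ∑ v ∈ Q, (S2.filter (R.Adj v)).card :=
        Finset.sum_le_sum (fun v hv => Finset.card_le_card (hdQ v hv))
      have i3 : ∑ v ∈ X, (S.filter (R.Adj v)).card ≤
          ∑ v ∈ X, (S1.filter (R.Adj v)).card + ∑ v ∈ X, (S2.filter (R.Adj v)).card := by
        rw [← Finset.sum_add_distrib]
        exact Finset.sum_le_sum (fun v hv => hdX v hv)
      omega
    have hfin : 4 * k * S1.card + 4 * k * S2.card ≤ 4 * k * S.card + 4 * k * k := by
      rw [← Nat.mul_add, ← Nat.mul_add]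
      apply Nat.mul_le_mul_left
      omega
    omega

end Pool.Agent.H46
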