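import Mathlib

set_option autoImplicit false

namespace Pool.Agent.H46

open Finset

variable {V : Type*} [Fintype V] [DecidableEq V]

/-- No vertex cut with fewer than `k` vertices, in closed-set form. -/
def NoCut (H : SimpleGraph V) (k : ℕ) : Prop :=
  ∀ P Q : Finset V, P.Nonempty → (∃ w, w ∉ P ∧ w ∉ Q) →
    (∀ u ∈ P, ∀ v, H.Adj u v → v ∈ P ∨ v ∈ Q) → k ≤ Q.card

/-- `X` is the side of `x`, `T` the separator, for the edge `xy`. -/
def Sep (H : SimpleGraph V) (k : ℕ) (x y : V) (X T : Finset V) : Prop :=
  Disjoint X T ∧ x ∈ X ∧ y ∉ X ∧ y ∉ T ∧ T.card < k ∧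
    ∀ u ∈ X, ∀ v, v ∉ X → v ∉ T → H.Adj u v → u = x ∧ v = y

theorem Sep.symm {H : SimpleGraph V} {k : ℕ} {x y : V} {X T : Finset V}
    (h : Sep H k x y X T) : Sep H k y x (X ∪ T)ᶜ T := by
  obtain ⟨hd, hx, hyX, hyT, hT, hadj⟩ := h
  refine ⟨?_, ?_, ?_, ?_, hT, ?_⟩
  · rw [Finset.disjoint_left]
    intro a ha haT
    simp only [mem_compl, mem_union, not_or] at ha
    exact ha.2 haT
  · simp [hyX, hyT]
  · simp [hx]
  · exact fun hxT => (Finset.disjoint_left.mp hd) hx hxT
  · intro u hu v hv hvT huv
    simp only [mem_compl, mem_union, not_or] at hu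
    simp only [mem_compl, mem_union, not_or, not_and, not_not] at hv
    have hvX : v ∈ X := by
      by_contra hvX
      exact hvT (hv hvX)
    have := hadj v hvX u hu.1 hu.2 huv.symm
    exact ⟨this.2, this.1⟩

theorem card_cells (D A B C : Finset V) (hc : ∀ v, v ∈ A ∨ v ∈ B ∨ v ∈ C)
    (hAB : ∀ v, v ∈ A → v ∉ B) (hAC : ∀ v, v ∈ A → v ∉ C) (hBC : ∀ v, v ∈ B → v ∉ C) :
    (D ∩ A).card + (D ∩ B).card + (D ∩ C).card = D.card := by
  have h1 : Disjoint (D ∩ A) (D ∩ B) := by
    rw [Finset.disjoint_left]; intro v h1 h2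
    simp only [mem_inter] at h1 h2
    exact hAB v h1.2 h2.2
  have h2 : Disjoint ((D ∩ A) ∪ (D ∩ B)) (D ∩ C) := by
    rw [Finset.disjoint_left]; intro v h1 h2
    simp only [mem_union, mem_inter] at h1 h2
    rcases h1 with h1 | h1
    · exact hAC v h1.2 h2.2
    · exact hBC v h1.2 h2.2
  rw [← Finset.card_union_of_disjoint h1, ← Finset.card_union_of_disjoint h2]
  congr 1
  ext v
  simp only [mem_union, mem_inter]
  have := hc v
  tauto

set_option maxHeartbeats 4000000 in
/-- Mader: in a graph without small cuts all of whose edges are critical, every nonempty set of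
vertices of degree more than `k` spans a vertex of degree at most one. -/
theorem mader_forest (H : SimpleGraph V) [DecidableRel H.Adj] (k : ℕ) (hk : NoCut H k)
    (crit : ∀ x y, H.Adj x y → ∃ X T, Sep H k x y X T)
    (S : Finset V) (hS : S.Nonempty)
    (hdeg : ∀ v ∈ S, k < (univ.filter (H.Adj v)).card) :
    ∃ v ∈ S, (S.filter (H.Adj v)).card ≤ 1 := by
  classical
  by_contra hcon
  push Not at hcon
  -- the set of candidate sizes
  have hex : ∃ n : ℕ, ∃ x y X T, x ∈ S ∧ y ∈ S ∧ H.Adj x y ∧ Sep H k x y X T ∧ X.card = n := by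
    obtain ⟨x, hx⟩ := hS
    have h1 : 1 < (S.filter (H.Adj x)).card := hcon x hx
    have h2 : (S.filter (H.Adj x)).Nonempty := by
      rw [← Finset.card_pos]; omega
    obtain ⟨y, hy⟩ := h2
    rw [Finset.mem_filter] at hy
    obtain ⟨X, T, hXT⟩ := crit x y hy.2
    exact ⟨X.card, x, y, X, T, hx, hy.1, hy.2, hXT, rfl⟩
  set n := Nat.find hex with hn
  obtain ⟨x, y, X, T, hxS, hyS, hxy, hXT, hXn⟩ := Nat.find_spec hex
  have hmin : ∀ x' y' X' T', x' ∈ S → y' ∈ S → H.Adj x' y' → Sep H k x' y' X' T' →
      X.card ≤ X'.card := by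
    intro x' y' X' T' h1 h2 h3 h4
    rw [hXn]
    exact Nat.find_min' hex ⟨x', y', X', T', h1, h2, h3, h4, rfl⟩
  -- the second edge at x
  have hz : ∃ z ∈ S, H.Adj x z ∧ z ≠ y := by
    have h1 : 1 < (S.filter (H.Adj x)).card := hcon x hxS
    obtain ⟨z, hz, hzy⟩ := Finset.exists_mem_ne h1 y
    rw [Finset.mem_filter] at hz
    exact ⟨z, hz.1, hz.2, hzy⟩
  obtain ⟨z, hzS, hxz, hzy⟩ := hz
  obtain ⟨X', T', hXT'⟩ := crit x z hxz
  have hYs := hXT.symm
  have hZs := hXT'.symm
  set Y : Finset V := (X ∪ T)ᶜ with hY
  set Z : Finset V := (X' ∪ T')ᶜ with hZ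
  have hminY : X.card ≤ Y.card := hmin y x Y T hyS hxS hxy.symm hYs
  have hminZ : X.card ≤ Z.card := hmin z x Z T' hzS hxS hxz.symm hZs
  obtain ⟨hd, hxX, hyX, hyT, hTk, hadj⟩ := hXT
  obtain ⟨hd', hxX', hzX', hzT', hTk', hadj'⟩ := hXT'
  have hyY : y ∈ Y := hYs.2.1
  have hzZ : z ∈ Z := hZs.2.1
  have hXYT : ∀ v, v ∈ X ∨ v ∈ T ∨ v ∈ Y := by
    intro v
    by_cases h1 : v ∈ X
    · exact Or.inl h1
    · by_cases h2 : v ∈ T
      · exact Or.inr (Or.inl h2)
      · right; right; simp [hY, h1, h2]
  have hXZT : ∀ v, v ∈ X' ∨ v ∈ T' ∨ v ∈ Z := by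
    intro v
    by_cases h1 : v ∈ X'
    · exact Or.inl h1
    · by_cases h2 : v ∈ T'
      · exact Or.inr (Or.inl h2)
      · right; right; simp [hZ, h1, h2]
  have nXT : ∀ v, v ∈ X → v ∉ T := fun v h1 h2 => (Finset.disjoint_left.mp hd) h1 h2
  have nXT' : ∀ v, v ∈ X' → v ∉ T' := fun v h1 h2 => (Finset.disjoint_left.mp hd') h1 h2
  have nXY : ∀ v, v ∈ X → v ∉ Y := fun v h1 h2 => by simp [hY, h1] at h2
  have nTY : ∀ v, v ∈ T → v ∉ Y := fun v h1 h2 => by simp [hY, h1] at h2
  have nXZ : ∀ v, v ∈ X' → v ∉ Z := fun v h1 h2 => by simp [hZ, h1] at h2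
  have nTZ : ∀ v, v ∈ T' → v ∉ Z := fun v h1 h2 => by simp [hZ, h1] at h2
  have eXY : ∀ u v, u ∈ X → v ∈ Y → H.Adj u v → u = x ∧ v = y := by
    intro u v hu hv huv
    have hv' : v ∉ X ∧ v ∉ T := by simpa [hY] using hv
    exact hadj u hu v hv'.1 hv'.2 huv
  have eXZ : ∀ u v, u ∈ X' → v ∈ Z → H.Adj u v → u = x ∧ v = z := by
    intro u v hu hv huv
    have hv' : v ∉ X' ∧ v ∉ T' := by simpa [hZ] using hv
    exact hadj' u hu v hv'.1 hv'.2 huv
  have hzY : z ∉ Y := fun h => hzy (eXY x z hxX h hxz).2
  have hyZ : y ∉ Z := fun h => hzy (eXZ x y hxX' h hxy).2.symm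
  -- the nine cells
  have hTcard : (T ∩ X').card + (T ∩ T').card + (T ∩ Z).card = T.card :=
    card_cells T X' T' Z hXZT nXT' nXZ nTZ
  have hXcard : (X ∩ X').card + (X ∩ T').card + (X ∩ Z).card = X.card :=
    card_cells X X' T' Z hXZT nXT' nXZ nTZ
  have hYcard : (Y ∩ X').card + (Y ∩ T').card + (Y ∩ Z).card = Y.card :=
    card_cells Y X' T' Z hXZT nXT' nXZ nTZ
  have hT'card : (X ∩ T').card + (T ∩ T').card + (Y ∩ T').card = T'.card := by
    have := card_cells T' X T Y hXYT nXT nXY nTY
    rwa [Finset.inter_comm T' X, Finset.inter_comm T' T, Finset.inter_comm T' Y] at this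
  have hZcard : (X ∩ Z).card + (T ∩ Z).card + (Y ∩ Z).card = Z.card := by
    have := card_cells Z X T Y hXYT nXT nXY nTY
    rwa [Finset.inter_comm Z X, Finset.inter_comm Z T, Finset.inter_comm Z Y] at this
  have hxXX' : 1 ≤ (X ∩ X').card := by
    rw [Nat.succ_le_iff, Finset.card_pos]
    exact ⟨x, by simp [hxX, hxX']⟩
  -- three-part union bound
  have un3 : ∀ A B C : Finset V, (A ∪ B ∪ C).card ≤ A.card + B.card + C.card := by
    intro A B C
    calc (A ∪ B ∪ C).card ≤ (A ∪ B).card + C.card := Finset.card_union_le _ _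
      _ ≤ A.card + B.card + C.card := by
        have := Finset.card_union_le A B; omega
  -- F1
  have F1 : k ≤ (X ∩ T').card + (T ∩ T').card + (T ∩ X').card + 1 := by
    by_cases hsing : ∀ v ∈ X ∩ X', v = x
    · -- degree of x
      have hsub : univ.filter (H.Adj x) ⊆
          ((X ∩ T') ∪ (T ∩ T') ∪ (T ∩ X')) ∪ {y, z} := by
        intro v hv
        rw [Finset.mem_filter] at hv
        have hxv := hv.2
        simp only [mem_union, mem_inter, mem_insert, mem_singleton]
        rcases hXYT v with h1 | h1 | h1
        · rcases hXZT v with h2 | h2 | h2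
          · exfalso
            have := hsing v (by simp [h1, h2])
            subst this
            exact H.loopless.irrefl _ hxv
          · (clear * - h1 h2; tauto)
          · right; right; exact (eXZ x v hxX' h2 hxv).2
        · rcases hXZT v with h2 | h2 | h2
          · (clear * - h1 h2; tauto)
          · (clear * - h1 h2; tauto)
          · right; right; exact (eXZ x v hxX' h2 hxv).2
        · right; left; exact (eXY x v hxX h1 hxv).2
      have h1 := Finset.card_le_card hsub
      have h2 := Finset.card_union_le ((X ∩ T') ∪ (T ∩ T') ∪ (T ∩ X')) {y, z}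
      have h3 := un3 (X ∩ T') (T ∩ T') (T ∩ X')
      have h4 : ({y, z} : Finset V).card ≤ 2 := Finset.card_le_two
      have h5 := hdeg x hxS
      omega
    · push Not at hsing
      obtain ⟨v, hv, hvx⟩ := hsing
      have := hk ((X ∩ X').erase x) (((X ∩ T') ∪ (T ∩ T') ∪ (T ∩ X')) ∪ {x})
        ⟨v, by simp [hvx]; simpa using hv⟩ ⟨y, by simp [hyX], by
          simp only [mem_union, mem_inter, mem_singleton]
          have : y ≠ x := hxy.ne'
          (clear * - hyX hyT this; tauto)⟩ (by
          intro u hu v huv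
          simp only [mem_erase, mem_inter] at hu
          simp only [mem_erase, mem_union, mem_inter, mem_singleton]
          by_cases hvx : v = x
          · right; right; exact hvx
          have h1 : v ∉ Y := fun h => hu.1 (eXY u v hu.2.1 h huv).1
          have h2 : v ∉ Z := fun h => hu.1 (eXZ u v hu.2.2 h huv).1
          have h3 := hXYT v
          have h4 := hXZT v
          (clear * - h1 h2 h3 h4 hvx; tauto))
      have h2 := Finset.card_union_le ((X ∩ T') ∪ (T ∩ T') ∪ (T ∩ X')) {x}
      have h3 := un3 (X ∩ T') (T ∩ T') (T ∩ X')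
      simp only [card_singleton] at h2
      omega
  -- F2
  have F2 : (Y ∩ Z).card = 0 := by
    by_contra hne
    have hne' : (Y ∩ Z).Nonempty := by
      rw [← Finset.card_pos]; omega
    have := hk (Y ∩ Z) ((Y ∩ T') ∪ (T ∩ T') ∪ (T ∩ Z)) hne' ⟨x, by
        simp [nXY x hxX], by
        simp only [mem_union, mem_inter]
        have h1 := nXY x hxX
        have h2 := nXT x hxX
        (clear * - h1 h2; tauto)⟩ (by
        intro u hu v huv
        simp only [mem_inter] at hu
        simp only [mem_union, mem_inter]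
        have h1 : v ∉ X := fun h => by
          have := (eXY v u h hu.1 huv.symm).2
          subst this
          exact hyZ hu.2
        have h2 : v ∉ X' := fun h => by
          have := (eXZ v u h hu.2 huv.symm).2
          subst this
          exact hzY hu.1
        have h3 := hXYT v
        have h4 := hXZT v
        (clear * - h1 h2 h3 h4; tauto))
    have h3 := un3 (Y ∩ T') (T ∩ T') (T ∩ Z)
    omega
  -- X ∩ Z nonempty
  have F3 : 1 ≤ (X ∩ Z).card := by
    by_contra hne
    omega
  -- bound for X ∩ Z
  have F4 : (z ∉ X → k ≤ (X ∩ T').card + (T ∩ T').card + (T ∩ Z).card) := by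
    intro hzX
    have hne' : (X ∩ Z).Nonempty := by
      rw [← Finset.card_pos]; omega
    have := hk (X ∩ Z) ((X ∩ T') ∪ (T ∩ T') ∪ (T ∩ Z)) hne' ⟨x, by
        simp [nXZ x hxX'], by
        simp only [mem_union, mem_inter]
        have h1 := nXT' x hxX'
        have h2 := nXT x hxX
        (clear * - h1 h2; tauto)⟩ (by
        intro u hu v huv
        simp only [mem_inter] at hu
        simp only [mem_union, mem_inter]
        have h1 : v ∉ Y := fun h => by
          have := (eXY u v hu.1 h huv).1
          subst this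
          exact nXZ u hxX' hu.2
        have h2 : v ∉ X' := fun h => by
          have := (eXZ v u h hu.2 huv.symm).2
          subst this
          exact hzX hu.1
        have h3 := hXYT v
        have h4 := hXZT v
        (clear * - h1 h2 h3 h4; tauto))
    have h3 := un3 (X ∩ T') (T ∩ T') (T ∩ Z)
    omega
  have F5 : z ∈ X → (k ≤ (X ∩ T').card + (T ∩ T').card + (T ∩ Z).card) ∨
      (k ≤ (X ∩ T').card + (T ∩ T').card + (T ∩ Z).card + 1 ∧ ∃ v ∈ X ∩ Z, v ≠ z) := by
    intro hzX
    by_cases hsing : ∀ v ∈ X ∩ Z, v = z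
    · left
      have hsub : univ.filter (H.Adj z) ⊆
          ((X ∩ T') ∪ (T ∩ T') ∪ (T ∩ Z)) ∪ {x} := by
        intro v hv
        rw [Finset.mem_filter] at hv
        have hzv := hv.2
        simp only [mem_union, mem_inter, mem_singleton]
        have h1 : v ∉ Y := fun h => by
          have := (eXY z v hzX h hzv).1
          subst this
          exact nXZ z hxX' hzZ
        rcases hXZT v with h2 | h2 | h2
        · right; exact (eXZ v z h2 hzZ hzv.symm).1
        · have h3 := hXYT v; (clear * - h1 h2 h3; tauto)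
        · rcases hXYT v with h3 | h3 | h3
          · exfalso
            have := hsing v (by simp [h2, h3])
            subst this
            exact H.loopless.irrefl _ hzv
          · (clear * - h1 h2 h3; tauto)
          · (clear * - h1 h2 h3; tauto)
      have h1 := Finset.card_le_card hsub
      have h2 := Finset.card_union_le ((X ∩ T') ∪ (T ∩ T') ∪ (T ∩ Z)) {x}
      have h3 := un3 (X ∩ T') (T ∩ T') (T ∩ Z)
      have h5 := hdeg z hzS
      simp only [card_singleton] at h2
      omega
    · right
      push Not at hsing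
      obtain ⟨v, hv, hvz⟩ := hsing
      refine ⟨?_, v, hv, hvz⟩
      have := hk ((X ∩ Z).erase z) (((X ∩ T') ∪ (T ∩ T') ∪ (T ∩ Z)) ∪ {z})
        ⟨v, by simp only [mem_erase]; exact ⟨hvz, hv⟩⟩ ⟨x, by
          simp [nXZ x hxX'], by
          simp only [mem_union, mem_inter, mem_singleton]
          have h1 := nXT' x hxX'
          have h2 := nXT x hxX
          have h3 : x ≠ z := hxz.ne
          (clear * - h1 h2 h3; tauto)⟩ (by
          intro u hu v huv
          simp only [mem_erase, mem_inter] at hu
          simp only [mem_erase, mem_union, mem_inter, mem_singleton]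
          by_cases hvz : v = z
          · right; right; exact hvz
          have h1 : v ∉ Y := fun h => by
            have := (eXY u v hu.2.1 h huv).1
            subst this
            exact nXZ u hxX' hu.2.2
          have h2 : v ∉ X' := fun h => hu.1 (eXZ v u h hu.2.2 huv.symm).2
          have h3 := hXYT v
          have h4 := hXZT v
          (clear * - h1 h2 h3 h4 hvz; tauto))
      have h2 := Finset.card_union_le ((X ∩ T') ∪ (T ∩ T') ∪ (T ∩ Z)) {z}
      have h3 := un3 (X ∩ T') (T ∩ T') (T ∩ Z)
      simp only [card_singleton] at h2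
      omega
  have F6 : k ≤ (X ∩ T').card + (T ∩ T').card + (T ∩ Z).card + 1 := by
    by_cases hzX : z ∈ X
    · rcases F5 hzX with h | h
      · omega
      · exact h.1
    · have := F4 hzX; omega
  -- Y ∩ X' nonempty
  have F7 : 1 ≤ (Y ∩ X').card := by
    by_contra hne
    omega
  have F8 : (y ∉ X' → k ≤ (Y ∩ T').card + (T ∩ T').card + (T ∩ X').card) := by
    intro hyX'
    have hne' : (Y ∩ X').Nonempty := by
      rw [← Finset.card_pos]; omega
    have := hk (Y ∩ X') ((Y ∩ T') ∪ (T ∩ T') ∪ (T ∩ X')) hne' ⟨x, by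
        simp [nXY x hxX], by
        simp only [mem_union, mem_inter]
        have h1 := nXY x hxX
        have h2 := nXT x hxX
        (clear * - h1 h2; tauto)⟩ (by
        intro u hu v huv
        simp only [mem_inter] at hu
        simp only [mem_union, mem_inter]
        have h1 : v ∉ Z := fun h => by
          have := (eXZ u v hu.2 h huv).1
          subst this
          exact nXY u hxX hu.1
        have h2 : v ∉ X := fun h => by
          have := (eXY v u h hu.1 huv.symm).2
          subst this
          exact hyX' hu.2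
        have h3 := hXYT v
        have h4 := hXZT v
        (clear * - h1 h2 h3 h4; tauto))
    have h3 := un3 (Y ∩ T') (T ∩ T') (T ∩ X')
    omega
  have F9 : k ≤ (Y ∩ T').card + (T ∩ T').card + (T ∩ X').card + 1 := by
    by_cases hyX' : y ∈ X'
    · by_cases hsing : ∀ v ∈ Y ∩ X', v = y
      · have hsub : univ.filter (H.Adj y) ⊆
            ((Y ∩ T') ∪ (T ∩ T') ∪ (T ∩ X')) ∪ {x} := by
          intro v hv
          rw [Finset.mem_filter] at hv
          have hyv := hv.2
          simp only [mem_union, mem_inter, mem_singleton]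
          have h1 : v ∉ Z := fun h => by
            have := (eXZ y v hyX' h hyv).1
            subst this
            exact nXY y hxX hyY
          rcases hXYT v with h2 | h2 | h2
          · right; exact (eXY v y h2 hyY hyv.symm).1
          · have h3 := hXZT v; (clear * - h1 h2 h3; tauto)
          · rcases hXZT v with h3 | h3 | h3
            · exfalso
              have := hsing v (by simp [h2, h3])
              subst this
              exact H.loopless.irrefl _ hyv
            · (clear * - h1 h2 h3; tauto)
            · (clear * - h1 h2 h3; tauto)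
        have h1 := Finset.card_le_card hsub
        have h2 := Finset.card_union_le ((Y ∩ T') ∪ (T ∩ T') ∪ (T ∩ X')) {x}
        have h3 := un3 (Y ∩ T') (T ∩ T') (T ∩ X')
        have h5 := hdeg y hyS
        simp only [card_singleton] at h2
        omega
      · push Not at hsing
        obtain ⟨v, hv, hvy⟩ := hsing
        have := hk ((Y ∩ X').erase y) (((Y ∩ T') ∪ (T ∩ T') ∪ (T ∩ X')) ∪ {y})
          ⟨v, by simp only [mem_erase]; exact ⟨hvy, hv⟩⟩ ⟨x, by
            simp [nXY x hxX], by
            simp only [mem_union, mem_inter, mem_singleton]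
            have h1 := nXY x hxX
            have h2 := nXT x hxX
            have h3 : x ≠ y := hxy.ne
            (clear * - h1 h2 h3; tauto)⟩ (by
            intro u hu v huv
            simp only [mem_erase, mem_inter] at hu
            simp only [mem_erase, mem_union, mem_inter, mem_singleton]
            by_cases hvy : v = y
            · right; right; exact hvy
            have h1 : v ∉ Z := fun h => by
              have := (eXZ u v hu.2.2 h huv).1
              subst this
              exact nXY u hxX hu.2.1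
            have h2 : v ∉ X := fun h => hu.1 (eXY v u h hu.2.1 huv.symm).2
            have h3 := hXYT v
            have h4 := hXZT v
            (clear * - h1 h2 h3 h4 hvy; tauto))
        have h2 := Finset.card_union_le ((Y ∩ T') ∪ (T ∩ T') ∪ (T ∩ X')) {y}
        have h3 := un3 (Y ∩ T') (T ∩ T') (T ∩ X')
        simp only [card_singleton] at h2
        omega
    · have := F8 hyX'; omega
  -- conclude
  by_cases hzX : z ∈ X
  · rcases F5 hzX with h | ⟨h, v, hv, hvz⟩
    · omega
    · -- X ∩ Z is a smaller side
      have hsep : Sep H k z x (X ∩ Z) ((X ∩ T') ∪ (T ∩ T') ∪ (T ∩ Z)) := by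
        refine ⟨?_, by simp [hzX, hzZ], by simp [nXZ x hxX'], ?_, ?_, ?_⟩
        · rw [Finset.disjoint_left]
          intro v h1 h2
          simp only [mem_union, mem_inter] at h1 h2
          have h3 := nXT v h1.1
          have h4 : v ∉ T' := fun h => nTZ v h h1.2
          (clear * - h1 h2 h3 h4; tauto)
        · simp only [mem_union, mem_inter]
          have h1 := nXT' x hxX'
          have h2 := nXT x hxX
          (clear * - h1 h2; tauto)
        · have h3 := un3 (X ∩ T') (T ∩ T') (T ∩ Z)
          omega
        · intro u hu v hv1 hv2 huv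
          simp only [mem_inter] at hu
          simp only [mem_union, mem_inter] at hv1 hv2
          have h1 : v ∉ Y := fun h => by
            have := (eXY u v hu.1 h huv).1
            subst this
            exact nXZ u hxX' hu.2
          have h2 : v ∈ X' := by
            have h3 := hXYT v
            have h4 := hXZT v
            (clear * - h1 h3 h4 hv1 hv2; tauto)
          have := eXZ v u h2 hu.2 huv.symm
          exact ⟨this.2, this.1⟩
      have := hmin z x _ _ hzS hxS hxz.symm hsep
      omega
  · have := F4 hzX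
    omega

end Pool.Agent.H46
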