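import Mathlib
import Pool.Agent.H46.MaderMin
import Pool.Agent.H46.MaderAvg

set_option autoImplicit false

namespace Pool.Agent.H46

open Finset

/-- `G` is `k`-connected. -/
def KConnected {V : Type} [Fintype V] (G : SimpleGraph V) (k : ℕ) : Prop :=
  k < Fintype.card V ∧ ∀ S : Finset V, S.card < k → (G.induce ((S : Set V)ᶜ)).Connected

/-- The graph spanned by the edge set `F` is `k`-connected. -/
def SpansKConnected {V : Type} (F : Set (Sym2 V)) (k : ℕ) : Prop :=
  k < (SimpleGraph.fromEdgeSet F).support.ncard ∧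
    ∀ S : Finset V, S.card < k →
      ((SimpleGraph.fromEdgeSet F).induce
        ((SimpleGraph.fromEdgeSet F).support \ (S : Set V))).Connected

section basic

variable {V : Type} 

theorem closed_of_connected (G : SimpleGraph V) (W : Set V) (hc : (G.induce W).Connected)
    (P : Set V) (u w : V) (huW : u ∈ W) (hwW : w ∈ W) (hu : u ∈ P) (hw : w ∉ P) :
    ∃ a ∈ P, ∃ b ∈ W, b ∉ P ∧ G.Adj a b := by
  by_contra hcon
  push Not at hcon
  have hr : (G.induce W).Reachable ⟨u, huW⟩ ⟨w, hwW⟩ := hc.preconnected _ _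
  have key : ∀ a b : W, (G.induce W).Reachable a b → a.1 ∈ P → b.1 ∈ P := by
    intro a b hab
    obtain ⟨p⟩ := hab
    induction p with
    | nil => exact id
    | @cons x y z hxy _ ih =>
      intro hx
      apply ih
      by_contra hy
      exact hcon x.1 hx y.1 y.2 hy (by simpa using hxy)
  exact hw (key _ _ hr hu)

theorem connected_of_closed (G : SimpleGraph V) (W : Set V) (hW : W.Nonempty)
    (h : ∀ P : Set V, P ⊆ W → P.Nonempty → P ≠ W → ∃ u ∈ P, ∃ v ∈ W, v ∉ P ∧ G.Adj u v) :
    (G.induce W).Connected := by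
  classical
  obtain ⟨w0, hw0⟩ := hW
  have : Nonempty W := ⟨⟨w0, hw0⟩⟩
  rw [SimpleGraph.connected_iff]
  refine ⟨?_, this⟩
  have hall : ∀ b : W, (G.induce W).Reachable ⟨w0, hw0⟩ b := by
    by_contra hcon
    push Not at hcon
    obtain ⟨b, hb⟩ := hcon
    let P : Set V := {v | ∃ hv : v ∈ W, (G.induce W).Reachable ⟨w0, hw0⟩ ⟨v, hv⟩}
    obtain ⟨u, ⟨huW, hu⟩, v, hvW, hvP, huv⟩ := h P (fun v hv => hv.1)
      ⟨w0, hw0, SimpleGraph.Reachable.refl _⟩ (by
        intro hPW
        have : b.1 ∈ P := by rw [hPW]; exact b.2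
        exact hb this.2)
    apply hvP
    refine ⟨hvW, hu.trans ?_⟩
    exact SimpleGraph.Adj.reachable (by simpa using huv)
  intro a b
  exact (hall a).symm.trans (hall b)

variable [Fintype V] [DecidableEq V]

theorem noCut_of_connected (G : SimpleGraph V) (k : ℕ)
    (h : ∀ S : Finset V, S.card < k → (G.induce ((S : Set V)ᶜ)).Connected) : NoCut G k := by
  intro P Q hP hw hadj
  by_contra hlt
  push Not at hlt
  obtain ⟨u, hu⟩ := hP
  obtain ⟨w, hwP, hwQ⟩ := hw
  have h1 : (Q \ P).card < k := lt_of_le_of_lt (Finset.card_le_card Finset.sdiff_subset) hlt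
  obtain ⟨a, ha, b, hb, hbP, hab⟩ := closed_of_connected G _ (h _ h1) (P : Set V) u w
    (by simp [hu]) (by simp [hwQ]) (by simpa using hu) (by simpa using hwP)
  have hb' : b ∉ Q \ P := by simpa using hb
  have hbP' : b ∉ P := by simpa using hbP
  rcases hadj a (by simpa using ha) b hab with h2 | h2
  · exact hbP' h2
  · exact hb' (Finset.mem_sdiff.mpr ⟨h2, hbP'⟩)

theorem KConnected.mono {G H : SimpleGraph V} {k : ℕ} (hGH : H ≤ G) (h : KConnected H k) :
    KConnected G k := by
  refine ⟨h.1, fun S hS => ?_⟩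
  exact (h.2 S hS).mono (fun a b hab => hGH hab)

/-- Every `k`-connected graph has a spanning `k`-connected subgraph in which every edge is
critical. -/
theorem exists_minimal (G : SimpleGraph V) (k : ℕ) (hG : KConnected G k) :
    ∃ H ≤ G, KConnected H k ∧ ∀ x y, H.Adj x y → ∃ X T, Sep H k x y X T := by
  classical
  obtain ⟨H, ⟨hHG, hH⟩, hmin⟩ := (wellFounded_lt (α := SimpleGraph V)).has_min
    {H | H ≤ G ∧ KConnected H k} ⟨G, le_refl G, hG⟩
  refine ⟨H, hHG, hH, ?_⟩
  intro x y hxy
  set H' := H.deleteEdges {s(x, y)} with hH'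
  have hlt : H' < H := by
    refine lt_of_le_of_ne (SimpleGraph.deleteEdges_le _) ?_
    intro he
    have : ¬ H'.Adj x y := by
      rw [hH', SimpleGraph.deleteEdges_adj]
      simp
    rw [he] at this
    exact this hxy
  have hnot : ¬ KConnected H' k := fun h => hmin H' ⟨hlt.le.trans hHG, h⟩ hlt
  unfold KConnected at hnot
  push Not at hnot
  obtain ⟨S, hSk, hS⟩ := hnot hH.1
  have hne : ((S : Set V)ᶜ).Nonempty := by
    by_contra hemp
    rw [Set.not_nonempty_iff_eq_empty, Set.compl_empty_iff] at hemp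
    have : S = Finset.univ := by
      ext a
      have : a ∈ (S : Set V) := by rw [hemp]; trivial
      simpa using this
    rw [this, Finset.card_univ] at hSk
    have := hH.1
    omega
  have hP : ∃ P : Set V, P ⊆ (S : Set V)ᶜ ∧ P.Nonempty ∧ P ≠ (S : Set V)ᶜ ∧
      ∀ u ∈ P, ∀ v ∈ (S : Set V)ᶜ, v ∉ P → ¬ H'.Adj u v := by
    by_contra hcon
    push Not at hcon
    exact hS (connected_of_closed H' _ hne (fun P h1 h2 h3 => by
      obtain ⟨u, hu, v, hv, hvP, huv⟩ := hcon P h1 h2 h3
      exact ⟨u, hu, v, hv, hvP, huv⟩))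
  obtain ⟨P, hPS, hPne, hPS', hPno⟩ := hP
  obtain ⟨u0, hu0⟩ := hPne
  obtain ⟨w0, hw0S, hw0P⟩ : ∃ w, w ∈ (S : Set V)ᶜ ∧ w ∉ P := by
    by_contra hcon
    push Not at hcon
    exact hPS' (Set.Subset.antisymm hPS hcon)
  obtain ⟨a, ha, b, hb, hbP, hab⟩ := closed_of_connected H _ (hH.2 S hSk) P u0 w0
    (hPS hu0) hw0S hu0 hw0P
  -- every H-edge leaving P is xy
  have hedge : ∀ u ∈ P, ∀ v ∈ (S : Set V)ᶜ, v ∉ P → H.Adj u v → s(u, v) = s(x, y) := by
    intro u hu v hv hvP huv
    by_contra hne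
    apply hPno u hu v hv hvP
    rw [hH', SimpleGraph.deleteEdges_adj]
    exact ⟨huv, by simpa using hne⟩
  have hmain : ∀ x' y', s(x', y') = s(x, y) → x' ∈ P → y' ∈ (S : Set V)ᶜ → y' ∉ P →
      Sep H k x' y' P.toFinset S := by
    intro x' y' he hx' hy' hy'P
    refine ⟨?_, by simpa using hx', by simpa using hy'P, by simpa using hy', hSk, ?_⟩
    · rw [Finset.disjoint_left]
      intro c hc hcS
      exact hPS (by simpa using hc) (by simpa using hcS)
    · intro u hu v hv hvS huv
      have hu' : u ∈ P := by simpa using hu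
      have hv' : v ∉ P := by simpa using hv
      have h1 := hedge u hu' v (by simpa using hvS) hv' huv
      rw [← he, Sym2.eq_iff] at h1
      rcases h1 with h1 | h1
      · exact h1
      · exfalso
        rw [h1.1] at hu'
        exact hy'P hu'
  have he := hedge a ha b hb hbP hab
  have h1 := hmain a b he ha hb hbP
  rw [Sym2.eq_iff] at he
  rcases he with ⟨rfl, rfl⟩ | ⟨rfl, rfl⟩
  · exact ⟨_, _, h1⟩
  · exact ⟨_, _, h1.symm⟩

/-- a 1-degenerate bound -/
theorem DD_forest (H : SimpleGraph V) [DecidableRel H.Adj] (F : Finset V)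
    (h : ∀ S ⊆ F, S.Nonempty → ∃ v ∈ S, (S.filter (H.Adj v)).card ≤ 1) :
    ∀ n, ∀ S ⊆ F, S.card = n + 1 → DD H S ≤ 2 * n := by
  intro n
  induction n with
  | zero =>
    intro S _ hSc
    obtain ⟨v, rfl⟩ := Finset.card_eq_one.mp (by simpa using hSc)
    unfold DD
    simp
  | succ n ih =>
    intro S hS hSc
    obtain ⟨v, hv, hd⟩ := h S hS (by rw [← Finset.card_pos]; omega)
    have h1 := DD_erase H S v hv
    have h2 := ih (S.erase v) ((Finset.erase_subset _ _).trans hS)
      (by rw [Finset.card_erase_of_mem hv]; omega)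
    omega

theorem double_count (H : SimpleGraph V) [DecidableRel H.Adj] (A B : Finset V) :
    ∑ v ∈ A, (B.filter (H.Adj v)).card = ∑ v ∈ B, (A.filter (H.Adj v)).card := by
  simp only [Finset.card_filter]
  rw [Finset.sum_comm]
  apply Finset.sum_congr rfl
  intro b _
  apply Finset.sum_congr rfl
  intro a _
  simp only [SimpleGraph.adj_comm H a b]

end basic

end Pool.Agent.H46
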