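import Mathlib
import Pool.Agent.H46.MaderPart

set_option autoImplicit false

namespace Pool.Agent.H46

open Finset

variable {V : Type} [Fintype V]

/-- From a spanning `s`-connected subgraph `H` and a highly connected piece of `G \ H`
we get the edge partition. -/
theorem partition_of_piece [DecidableEq V] (G H : SimpleGraph V) (hHG : H ≤ G) (s t : ℕ) (hs : 2 ≤ s)
    (ht : 2 ≤ t) (hH : KConnected H s) (S : Finset V) (hSc : 2 * (t - 1) + 2 ≤ S.card)
    (hS : ∀ X ⊆ S, X.card ≤ t - 1 → ∀ P ⊆ S \ X, P.Nonempty → P ≠ S \ X →
        ∃ u ∈ P, ∃ v ∈ S \ X, v ∉ P ∧ (G \ H).Adj u v) :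
    ∃ A : Set (Sym2 V), A ⊆ G.edgeSet ∧ SpansKConnected A s ∧
      SpansKConnected (G.edgeSet \ A) t := by
  classical
  set R : SimpleGraph V := G \ H with hR
  let B : Set (Sym2 V) := {e | ∃ u v, u ∈ S ∧ v ∈ S ∧ R.Adj u v ∧ e = s(u, v)}
  have hBG : B ⊆ G.edgeSet := by
    rintro e ⟨u, v, hu, hv, huv, rfl⟩
    rw [SimpleGraph.mem_edgeSet]
    rw [hR, SimpleGraph.sdiff_adj] at huv
    exact huv.1
  have hBadj : ∀ u v, s(u, v) ∈ B ↔ (u ∈ S ∧ v ∈ S ∧ R.Adj u v) := by
    intro u v
    constructor
    · rintro ⟨a, b, ha, hb, hab, he⟩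
      rw [Sym2.eq_iff] at he
      rcases he with ⟨rfl, rfl⟩ | ⟨rfl, rfl⟩
      · exact ⟨ha, hb, hab⟩
      · exact ⟨hb, ha, hab.symm⟩
    · rintro ⟨ha, hb, hab⟩
      exact ⟨u, v, ha, hb, hab, rfl⟩
  refine ⟨G.edgeSet \ B, Set.sdiff_subset, ?_, ?_⟩
  · -- the graph of `A`
    set GA := SimpleGraph.fromEdgeSet (G.edgeSet \ B) with hGA
    have hHA : H ≤ GA := by
      intro u v huv
      rw [hGA, SimpleGraph.fromEdgeSet_adj]
      refine ⟨⟨hHG huv, ?_⟩, huv.ne⟩
      rw [hBadj]
      rintro ⟨_, _, h⟩
      rw [hR, SimpleGraph.sdiff_adj] at h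
      exact h.2 huv
    have hKA : KConnected GA s := hH.mono hHA
    have hsupp : GA.support = Set.univ := by
      rw [Set.eq_univ_iff_forall]
      intro v
      rw [SimpleGraph.mem_support]
      obtain ⟨w, hw⟩ : ∃ w : V, w ≠ v := by
        have : 1 < Fintype.card V := by have := hH.1; omega
        have := Fintype.one_lt_card_iff_nontrivial.mp this
        exact exists_ne v
      obtain ⟨a, ha, b, _, hb, hab⟩ := closed_of_connected GA _ (hKA.2 ∅ (by simp; omega)) {v} v w
        (by simp) (by simp) rfl (by simpa using hw)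
      rw [Set.mem_singleton_iff] at ha
      subst ha
      exact ⟨b, hab⟩
    refine ⟨?_, ?_⟩
    · rw [hsupp, Set.ncard_univ, Nat.card_eq_fintype_card]
      exact hH.1
    · intro X hX
      rw [hsupp, ← Set.compl_eq_univ_sdiff]
      exact hKA.2 X hX
  · have hBB : G.edgeSet \ (G.edgeSet \ B) = B := by
      rw [Set.sdiff_sdiff_cancel_left hBG]
    rw [hBB]
    set GB := SimpleGraph.fromEdgeSet B with hGB
    have hadj : ∀ u v, GB.Adj u v ↔ (u ∈ S ∧ v ∈ S ∧ R.Adj u v) := by
      intro u v
      rw [hGB, SimpleGraph.fromEdgeSet_adj, hBadj]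
      constructor
      · exact fun h => h.1
      · exact fun h => ⟨h, h.2.2.ne⟩
    have hsupp : GB.support = (S : Set V) := by
      ext v
      rw [SimpleGraph.mem_support]
      constructor
      · rintro ⟨w, hw⟩
        exact ((hadj v w).mp hw).1
      · intro hv
        have hv' : v ∈ S := hv
        have hne : ({v} : Finset V) ≠ S \ ∅ := by
          intro h
          have : S.card = 1 := by
            rw [Finset.sdiff_empty] at h
            rw [← h, Finset.card_singleton]
          omega
        obtain ⟨u, hu, w, hw, _, huw⟩ := hS ∅ (by simp) (by simp) {v} (by simpa using hv')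
          (by simp) hne
        rw [Finset.mem_singleton] at hu
        subst hu
        exact ⟨w, (hadj u w).mpr ⟨hv', by simpa using hw, huw⟩⟩
    refine ⟨?_, ?_⟩
    · rw [hsupp, Set.ncard_coe_finset]
      omega
    · intro X hX
      rw [hsupp]
      have hXS : (S : Set V) \ (X : Set V) = (S : Set V) \ ((X ∩ S : Finset V) : Set V) := by
        ext a
        simp only [Set.mem_sdiff, Finset.mem_coe, Finset.mem_inter]
        tauto
      rw [hXS]
      have hc : (X ∩ S).card ≤ t - 1 := by
        have := Finset.card_le_card (Finset.inter_subset_left (s₁ := X) (s₂ := S))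
        omega
      apply connected_of_closed
      · have : (S \ (X ∩ S)).Nonempty := by
          rw [← Finset.card_pos, Finset.card_sdiff_of_subset Finset.inter_subset_right]
          omega
        obtain ⟨a, ha⟩ := this
        refine ⟨a, ?_⟩
        rw [← Finset.coe_sdiff]
        exact ha
      · intro P hP hPne hPW
        have hPf : P.toFinset ⊆ S \ (X ∩ S) := by
          intro a ha
          rw [Set.mem_toFinset] at ha
          have := hP ha
          rw [← Finset.coe_sdiff] at this
          exact this
        obtain ⟨u, hu, v, hv, hvP, huv⟩ := hS (X ∩ S) Finset.inter_subset_right hc P.toFinset hPf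
          (by simpa using hPne) (by
            intro h
            apply hPW
            rw [← Finset.coe_sdiff, ← h, Set.coe_toFinset])
        refine ⟨u, by simpa using hu, v, ?_, by simpa using hvP, ?_⟩
        · rw [← Finset.coe_sdiff]
          exact hv
        · rw [hadj]
          have h1 := hPf hu
          rw [Finset.mem_sdiff] at h1 hv
          exact ⟨h1.1, hv.1, huv⟩

/-- Main theorem: an `s`-connected graph of minimum degree at least `s + 4 (t - 1) + u`. -/
theorem main_degree (s t u : ℕ) (hs : 2 ≤ s) (ht : 2 ≤ t)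
    (hu : 2 * (t - 1) * s ≤ u * (s + u + 2 * t - 4)) (G : SimpleGraph V)
    (hG : KConnected G s) (hdeg : ∀ v, s + 4 * (t - 1) + u ≤ (G.neighborSet v).ncard) :
    ∃ A : Set (Sym2 V), A ⊆ G.edgeSet ∧ SpansKConnected A s ∧
      SpansKConnected (G.edgeSet \ A) t := by
  classical
  obtain ⟨H, hHG, hH, hcrit⟩ := exists_minimal G s hG
  have hcut : NoCut H s := noCut_of_connected H s hH.2
  have hdegH : ∀ v, s ≤ (univ.filter (H.Adj v)).card := by
    intro v
    by_contra hlt
    push Not at hlt
    have h1 : ∃ w, w ∉ ({v} : Finset V) ∧ w ∉ univ.filter (H.Adj v) := by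
      by_contra hcon
      push Not at hcon
      have h2 : (univ : Finset V) ⊆ {v} ∪ univ.filter (H.Adj v) := by
        intro w _
        by_cases hw : w ∈ ({v} : Finset V)
        · exact Finset.mem_union_left _ hw
        · exact Finset.mem_union_right _ (hcon w hw)
      have h3 := Finset.card_le_card h2
      have h4 := Finset.card_union_le {v} (univ.filter (H.Adj v))
      rw [Finset.card_univ] at h3
      rw [Finset.card_singleton] at h4
      have := hH.1
      omega
    have := hcut {v} (univ.filter (H.Adj v)) (by simp) h1 (by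
      intro u hu w huw
      rw [Finset.mem_singleton] at hu
      subst hu
      right
      simpa using huw)
    omega
  -- high and low degree vertices
  set F : Finset V := univ.filter (fun v => s < (univ.filter (H.Adj v)).card) with hF
  set T : Finset V := univ.filter (fun v => ¬ s < (univ.filter (H.Adj v)).card) with hT
  have hFT : Disjoint T F := by
    rw [hF, hT, disjoint_comm]
    exact Finset.disjoint_filter_filter_not _ _ _
  have hFTu : T ∪ F = univ := by
    rw [hF, hT, Finset.union_comm]
    exact Finset.filter_union_filter_not_eq _ _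
  have hsplit : ∀ (K : SimpleGraph V) [DecidableRel K.Adj] (v : V),
      (univ.filter (K.Adj v)).card = (T.filter (K.Adj v)).card + (F.filter (K.Adj v)).card := by
    intro K _ v
    rw [← hFTu, Finset.filter_union, Finset.card_union_of_disjoint]
    exact Finset.disjoint_filter_filter hFT
  obtain ⟨R, hR⟩ : ∃ R : SimpleGraph V, R = G \ H := ⟨_, rfl⟩
  -- degrees in R
  have hGsplit : ∀ v, s + 4 * (t - 1) + u ≤ (univ.filter (H.Adj v)).card +
      (univ.filter (R.Adj v)).card := by
    intro v
    have h1 : (univ.filter (G.Adj v)).card = (univ.filter (H.Adj v)).card +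
        (univ.filter (R.Adj v)).card := by
      rw [← Finset.card_union_of_disjoint]
      · congr 1
        ext w
        simp only [mem_filter, mem_univ, true_and, mem_union, hR, SimpleGraph.sdiff_adj]
        constructor
        · intro h
          by_cases h2 : H.Adj v w
          · exact Or.inl h2
          · exact Or.inr ⟨h, h2⟩
        · rintro (h | h)
          · exact hHG h
          · exact h.1
      · rw [Finset.disjoint_left]
        intro w h1 h2
        simp only [mem_filter, mem_univ, true_and, hR, SimpleGraph.sdiff_adj] at h1 h2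
        exact h2.2 h1
    have h2 : (G.neighborSet v).ncard = (univ.filter (G.Adj v)).card := by
      rw [← Set.ncard_coe_finset]
      congr 1
      ext w
      simp
    have h3 := hdeg v
    omega
  have hRdeg : ∀ v ∈ T, 4 * (t - 1) + u ≤ (univ.filter (R.Adj v)).card := by
    intro v hv
    rw [hT, Finset.mem_filter] at hv
    have := hGsplit v
    omega
  -- counting in H
  have hforest : F.Nonempty →
      ∑ v ∈ F, (univ.filter (H.Adj v)).card + 2 ≤ s * T.card + 2 * F.card := by
    intro hFne
    have hpos : 0 < F.card := Finset.card_pos.mpr hFne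
    have h1 : DD H F ≤ 2 * (F.card - 1) := by
      apply DD_forest H F _ (F.card - 1) F (Finset.Subset.refl _) (by omega)
      intro S hS hSne
      apply mader_forest H s hcut hcrit S hSne
      intro v hv
      have := hS hv
      rw [hF, Finset.mem_filter] at this
      exact this.2
    have h3 : ∑ v ∈ F, (univ.filter (H.Adj v)).card =
        ∑ v ∈ F, (T.filter (H.Adj v)).card + DD H F := by
      unfold DD
      rw [← Finset.sum_add_distrib]
      exact Finset.sum_congr rfl (fun v _ => hsplit H v)
    have h4 : ∑ v ∈ F, (T.filter (H.Adj v)).card = ∑ v ∈ T, (F.filter (H.Adj v)).card :=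
      double_count H F T
    have h5 : ∑ v ∈ T, (F.filter (H.Adj v)).card ≤ s * T.card := by
      rw [mul_comm, ← smul_eq_mul, ← Finset.sum_const]
      apply Finset.sum_le_sum
      intro v hv
      rw [hT, Finset.mem_filter] at hv
      have := hsplit H v
      omega
    omega
  have hFdegH : F.Nonempty → (s + 1) * F.card ≤ ∑ v ∈ F, (univ.filter (H.Adj v)).card := by
    intro _
    rw [mul_comm, ← smul_eq_mul, ← Finset.sum_const]
    apply Finset.sum_le_sum
    intro v hv
    rw [hF, Finset.mem_filter] at hv
    exact hv.2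
  have hTpos : 0 < T.card := by
    rcases Finset.eq_empty_or_nonempty F with h | h
    · rw [h, Finset.union_empty] at hFTu
      rw [hFTu, Finset.card_univ]
      have := hG.1
      omega
    · have h1 := hforest h
      have h2 := hFdegH h
      have h3 : 2 * F.card ≤ (s + 1) * F.card := Nat.mul_le_mul_right _ (by omega)
      by_contra hcon
      have h0 : T.card = 0 := by omega
      rw [h0] at h1
      omega
  -- the two candidates
  have hcase : 4 * (t - 1) * T.card ≤ DD R T ∨
      4 * (t - 1) * (univ : Finset V).card ≤ DD R univ := by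
    by_contra hcon
    push Not at hcon
    obtain ⟨hc1, hc2⟩ := hcon
    have e1 : (4 * (t - 1) + u) * T.card ≤ DD R T + ∑ v ∈ T, (F.filter (R.Adj v)).card := by
      unfold DD
      rw [← Finset.sum_add_distrib, mul_comm, ← smul_eq_mul, ← Finset.sum_const]
      apply Finset.sum_le_sum
      intro v hv
      have h1 := hRdeg v hv
      have h2 := hsplit R v
      omega
    have e2 : DD R univ = (DD R T + ∑ v ∈ T, (F.filter (R.Adj v)).card) +
        ∑ v ∈ F, (univ.filter (R.Adj v)).card := by
      unfold DD
      have h0 : ∑ v ∈ (univ : Finset V), (univ.filter (R.Adj v)).card =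
          ∑ v ∈ T, (univ.filter (R.Adj v)).card + ∑ v ∈ F, (univ.filter (R.Adj v)).card := by
        rw [← Finset.sum_union hFT, hFTu]
      rw [h0, ← Finset.sum_add_distrib]
      congr 1
      exact Finset.sum_congr rfl (fun v _ => hsplit R v)
    have e3 : ∑ v ∈ T, (F.filter (R.Adj v)).card ≤ ∑ v ∈ F, (univ.filter (R.Adj v)).card := by
      rw [← double_count R F T]
      apply Finset.sum_le_sum
      intro v _
      have := hsplit R v
      omega
    have e4 : (univ : Finset V).card = T.card + F.card := by
      rw [← hFTu, Finset.card_union_of_disjoint hFT]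
    have e5 : (s + 4 * (t - 1) + u) * F.card ≤ ∑ v ∈ F, (univ.filter (H.Adj v)).card +
        ∑ v ∈ F, (univ.filter (R.Adj v)).card := by
      rw [← Finset.sum_add_distrib, mul_comm, ← smul_eq_mul, ← Finset.sum_const]
      exact Finset.sum_le_sum (fun v _ => hGsplit v)
    rw [e4, e2] at hc2
    have hFne : F.Nonempty := by
      rw [Finset.nonempty_iff_ne_empty]
      intro h
      rw [h] at hc2 e1
      simp only [Finset.card_empty, Finset.sum_empty, Finset.filter_empty, add_zero,
        Finset.sum_const_zero] at hc2 e1
      have h1 : 4 * (t - 1) * T.card ≤ (4 * (t - 1) + u) * T.card :=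
        Nat.mul_le_mul_right _ (by omega)
      omega
    have hfor := hforest hFne
    generalize (∑ v ∈ F, (univ.filter (H.Adj v)).card) = a at *
    generalize (∑ v ∈ F, (univ.filter (R.Adj v)).card) = b at *
    generalize (∑ v ∈ T, (F.filter (R.Adj v)).card) = E at *
    generalize DD R T = D1 at *
    generalize T.card = x at *
    generalize F.card = y at *
    obtain ⟨k, hk⟩ : ∃ k, t = k + 1 := ⟨t - 1, by omega⟩
    subst hk
    have hk1 : 1 ≤ k := by omega
    simp only [Nat.add_sub_cancel] at *
    clear e2 e4
    have hu' : 2 * (k : ℤ) * s ≤ u * (s + u - 2 + 2 * k) := by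
      have h4 : s + u + 2 * (k + 1) - 4 = s + u + 2 * k - 2 := by omega
      rw [h4] at hu
      have h5 : ((s + u + 2 * k - 2 : ℕ) : ℤ) = s + u + 2 * k - 2 := by
        rw [Nat.cast_sub (by omega)]
        push_cast
        ring
      have h6 : ((2 * k * s : ℕ) : ℤ) ≤ ((u * (s + u + 2 * k - 2) : ℕ) : ℤ) := by
        exact_mod_cast hu
      rw [Nat.cast_mul u, h5] at h6
      push_cast at h6
      linarith
    have hA : (u : ℤ) * x < 2 * k * y := by
      zify at hc1 hc2 e1 e3
      nlinarith
    have hB : ((s : ℤ) + u - 2) * y + 2 < (s - u) * x := by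
      zify at hc1 hc2 e1 e3 e5 hfor
      nlinarith
    have hx : (0 : ℤ) < x := by exact_mod_cast hTpos
    have hsu : (0 : ℤ) ≤ (s : ℤ) + u - 2 := by
      have : (2 : ℤ) ≤ s := by exact_mod_cast hs
      have : (0 : ℤ) ≤ u := by positivity
      linarith
    have hkp : (0 : ℤ) < 2 * k := by
      have : (1 : ℤ) ≤ k := by exact_mod_cast hk1
      linarith
    have m1 : ((s : ℤ) + u - 2) * (u * x) ≤ (s + u - 2) * (2 * k * y) :=
      mul_le_mul_of_nonneg_left hA.le hsu
    have m2 : 2 * (k : ℤ) * ((s + u - 2) * y + 2) < 2 * k * ((s - u) * x) :=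
      mul_lt_mul_of_pos_left hB hkp
    have m3 : 2 * (k : ℤ) * s * x ≤ u * (s + u - 2 + 2 * k) * x :=
      mul_le_mul_of_nonneg_right hu' hx.le
    nlinarith
  rcases hcase with hc | hc
  · obtain ⟨S, _, hSc, hS⟩ := avg_conn R (t - 1) (by omega) T (Finset.card_pos.mp hTpos) hc
    subst hR
    exact partition_of_piece G H hHG s t hs ht hH S hSc hS
  · obtain ⟨S, _, hSc, hS⟩ := avg_conn R (t - 1) (by omega) univ
      (by rw [← Finset.card_pos, Finset.card_univ]; have := hG.1; omega) hc
    subst hR
    exact partition_of_piece G H hHG s t hs ht hH S hSc hS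

/-- A `k`-connected graph has minimum degree at least `k`. -/
theorem KConnected.degree {G : SimpleGraph V} {k : ℕ} (h : KConnected G k) (v : V) :
    k ≤ (G.neighborSet v).ncard := by
  classical
  by_contra hlt
  push Not at hlt
  have h2 : (G.neighborSet v).ncard = (univ.filter (G.Adj v)).card := by
    rw [← Set.ncard_coe_finset]
    congr 1
    ext w
    simp
  have h1 : ∃ w, w ∉ ({v} : Finset V) ∧ w ∉ univ.filter (G.Adj v) := by
    by_contra hcon
    push Not at hcon
    have h2 : (univ : Finset V) ⊆ {v} ∪ univ.filter (G.Adj v) := by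
      intro w _
      by_cases hw : w ∈ ({v} : Finset V)
      · exact Finset.mem_union_left _ hw
      · exact Finset.mem_union_right _ (hcon w hw)
    have h3 := Finset.card_le_card h2
    have h4 := Finset.card_union_le {v} (univ.filter (G.Adj v))
    rw [Finset.card_univ] at h3
    rw [Finset.card_singleton] at h4
    have := h.1
    omega
  have := noCut_of_connected G k h.2 {v} (univ.filter (G.Adj v)) (by simp) h1 (by
    intro u hu w huw
    rw [Finset.mem_singleton] at hu
    subst hu
    right
    simpa using huw)
  omega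

theorem KConnected.anti {G : SimpleGraph V} {k l : ℕ} (h : KConnected G k) (hl : l ≤ k) :
    KConnected G l :=
  ⟨lt_of_le_of_lt hl h.1, fun S hS => h.2 S (lt_of_lt_of_le hS hl)⟩

end Pool.Agent.H46
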