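import Pool.Agent.H46.MstTouch

/-!
Blocks and their gates.
-/

namespace Pool.Agent.H46.MST

open Finset
open scoped Classical

variable {V : Type*} [Fintype V] [DecidableEq V]
variable {E : Finset (Sym2 V)} {A B : Finset V} {S : Finset V} {F : Finset (Sym2 V)}
variable {C : Finset V} {π : V → V}

/-- connected, at least two vertices, no cut vertex -/
structure NS (E : Finset (Sym2 V)) (C : Finset V) : Prop where
  two : 2 ≤ C.card
  conn : Conn E C
  erase : ∀ v ∈ C, Conn E (C.erase v)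

theorem NS.pair {u v : V} (huv : u ≠ v) (he : s(u, v) ∈ E) : NS E {u, v} where
  two := by rw [Finset.card_pair huv]
  conn := ⟨_, IsT.pair huv he⟩
  erase := by
    intro w hw
    rw [Finset.mem_insert, Finset.mem_singleton] at hw
    rcases hw with rfl | rfl
    · rw [Finset.erase_insert (by rwa [Finset.mem_singleton])]
      exact Conn.single v
    · rw [Finset.pair_comm, Finset.erase_insert (by rw [Finset.mem_singleton]; exact huv.symm)]
      exact Conn.single u

/-- removing a component of `K - v` leaves a connected set -/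
theorem conn_sdiff {K Q : Finset V} {v : V} (hK : Conn E K) (hv : v ∈ K) (hvQ : v ∉ Q)
    (hcl : ∀ x ∈ Q, ∀ y ∈ K.erase v, y ∉ Q → s(x, y) ∉ E) : Conn E (K \ Q) := by
  obtain ⟨FK, hFK⟩ := hK
  have h1 := hFK.gen hv
  have key : ∀ S F, Gen E {v} S F → S ⊆ K → Conn E (S \ Q) := by
    intro S F h
    induction h with
    | base =>
      intro _
      rw [Finset.sdiff_eq_self_of_disjoint (Finset.disjoint_singleton_left.2 hvQ)]
      exact Conn.single v
    | @step S F a b h0 ha hb he ih =>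
      intro hSK
      have hSK' : S ⊆ K := (Finset.subset_insert _ _).trans hSK
      have h2 := ih hSK'
      by_cases hbQ : b ∈ Q
      · rwa [Finset.insert_sdiff_of_mem _ hbQ]
      · rw [Finset.insert_sdiff_of_notMem _ hbQ]
        have haQ : a ∉ Q := by
          intro haQ
          refine hcl a haQ b (Finset.mem_erase.2 ⟨?_, hSK (Finset.mem_insert_self _ _)⟩) hbQ he
          rintro rfl
          exact hb (h0.sub (Finset.mem_singleton_self _))
        exact h2.insert (Finset.mem_sdiff.2 ⟨ha, haQ⟩) he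
  exact key K FK h1 subset_rfl

/-- adding an ear -/
theorem ear (hC : NS E C) {a b : V} (ha : a ∈ C) (hb : b ∈ C) (hab : a ≠ b) {K : Finset V}
    (hK : Conn E K) (hKC : Disjoint K C) (hKa : ∃ k ∈ K, s(a, k) ∈ E) (hKb : ∃ k ∈ K, s(b, k) ∈ E) :
    ∃ C', NS E C' ∧ C ⊂ C' := by
  have hfam : ((univ : Finset (Finset V)).filter fun K => Conn E K ∧ Disjoint K C ∧
      (∃ k ∈ K, s(a, k) ∈ E) ∧ ∃ k ∈ K, s(b, k) ∈ E).Nonempty :=
    ⟨K, Finset.mem_filter.2 ⟨Finset.mem_univ _, hK, hKC, hKa, hKb⟩⟩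
  obtain ⟨K, hK', hmin⟩ := Finset.exists_min_image _ Finset.card hfam
  rw [Finset.mem_filter] at hK'
  obtain ⟨_, hK, hKC, ⟨ka, hka, hea⟩, ⟨kb, hkb, heb⟩⟩ := hK'
  have hdis : ∀ x ∈ K, x ∉ C := fun x hx => Finset.disjoint_left.1 hKC hx
  refine ⟨C ∪ K, ⟨?_, hC.conn.join hK ha hka hea, ?_⟩, ?_⟩
  · exact hC.two.trans (Finset.card_le_card Finset.subset_union_left)
  · intro v hv
    rw [Finset.mem_union] at hv
    rcases hv with hv | hv
    · have h1 : (C ∪ K).erase v = C.erase v ∪ K := by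
        rw [Finset.erase_union_distrib, Finset.erase_eq_of_notMem (s := K) fun h => hdis v h hv]
      rw [h1]
      by_cases hva : v = a
      · exact (hC.erase v hv).join hK (Finset.mem_erase.2 ⟨fun h => hab (hva.symm.trans h.symm), hb⟩) hkb heb
      · exact (hC.erase v hv).join hK (Finset.mem_erase.2 ⟨fun h => hva h.symm, ha⟩) hka hea
    · have h1 : (C ∪ K).erase v = C ∪ K.erase v := by
        rw [Finset.erase_union_distrib, Finset.erase_eq_of_notMem (s := C) (hdis v hv)]
      rw [h1]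
      refine conn_of_forall (z := a) (Finset.mem_union_left _ ha) ?_
      intro x hx
      rw [Finset.mem_union] at hx
      rcases hx with hx | hx
      · exact ⟨C, Finset.subset_union_left, hC.conn, hx, ha⟩
      · obtain ⟨Q, hQK, hxQ, hQ, hcl⟩ := exists_component (E := E) hx
        have hadj : (∃ k ∈ Q, s(a, k) ∈ E) ∨ (∃ k ∈ Q, s(b, k) ∈ E) := by
          by_contra hcon
          rw [not_or] at hcon
          have hvQ : v ∉ Q := fun h => (Finset.mem_erase.1 (hQK h)).1 rfl
          have h2 := conn_sdiff hK hv hvQ hcl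
          have h3 := hmin (K \ Q) (Finset.mem_filter.2 ⟨Finset.mem_univ _, h2,
            hKC.mono_left Finset.sdiff_subset,
            ⟨ka, Finset.mem_sdiff.2 ⟨hka, fun h => hcon.1 ⟨ka, h, hea⟩⟩, hea⟩,
            ⟨kb, Finset.mem_sdiff.2 ⟨hkb, fun h => hcon.2 ⟨kb, h, heb⟩⟩, heb⟩⟩)
          have h4 : (K \ Q).card < K.card := by
            refine Finset.card_lt_card ⟨Finset.sdiff_subset, fun h => ?_⟩
            have := h (Finset.mem_of_mem_erase hx)
            exact (Finset.mem_sdiff.1 this).2 hxQ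
          omega
        refine ⟨C ∪ Q, Finset.union_subset_union subset_rfl hQK, ?_,
          Finset.mem_union_right _ hxQ, Finset.mem_union_left _ ha⟩
        rcases hadj with ⟨k, hk, he⟩ | ⟨k, hk, he⟩
        · exact hC.conn.join hQ ha hk he
        · exact hC.conn.join hQ hb hk he
  · refine ⟨Finset.subset_union_left, fun h => ?_⟩
    exact hdis ka hka (h (Finset.mem_union_right _ hka))

/-- a block with at least three vertices -/
structure Block (E : Finset (Sym2 V)) (C : Finset V) : Prop where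
  ns : NS E C
  three : 3 ≤ C.card
  max : ∀ C', NS E C' → C ⊆ C' → C' = C

theorem exists_block {C0 C1 : Finset V} (h0 : NS E C0) (h1 : NS E C1) (h01 : C0 ⊂ C1) :
    ∃ C, C0 ⊆ C ∧ Block E C := by
  have hfam : ((univ : Finset (Finset V)).filter fun C => NS E C ∧ C0 ⊆ C).Nonempty :=
    ⟨C1, Finset.mem_filter.2 ⟨Finset.mem_univ _, h1, h01.1⟩⟩
  obtain ⟨C, hC, hmax⟩ := Finset.exists_max_image _ Finset.card hfam
  rw [Finset.mem_filter] at hC
  refine ⟨C, hC.2.2, hC.2.1, ?_, ?_⟩
  · have h2 := hmax C1 (Finset.mem_filter.2 ⟨Finset.mem_univ _, h1, h01.1⟩)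
    have h3 := Finset.card_lt_card h01
    have h4 := h0.two
    omega
  · intro C' hC' hCC'
    have h2 := hmax C' (Finset.mem_filter.2 ⟨Finset.mem_univ _, hC', hC.2.2.trans hCC'⟩)
    exact (Finset.eq_of_subset_of_card_le hCC' h2).symm

/-- the gate relation -/
def IsGate (E : Finset (Sym2 V)) (C : Finset V) (y c : V) : Prop :=
  c ∈ C ∧ ∃ K, Conn E K ∧ y ∈ K ∧ Disjoint K C ∧ ∃ k ∈ K, s(c, k) ∈ E

theorem exists_gate_vertex (hE : Conn E univ) (hC : C.Nonempty) {y : V} (hy : y ∉ C) :
    ∃ c, IsGate E C y c := by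
  obtain ⟨K, hKU, hyK, hK, hcl⟩ := exists_component (E := E) (U := univ \ C) (z := y)
    (Finset.mem_sdiff.2 ⟨Finset.mem_univ _, hy⟩)
  have hdis : Disjoint K C := Finset.disjoint_left.2 fun x hx => (Finset.mem_sdiff.1 (hKU hx)).2
  have hex : ∃ x ∈ K, ∃ z, z ∉ K ∧ s(x, z) ∈ E := by
    by_contra hcon
    push Not at hcon
    have h1 := hE.closed (Finset.mem_univ y) hyK (fun x hx z _ hz => hcon x hx z hz)
    obtain ⟨c, hc⟩ := hC
    exact Finset.disjoint_left.1 hdis (h1 (Finset.mem_univ c)) hc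
  obtain ⟨x, hx, z, hz, he⟩ := hex
  have hzC : z ∈ C := by
    by_contra hzC
    exact hcl x hx z (Finset.mem_sdiff.2 ⟨Finset.mem_univ _, hzC⟩) hz he
  exact ⟨z, hzC, K, hK, hyK, hdis, x, hx, by rw [Sym2.eq_swap]; exact he⟩

theorem IsGate.unique (hB : Block E C) {y c c' : V} (h : IsGate E C y c) (h' : IsGate E C y c') :
    c = c' := by
  by_contra hne
  obtain ⟨hc, K, hK, hyK, hd, k, hk, he⟩ := h
  obtain ⟨hc', K', hK', hyK', hd', k', hk', he'⟩ := h'
  obtain ⟨C', h1, h2⟩ := ear hB.ns hc hc' hne (hK.union hK' hyK hyK')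
    (Finset.disjoint_union_left.2 ⟨hd, hd'⟩) ⟨k, Finset.mem_union_left _ hk, he⟩
    ⟨k', Finset.mem_union_right _ hk', he'⟩
  have := hB.max C' h1 h2.1
  rw [this] at h2
  exact lt_irrefl _ (Finset.card_lt_card h2)

theorem Block.exists_gate (hE : Conn E univ) (hB : Block E C) :
    ∃ π : V → V, Gate E C π ∧ ∀ y, y ∉ C → IsGate E C y (π y) := by
  have hCne : C.Nonempty := hB.ns.conn.nonempty
  have hex : ∀ y, ∃ c, (y ∈ C → c = y) ∧ (y ∉ C → IsGate E C y c) := by
    intro y
    by_cases hy : y ∈ C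
    · exact ⟨y, fun _ => rfl, fun h => absurd hy h⟩
    · obtain ⟨c, hc⟩ := exists_gate_vertex hE hCne hy
      exact ⟨c, fun h => absurd h hy, fun _ => hc⟩
  choose π hπ using hex
  refine ⟨π, ⟨fun c hc => (hπ c).1 hc, ?_, ?_⟩, fun y hy => (hπ y).2 hy⟩
  · intro y
    by_cases hy : y ∈ C
    · rw [(hπ y).1 hy]
      exact hy
    · exact ((hπ y).2 hy).1
  · have key : ∀ x y, s(x, y) ∈ E → x ∉ C → π x = π y := by
      intro x y he hx
      by_cases hy : y ∈ C
      · rw [(hπ y).1 hy]
        refine ((hπ x).2 hx).unique hB ⟨hy, {x}, Conn.single x, Finset.mem_singleton_self x,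
          Finset.disjoint_singleton_left.2 hx, x, Finset.mem_singleton_self x, ?_⟩
        rw [Sym2.eq_swap]
        exact he
      · obtain ⟨hc, K, hK, hyK, hd, k, hk, hek⟩ := (hπ y).2 hy
        refine ((hπ x).2 hx).unique hB ⟨hc, insert x K, hK.insert hyK (by rw [Sym2.eq_swap]; exact he),
          Finset.mem_insert_self _ _, ?_, k, Finset.mem_insert_of_mem hk, hek⟩
        rw [Finset.disjoint_insert_left]
        exact ⟨hx, hd⟩
    intro x y he hxy
    by_cases hx : x ∈ C
    · have hy : y ∉ C := fun h => hxy ⟨hx, h⟩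
      exact (key y x (by rw [Sym2.eq_swap]; exact he) hy).symm
    · exact key x y he hx

theorem NS.degC_pos (hC : NS E C) {c : V} (hc : c ∈ C) : 0 < degC E C c := by
  unfold degC
  rw [Finset.card_pos]
  by_contra hcon
  rw [Finset.not_nonempty_iff_eq_empty, Finset.filter_eq_empty_iff] at hcon
  have h1 := hC.conn.closed (W := {c}) hc (Finset.mem_singleton_self c) (by
    intro x hx y hy hyc he
    rw [Finset.mem_singleton] at hx hyc
    subst hx
    exact hcon hy ⟨hyc, by rw [Sym2.eq_swap]; exact he⟩)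
  have h2 := Finset.card_le_card h1
  rw [Finset.card_singleton] at h2
  have h3 := hC.two
  omega

/-- the edges inside a block are not bridges -/
theorem NS.nonbridge (hE : Conn E univ) (hC : NS E C) (h3 : 3 ≤ C.card) {u v : V} (hu : u ∈ C)
    (hv : v ∈ C) (huv : u ≠ v) : Conn (E.erase s(u, v)) univ := by
  have key : ∀ w ∈ C, (w = u ∨ w = v) → Conn (E.erase s(u, v)) (C.erase w) := by
    intro w hw hwuv
    obtain ⟨FW, hFW⟩ := hC.erase w hw
    refine ⟨FW, hFW.mono fun e he => Finset.mem_erase.2 ⟨?_, hFW.subE he⟩⟩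
    rintro rfl
    have h1 : w ∈ C.erase w := by
      apply hFW.ends _ he
      rcases hwuv with rfl | rfl
      · exact Sym2.mem_mk_left _ _
      · exact Sym2.mem_mk_right _ _
    exact (Finset.mem_erase.1 h1).1 rfl
  have ht : ∃ t ∈ C, t ≠ u ∧ t ≠ v := by
    by_contra hcon
    push Not at hcon
    have h1 : C ⊆ {u, v} := by
      intro t ht
      rw [Finset.mem_insert, Finset.mem_singleton]
      by_cases htu : t = u
      · exact Or.inl htu
      · exact Or.inr (hcon t ht htu)
    have h2 := (Finset.card_le_card h1).trans Finset.card_le_two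
    omega
  obtain ⟨t, ht, htu, htv⟩ := ht
  have h1 := (key v hv (Or.inr rfl)).union (key u hu (Or.inl rfl)) (x := t)
    (Finset.mem_erase.2 ⟨htv, ht⟩) (Finset.mem_erase.2 ⟨htu, ht⟩)
  have hu1 : u ∈ C.erase v ∪ C.erase u := Finset.mem_union_left _ (Finset.mem_erase.2 ⟨huv, hu⟩)
  have hv1 : v ∈ C.erase v ∪ C.erase u :=
    Finset.mem_union_right _ (Finset.mem_erase.2 ⟨huv.symm, hv⟩)
  obtain ⟨S, _, huS, hS, hcl⟩ := exists_component (E := E.erase s(u, v)) (Finset.mem_univ u)
  have hvS : v ∈ S := h1.closed hu1 huS (fun x hx y _ hy => hcl x hx y (Finset.mem_univ _) hy) hv1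
  have h2 : (univ : Finset V) ⊆ S := by
    refine hE.closed (Finset.mem_univ u) huS ?_
    intro x hx y _ hy he
    by_cases h3 : s(x, y) = s(u, v)
    · rw [Sym2.eq_iff] at h3
      rcases h3 with ⟨_, h3⟩ | ⟨_, h3⟩
      · exact hy (h3 ▸ hvS)
      · exact hy (h3 ▸ huS)
    · exact hcl x hx y (Finset.mem_univ _) hy (Finset.mem_erase.2 ⟨h3, he⟩)
  have h4 : S = univ := Finset.Subset.antisymm (Finset.subset_univ _) h2
  rwa [h4] at hS

end Pool.Agent.H46.MST
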