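import Pool.Agent.H46.MstExt

/-!
The order of a tree and the number of its vertices in a block are positively correlated.
-/

namespace Pool.Agent.H46.MST

open Finset
open scoped Classical

variable {V : Type*} [Fintype V] [DecidableEq V]
variable {E : Finset (Sym2 V)} {A B : Finset V} {S : Finset V} {F : Finset (Sym2 V)}
variable {C : Finset V} {π : V → V}

theorem res_res {P : Finset V} (hCP : C ⊆ P) (p : Finset V × Finset (Sym2 V)) :
    res C (res P p) = res C p := by
  unfold res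
  refine Prod.ext ?_ ?_
  · simp only
    ext x
    simp only [Finset.mem_inter]
    exact ⟨fun h => ⟨h.1.1, h.2⟩, fun h => ⟨⟨h.1, hCP h.2⟩, h.2⟩⟩
  · simp only
    ext e
    simp only [Finset.mem_filter]
    exact ⟨fun h => ⟨h.1.1, h.2⟩, fun h => ⟨⟨h.1, fun x hx => hCP (h.2 x hx)⟩, h.2⟩⟩

theorem exc_res {P : Finset V} (hCP : C ⊆ P) (κ : ℝ) (p : Finset V × Finset (Sym2 V)) :
    exc C κ (res P p) = exc C κ p := by
  unfold exc
  have h1 : (res P p).1 ∩ C = p.1 ∩ C := by
    have := congrArg Prod.fst (res_res (V := V) hCP p)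
    exact this
  rw [h1]

theorem leafAt_res {P : Finset V} (hCP : C ⊆ P) (p : Finset V × Finset (Sym2 V)) (c : V) :
    leafAt C (res P p) c ↔ leafAt C p c := by
  unfold leafAt
  rw [res_res hCP]

theorem touch_at {c : V} (hc : c ∈ C) :
    (touch E C).filter (fun p => c ∈ p.1) = treesAt E univ c := by
  ext p
  rw [Finset.mem_filter, mem_touch, mem_treesAt]
  constructor
  · rintro ⟨⟨h1, _⟩, h2⟩
    exact ⟨Finset.subset_univ _, h1.gen h2⟩
  · rintro ⟨_, h2⟩
    have h3 := h2.sub (Finset.mem_singleton_self c)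
    exact ⟨⟨⟨c, h2⟩, ⟨c, Finset.mem_inter.2 ⟨h3, hc⟩⟩⟩, h3⟩

/-- splitting at a vertex of the block -/
theorem Gate.prod (hg : Gate E C π) {c : V} (hc : c ∈ C)
    (f g : Finset V × Finset (Sym2 V) → ℝ) :
    ∑ p ∈ treesAt E univ c, f (res (hang π c) p) * g (res (out π c) p) =
      (∑ p ∈ treesAt E (hang π c) c, f p) * ∑ q ∈ treesAt E (out π c) c, g q := by
  have h1 := sum_prod (hg.cut hc) (fun p q => f p * g q)
  rw [hang_union_out] at h1
  rw [h1, Finset.sum_mul_sum]

/-- the contribution of a vertex of the block -/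
theorem term_ge (hg : Gate E C π) {c : V} (hc : c ∈ C) (hK : Conn E (C.erase c))
    (hd : 0 < degC E C c) (κ : ℝ) (hκ : ∑ p ∈ touch E C, exc C κ p = 0) :
    -(1 / (4 * (degC E C c : ℝ))) *
      ∑ p ∈ (treesAt E univ c).filter (fun p => leafAt C p c), (max (exc C κ p) 0) ^ 2 ≤
    ∑ p ∈ treesAt E univ c, (((res (hang π c) p).1.card : ℝ) - 1) * exc C κ p := by
  set lam : ℝ := ((treesAt E (hang π c) c).card : ℝ) with hlam
  set b : ℝ := ∑ p ∈ treesAt E (hang π c) c, ((p.1.card : ℝ) - 1) with hb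
  set s : ℝ := ∑ q ∈ treesAt E (out π c) c, exc C κ q with hs
  set X : ℝ := ∑ p ∈ (touch E C).filter (fun p => c ∉ p.1), exc C κ p with hX
  set Y : ℝ := ∑ p ∈ (touch E C).filter (fun p => c ∉ p.1), max (exc C κ p) 0 with hY
  set L : ℝ := ∑ p ∈ (treesAt E univ c).filter (fun p => leafAt C p c), (max (exc C κ p) 0) ^ 2
    with hL
  have hCo := hg.sub_out c
  have e1 : ∑ p ∈ treesAt E univ c, (((res (hang π c) p).1.card : ℝ) - 1) * exc C κ p = b * s := by
    rw [hb, hs, ← hg.prod hc (fun p => (p.1.card : ℝ) - 1) (fun q => exc C κ q)]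
    refine Finset.sum_congr rfl fun p _ => ?_
    rw [exc_res hCo]
  have e2 : ∑ p ∈ treesAt E univ c, exc C κ p = lam * s := by
    have h1 := hg.prod hc (fun _ => (1 : ℝ)) (fun q => exc C κ q)
    rw [Finset.sum_const, nsmul_eq_mul, mul_one] at h1
    rw [hs, hlam, ← h1]
    refine Finset.sum_congr rfl fun p _ => ?_
    rw [exc_res hCo, one_mul]
  have e3 : X = -(lam * s) := by
    rw [← e2, ← touch_at (E := E) hc, hX]
    have := Finset.sum_filter_add_sum_filter_not (touch E C) (fun p => c ∈ p.1)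
      (fun p => exc C κ p)
    rw [hκ] at this
    linarith
  have e4 : lam * ∑ q ∈ (treesAt E (out π c) c).filter (fun q => leafAt C q c),
      (max (exc C κ q) 0) ^ 2 / 2 = L / 2 := by
    have h1 := hg.prod hc (fun _ => (1 : ℝ))
      (fun q => if leafAt C q c then (max (exc C κ q) 0) ^ 2 / 2 else 0)
    rw [Finset.sum_const, nsmul_eq_mul, mul_one, ← Finset.sum_filter] at h1
    rw [← h1, hL, Finset.sum_div, Finset.sum_filter]
    refine Finset.sum_congr rfl fun p _ => ?_
    rw [exc_res hCo, one_mul]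
    by_cases h2 : leafAt C p c
    · rw [if_pos h2, if_pos ((leafAt_res hCo p c).2 h2)]
    · rw [if_neg h2, if_neg (fun h => h2 ((leafAt_res hCo p c).1 h))]
  have hXY : X ≤ Y := Finset.sum_le_sum fun _ _ => le_max_left _ _
  have hY0 : 0 ≤ Y := Finset.sum_nonneg fun _ _ => le_max_right _ _
  have hbox : 2 * b ≤ lam * (lam - 1) := box (hang π c) c
  have hlam1 : 1 ≤ lam := by
    have h1 : ({c}, ∅) ∈ treesAt E (hang π c) c := by
      rw [mem_treesAt]
      exact ⟨Finset.singleton_subset_iff.2 (mem_hang.2 (hg.fix c hc)), Gen.base⟩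
    have h2 : 1 ≤ (treesAt E (hang π c) c).card := Finset.card_pos.2 ⟨_, h1⟩
    have h3 : (1 : ℝ) ≤ ((treesAt E (hang π c) c).card : ℝ) := by exact_mod_cast h2
    exact h3
  have hb0 : 0 ≤ b := by
    refine Finset.sum_nonneg fun p hp => ?_
    rw [mem_treesAt] at hp
    have h1 : p.1.Nonempty := ⟨c, hp.2.sub (Finset.mem_singleton_self c)⟩
    have h2 : (1 : ℝ) ≤ p.1.card := by exact_mod_cast Finset.card_pos.2 h1
    linarith
  have hext := ext_ineq hg hc hK κ
  have hd' : (0 : ℝ) < degC E C c := by exact_mod_cast hd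
  have h5 : lam * (degC E C c * Y) ≤ L / 2 := by
    rw [← e4]
    exact mul_le_mul_of_nonneg_left hext (by linarith)
  rw [e1]
  -- b * s = - b * X / lam ≥ - (lam - 1) / 2 * Y ≥ - lam Y / 2 ≥ - L / (4 d)
  have h6 : b * s * lam = -(b * X) := by
    rw [e3]
    ring
  have h7 : b * X ≤ lam * ((lam - 1) / 2 * Y) := by
    have h8 : b * X ≤ b * Y := mul_le_mul_of_nonneg_left hXY hb0
    nlinarith
  have h8 : -((lam - 1) / 2 * Y) ≤ b * s := by
    have : lam * (b * s + (lam - 1) / 2 * Y) ≥ 0 := by nlinarith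
    by_contra hcon
    rw [not_le] at hcon
    nlinarith
  have h9 : lam * Y ≤ L / (2 * degC E C c) := by
    rw [le_div_iff₀ (by positivity)]
    nlinarith
  have h10 : -(1 / (4 * (degC E C c : ℝ))) * L = -(L / (2 * degC E C c)) / 2 := by
    field_simp
    ring
  rw [h10]
  nlinarith

/-- a vertex with nothing hanging contributes nothing -/
theorem term_zero {c : V} (hh : hang π c = {c}) (κ : ℝ) :
    ∑ p ∈ treesAt E univ c, (((res (hang π c) p).1.card : ℝ) - 1) * exc C κ p = 0 := by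
  refine Finset.sum_eq_zero fun p hp => ?_
  rw [mem_treesAt] at hp
  have h1 : (res (hang π c) p).1 = {c} := by
    unfold res
    simp only
    rw [hh]
    exact Finset.inter_eq_right.2 hp.2.sub
  rw [h1, Finset.card_singleton]
  simp

/-- the order of a touching tree -/
theorem Gate.card_tree (hg : Gate E C π) {p : Finset V × Finset (Sym2 V)} (hp : p ∈ touch E C) :
    (p.1.card : ℝ) = ((p.1 ∩ C).card : ℝ) +
      ∑ c ∈ C, if c ∈ p.1 then (((res (hang π c) p).1.card : ℝ) - 1) else 0 := by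
  rw [mem_touch] at hp
  obtain ⟨t, ht⟩ := hp.2
  rw [Finset.mem_inter] at ht
  have hgate := hg.tree_gate ht.2 (hp.1.gen ht.1)
  have h1 : p.1.card = ∑ c ∈ C, (p.1.filter fun y => π y = c).card :=
    Finset.card_eq_sum_card_fiberwise fun y _ => hg.mem y
  have h2 : ((p.1 ∩ C).card : ℝ) = ∑ c ∈ C, if c ∈ p.1 then (1 : ℝ) else 0 := by
    rw [← Finset.sum_filter, Finset.sum_const, nsmul_eq_mul, mul_one]
    congr 2
    ext x
    rw [Finset.mem_inter, Finset.mem_filter, and_comm]
  rw [h1, h2, ← Finset.sum_add_distrib]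
  push_cast
  refine Finset.sum_congr rfl fun c hc => ?_
  have h3 : (res (hang π c) p).1 = p.1.filter fun y => π y = c := by
    unfold res
    simp only
    ext y
    rw [Finset.mem_inter, Finset.mem_filter, mem_hang]
  rw [h3]
  by_cases hcp : c ∈ p.1
  · rw [if_pos hcp, if_pos hcp]
    ring
  · rw [if_neg hcp, if_neg hcp, Finset.card_eq_zero.2]
    · simp
    · rw [Finset.filter_eq_empty_iff]
      intro y hy h
      exact hcp (h ▸ hgate y hy)

theorem cov_pos (hg : Gate E C π) (hK : ∀ c ∈ C, Conn E (C.erase c))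
    (hd : ∀ c ∈ C, 0 < degC E C c) (hne : C.Nonempty)
    (hleaf : ∀ S F, IsT E S F → S ⊆ C →
      ∑ c ∈ C.filter (fun c => hang π c ≠ {c} ∧ leafAt C (S, F) c), 1 / (degC E C c : ℝ) ≤ 4)
    (κ : ℝ) (hκ : ∑ p ∈ touch E C, exc C κ p = 0) :
    0 < ∑ p ∈ touch E C, (p.1.card : ℝ) * exc C κ p := by
  have e1 : ∑ p ∈ touch E C, (p.1.card : ℝ) * exc C κ p =
      ∑ p ∈ touch E C, (exc C κ p) ^ 2 +
      ∑ c ∈ C, ∑ p ∈ treesAt E univ c, (((res (hang π c) p).1.card : ℝ) - 1) * exc C κ p := by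
    have h1 : ∑ p ∈ touch E C, (p.1.card : ℝ) * exc C κ p =
        ∑ p ∈ touch E C, ((exc C κ p) ^ 2 + κ * exc C κ p +
          ∑ c ∈ C, if c ∈ p.1 then (((res (hang π c) p).1.card : ℝ) - 1) * exc C κ p else 0) := by
      refine Finset.sum_congr rfl fun p hp => ?_
      rw [hg.card_tree hp, add_mul, Finset.sum_mul]
      congr 1
      · unfold exc
        ring
      · refine Finset.sum_congr rfl fun c _ => ?_
        by_cases hcp : c ∈ p.1
        · rw [if_pos hcp, if_pos hcp]
        · rw [if_neg hcp, if_neg hcp, zero_mul]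
    rw [h1, Finset.sum_add_distrib, Finset.sum_add_distrib, ← Finset.mul_sum, hκ, mul_zero, add_zero]
    congr 1
    rw [Finset.sum_comm]
    refine Finset.sum_congr rfl fun c hc => ?_
    rw [← touch_at (E := E) hc, Finset.sum_filter]
  have e2 : ∀ c ∈ C, (if hang π c ≠ {c} then -(1 / (4 * (degC E C c : ℝ))) *
      ∑ p ∈ (treesAt E univ c).filter (fun p => leafAt C p c), (max (exc C κ p) 0) ^ 2 else 0) ≤
      ∑ p ∈ treesAt E univ c, (((res (hang π c) p).1.card : ℝ) - 1) * exc C κ p := by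
    intro c hc
    by_cases h : hang π c ≠ {c}
    · rw [if_pos h]
      exact term_ge hg hc (hK c hc) (hd c hc) κ hκ
    · rw [if_neg h, term_zero (not_not.1 h)]
  have e3 : ∑ c ∈ C, (if hang π c ≠ {c} then -(1 / (4 * (degC E C c : ℝ))) *
      ∑ p ∈ (treesAt E univ c).filter (fun p => leafAt C p c), (max (exc C κ p) 0) ^ 2 else 0) =
      -∑ p ∈ touch E C, (max (exc C κ p) 0) ^ 2 *
        (∑ c ∈ C.filter (fun c => hang π c ≠ {c} ∧ c ∈ p.1 ∧ leafAt C p c),
          1 / (degC E C c : ℝ)) / 4 := by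
    have h1 : ∀ c ∈ C, (if hang π c ≠ {c} then -(1 / (4 * (degC E C c : ℝ))) *
        ∑ p ∈ (treesAt E univ c).filter (fun p => leafAt C p c), (max (exc C κ p) 0) ^ 2 else 0) =
        ∑ p ∈ touch E C, if hang π c ≠ {c} ∧ c ∈ p.1 ∧ leafAt C p c then
          -((max (exc C κ p) 0) ^ 2 * (1 / (degC E C c : ℝ)) / 4) else 0 := by
      intro c hc
      by_cases h : hang π c ≠ {c}
      · rw [if_pos h, ← touch_at (E := E) hc, Finset.filter_filter, Finset.mul_sum,
          Finset.sum_filter]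
        refine Finset.sum_congr rfl fun p _ => ?_
        by_cases h2 : c ∈ p.1 ∧ leafAt C p c
        · rw [if_pos h2, if_pos ⟨h, h2⟩]
          field_simp
        · rw [if_neg h2, if_neg fun h3 => h2 h3.2]
      · rw [if_neg h, Finset.sum_eq_zero]
        intro p _
        rw [if_neg fun h3 => h h3.1]
    rw [Finset.sum_congr rfl h1, Finset.sum_comm, ← Finset.sum_neg_distrib]
    refine Finset.sum_congr rfl fun p _ => ?_
    rw [← Finset.sum_filter, Finset.sum_neg_distrib, ← Finset.sum_div, ← Finset.mul_sum]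
  have e4 : ∀ p ∈ touch E C, (max (exc C κ p) 0) ^ 2 *
        (∑ c ∈ C.filter (fun c => hang π c ≠ {c} ∧ c ∈ p.1 ∧ leafAt C p c),
          1 / (degC E C c : ℝ)) / 4 ≤ (max (exc C κ p) 0) ^ 2 := by
    intro p hp
    have h1 := mem_touch.1 hp
    obtain ⟨t, ht⟩ := h1.2
    rw [Finset.mem_inter] at ht
    have h2 : IsT E (res C p).1 (res C p).2 := ⟨t, hg.tree_res ht.2 (h1.1.gen ht.1)⟩
    have h3 := hleaf (res C p).1 (res C p).2 h2 Finset.inter_subset_right
    have h4 : (∑ c ∈ C.filter (fun c => hang π c ≠ {c} ∧ c ∈ p.1 ∧ leafAt C p c),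
          1 / (degC E C c : ℝ)) ≤ 4 := by
      refine le_trans ?_ h3
      refine Finset.sum_le_sum_of_subset_of_nonneg ?_ fun _ _ _ => by positivity
      intro c hc
      rw [Finset.mem_filter] at hc ⊢
      exact ⟨hc.1, hc.2.1, (leafAt_res (V := V) (subset_refl C) p c).2 hc.2.2.2⟩
    have h5 := sq_nonneg (max (exc C κ p) 0)
    nlinarith
  have e5 : ∑ p ∈ touch E C, (exc C κ p) ^ 2 - ∑ p ∈ touch E C, (max (exc C κ p) 0) ^ 2 ≤
      ∑ p ∈ touch E C, (p.1.card : ℝ) * exc C κ p := by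
    rw [e1]
    have h1 := Finset.sum_le_sum e2
    rw [e3] at h1
    have h2 := Finset.sum_le_sum e4
    linarith
  -- there is a tree with negative excess
  obtain ⟨c, hc⟩ := hne
  obtain ⟨u, hu⟩ := Finset.card_pos.1 (hd c hc)
  rw [Finset.mem_filter] at hu
  have hp1 : (({c}, ∅) : Finset V × Finset (Sym2 V)) ∈ touch E C := by
    rw [mem_touch]
    exact ⟨IsT.single c, ⟨c, Finset.mem_inter.2 ⟨Finset.mem_singleton_self c, hc⟩⟩⟩
  have hp2 : (({u, c}, {s(u, c)}) : Finset V × Finset (Sym2 V)) ∈ touch E C := by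
    rw [mem_touch]
    refine ⟨IsT.pair hu.2.1 hu.2.2, ⟨c, Finset.mem_inter.2 ⟨?_, hc⟩⟩⟩
    simp
  have hx12 : exc C κ ({c}, ∅) < exc C κ ({u, c}, {s(u, c)}) := by
    unfold exc
    have h1 : ({c} : Finset V) ∩ C = {c} := Finset.inter_eq_left.2 (Finset.singleton_subset_iff.2 hc)
    have h2 : ({u, c} : Finset V) ∩ C = {u, c} := by
      refine Finset.inter_eq_left.2 ?_
      intro x hx
      rw [Finset.mem_insert, Finset.mem_singleton] at hx
      rcases hx with rfl | rfl
      · exact hu.1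
      · exact hc
    simp only
    rw [h1, h2, Finset.card_singleton, Finset.card_pair hu.2.1]
    norm_num
  have hmin : ∀ p ∈ touch E C, exc C κ ({c}, ∅) ≤ exc C κ p := by
    intro p hp
    rw [mem_touch] at hp
    unfold exc
    have h1 : ({c} : Finset V) ∩ C = {c} := Finset.inter_eq_left.2 (Finset.singleton_subset_iff.2 hc)
    simp only
    rw [h1, Finset.card_singleton]
    have h2 : (1 : ℝ) ≤ (p.1 ∩ C).card := by exact_mod_cast Finset.card_pos.2 hp.2
    push_cast
    linarith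
  have hneg : exc C κ ({c}, ∅) < 0 := by
    by_contra hcon
    rw [not_lt] at hcon
    have h1 : 0 < ∑ p ∈ touch E C, exc C κ p :=
      Finset.sum_pos' (fun p hp => hcon.trans (hmin p hp)) ⟨_, hp2, by linarith⟩
    linarith
  have h1 : 0 < ∑ p ∈ touch E C, ((exc C κ p) ^ 2 - (max (exc C κ p) 0) ^ 2) := by
    refine Finset.sum_pos' (fun p _ => ?_) ⟨_, hp1, ?_⟩
    · rcases le_total (exc C κ p) 0 with h | h
      · rw [max_eq_right h]
        have := sq_nonneg (exc C κ p)
        simpa using this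
      · rw [max_eq_left h, sub_self]
    · rw [max_eq_right hneg.le]
      have := sq_pos_of_neg hneg
      simpa using this
  rw [Finset.sum_sub_distrib] at h1
  linarith

end Pool.Agent.H46.MST
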