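import Pool.Agent.H46.MstBlock

/-!
The descent.
-/

namespace Pool.Agent.H46.MST

open Finset
open scoped Classical

variable {V : Type*} [Fintype V] [DecidableEq V]
variable {E : Finset (Sym2 V)} {A B : Finset V} {S : Finset V} {F : Finset (Sym2 V)}
variable {C : Finset V} {π : V → V}

/-- the sum of the deviations over the trees in `U` through `w` -/
noncomputable def devAt (E : Finset (Sym2 V)) (m : ℝ) (U : Finset V) (w : V) : ℝ :=
  ∑ p ∈ treesAt E U w, ((p.1.card : ℝ) - m)

theorem one_le_card_of_treesAt {U : Finset V} {v : V} {p : Finset V × Finset (Sym2 V)}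
    (hp : p ∈ treesAt E U v) : (1 : ℝ) ≤ p.1.card := by
  rw [mem_treesAt] at hp
  have h1 : p.1.Nonempty := ⟨v, hp.2.sub (Finset.mem_singleton_self v)⟩
  exact_mod_cast Finset.card_pos.2 h1

theorem single_mem_treesAt {U : Finset V} {v : V} (hv : v ∈ U) :
    (({v}, ∅) : Finset V × Finset (Sym2 V)) ∈ treesAt E U v :=
  mem_treesAt.2 ⟨Finset.singleton_subset_iff.2 hv, Gen.base⟩

theorem card_treesAt_pos {U : Finset V} {v : V} (hv : v ∈ U) :
    (0 : ℝ) < (treesAt E U v).card := by
  have h1 : 0 < (treesAt E U v).card := Finset.card_pos.2 ⟨_, single_mem_treesAt hv⟩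
  exact_mod_cast h1

theorem devAt_prod {P Q : Finset V} {v : V} (hc : Cut E P Q v) (m : ℝ) :
    devAt E m (P ∪ Q) v = devAt E m P v * (treesAt E Q v).card +
      (treesAt E P v).card * ∑ q ∈ treesAt E Q v, ((q.1.card : ℝ) - 1) := by
  have h1 := sum_prod hc (fun p q => ((p.1.card : ℝ) - m) + ((q.1.card : ℝ) - 1))
  have h2 : devAt E m (P ∪ Q) v = ∑ p ∈ treesAt E (P ∪ Q) v,
      ((((res P p).1.card : ℝ) - m) + (((res Q p).1.card : ℝ) - 1)) := by
    unfold devAt
    refine Finset.sum_congr rfl fun p hp => ?_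
    rw [mem_treesAt] at hp
    have h3 := card_res hc hp.2 hp.1
    rw [Prod.mk.eta] at h3
    rw [h3]
    ring
  rw [h2, h1]
  unfold devAt
  rw [Finset.sum_mul]
  have h3 : ∀ p ∈ treesAt E P v, ∑ q ∈ treesAt E Q v, (((p.1.card : ℝ) - m) + ((q.1.card : ℝ) - 1)) =
      ((p.1.card : ℝ) - m) * (treesAt E Q v).card + ∑ q ∈ treesAt E Q v, ((q.1.card : ℝ) - 1) := by
    intro p _
    rw [Finset.sum_add_distrib, Finset.sum_const, nsmul_eq_mul, mul_comm]
  rw [Finset.sum_congr rfl h3, Finset.sum_add_distrib, Finset.sum_const, nsmul_eq_mul]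

theorem devAt_neg_of {P Q : Finset V} {v : V} (hc : Cut E P Q v) (m : ℝ)
    (h : devAt E m (P ∪ Q) v < 0) : devAt E m P v < 0 := by
  rw [devAt_prod hc] at h
  have h1 : 0 ≤ ∑ q ∈ treesAt E Q v, ((q.1.card : ℝ) - 1) :=
    Finset.sum_nonneg fun q hq => by have := one_le_card_of_treesAt hq; linarith
  have h2 : (0 : ℝ) ≤ (treesAt E P v).card := Nat.cast_nonneg _
  have h3 : (0 : ℝ) < (treesAt E Q v).card := card_treesAt_pos hc.vQ
  by_contra hcon
  rw [not_lt] at hcon
  have h4 := mul_nonneg hcon h3.le
  have h5 := mul_nonneg h2 h1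
  linarith

/-- an edge at `c` outside of `P` -/
theorem devAt_neg_of_edge {P Q : Finset V} {c c' : V} (hc : Cut E P Q c) (hPQ : P ∪ Q = univ)
    (hc'Q : c' ∈ Q) (hcc' : c ≠ c') (he : s(c, c') ∈ E) (m : ℝ)
    (h : ∑ p ∈ (trees E univ).filter (fun p => s(c, c') ∈ p.2), ((p.1.card : ℝ) - m) ≤ 0) :
    devAt E m P c < 0 := by
  have h1 := sum_prod hc (fun p q => if s(c, c') ∈ q.2 then
    ((p.1.card : ℝ) - m) + ((q.1.card : ℝ) - 1) else 0)
  rw [hPQ] at h1
  have h2 : ∑ p ∈ (trees E univ).filter (fun p => s(c, c') ∈ p.2), ((p.1.card : ℝ) - m) =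
      ∑ p ∈ treesAt E univ c, if s(c, c') ∈ (res Q p).2 then
        (((res P p).1.card : ℝ) - m) + (((res Q p).1.card : ℝ) - 1) else 0 := by
    rw [← Finset.sum_filter]
    refine Finset.sum_congr ?_ ?_
    · ext p
      rw [Finset.mem_filter, Finset.mem_filter, mem_trees, mem_treesAt]
      unfold res
      rw [Finset.mem_filter]
      constructor
      · rintro ⟨⟨_, h3⟩, h4⟩
        refine ⟨⟨Finset.subset_univ _, h3.gen (h3.ends _ h4 c (Sym2.mem_mk_left _ _))⟩, h4, ?_⟩
        intro x hx
        rw [Sym2.mem_iff] at hx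
        rcases hx with rfl | rfl
        · exact hc.vQ
        · exact hc'Q
      · rintro ⟨⟨_, h3⟩, h4, _⟩
        exact ⟨⟨Finset.subset_univ _, ⟨c, h3⟩⟩, h4⟩
    · intro p hp
      rw [Finset.mem_filter, mem_treesAt] at hp
      have h4 := hp.1.2
      have h3 := card_res hc h4 (by rw [hPQ]; exact Finset.subset_univ _)
      rw [Prod.mk.eta] at h3
      rw [h3]
      ring
  rw [h2, h1] at h
  set n : ℝ := ∑ q ∈ treesAt E Q c, if s(c, c') ∈ q.2 then (1 : ℝ) else 0 with hn
  set r : ℝ := ∑ q ∈ treesAt E Q c, if s(c, c') ∈ q.2 then ((q.1.card : ℝ) - 1) else 0 with hr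
  have h3 : ∑ p ∈ treesAt E P c, ∑ q ∈ treesAt E Q c, (if s(c, c') ∈ q.2 then
      ((p.1.card : ℝ) - m) + ((q.1.card : ℝ) - 1) else 0) =
      devAt E m P c * n + (treesAt E P c).card * r := by
    have h4 : ∀ p ∈ treesAt E P c, ∑ q ∈ treesAt E Q c, (if s(c, c') ∈ q.2 then
        ((p.1.card : ℝ) - m) + ((q.1.card : ℝ) - 1) else 0) = ((p.1.card : ℝ) - m) * n + r := by
      intro p _
      rw [hn, hr, Finset.mul_sum, ← Finset.sum_add_distrib]
      refine Finset.sum_congr rfl fun q _ => ?_
      by_cases h5 : s(c, c') ∈ q.2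
      · rw [if_pos h5, if_pos h5, if_pos h5]; ring
      · rw [if_neg h5, if_neg h5, if_neg h5]; ring
    rw [Finset.sum_congr rfl h4, Finset.sum_add_distrib, ← Finset.sum_mul, Finset.sum_const,
      nsmul_eq_mul]
    rfl
  rw [h3] at h
  have hmem : (({c, c'}, {s(c, c')}) : Finset V × Finset (Sym2 V)) ∈ treesAt E Q c := by
    rw [mem_treesAt]
    refine ⟨?_, (IsT.pair hcc' he).gen (by simp)⟩
    intro x hx
    rw [Finset.mem_insert, Finset.mem_singleton] at hx
    rcases hx with rfl | rfl
    · exact hc.vQ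
    · exact hc'Q
  have hn1 : 0 < n := by
    refine Finset.sum_pos' (fun q _ => by split_ifs <;> norm_num) ⟨_, hmem, ?_⟩
    rw [if_pos (Finset.mem_singleton_self _)]
    norm_num
  have hr1 : 0 < r := by
    refine Finset.sum_pos' (fun q hq => ?_) ⟨_, hmem, ?_⟩
    · have := one_le_card_of_treesAt hq
      split_ifs
      · linarith
      · exact le_refl _
    · rw [if_pos (Finset.mem_singleton_self _)]
      simp only
      rw [Finset.card_pair hcc']
      norm_num
  have hP : (0 : ℝ) < (treesAt E P c).card := card_treesAt_pos hc.vP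
  by_contra hcon
  rw [not_lt] at hcon
  have h4 := mul_nonneg hcon hn1.le
  have h5 := mul_pos hP hr1
  linarith

/-- the state of the descent -/
structure St (E : Finset (Sym2 V)) (m : ℝ) (w : V) (Z : Finset V) : Prop where
  notMem : w ∉ Z
  conn : Conn E Z
  cl : ∀ x ∈ Z, ∀ y, y ∉ Z → y ≠ w → s(x, y) ∉ E
  pos : 0 < dev E m Z
  neg : devAt E m (insert w Z) w < 0

/-- a hanging part with positive deviation gives a state -/
theorem exists_state (hB : Block E C) (hg : Gate E C π) (m : ℝ)
    (hedge : ∀ u ∈ C, ∀ v ∈ C, u ≠ v → s(u, v) ∈ E →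
      ∑ p ∈ (trees E univ).filter (fun p => s(u, v) ∈ p.2), ((p.1.card : ℝ) - m) ≤ 0)
    {c : V} (hc : c ∈ C) (hpos : 0 < dev E m ((hang π c).erase c)) :
    ∃ Z ⊆ (hang π c).erase c, St E m c Z := by
  obtain ⟨Z, hZW, hZ, hcl, hdev⟩ := exists_comp (E := E) m _ ((hang π c).erase c) rfl hpos
  have hcZ : c ∉ Z := fun h => (Finset.mem_erase.1 (hZW h)).1 rfl
  have hZC : ∀ x ∈ Z, x ∉ C := by
    intro x hx hxC
    have h1 := Finset.mem_erase.1 (hZW hx)
    apply h1.1
    rw [← hg.fix x hxC]
    exact mem_hang.1 h1.2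
  have hclV : ∀ x ∈ Z, ∀ y, y ∉ Z → y ≠ c → s(x, y) ∉ E := by
    intro x hx y hy hyc he
    have h1 := Finset.mem_erase.1 (hZW hx)
    have h2 := hg.edge x y he fun h => hZC x hx h.1
    refine hcl x hx y (Finset.mem_erase.2 ⟨hyc, mem_hang.2 ?_⟩) hy he
    rw [← h2]
    exact mem_hang.1 h1.2
  refine ⟨Z, hZW, hcZ, hZ, hclV, hdev, ?_⟩
  obtain ⟨c', hc'⟩ := Finset.card_pos.1 (hB.ns.degC_pos hc)
  rw [Finset.mem_filter] at hc'
  have hcut : Cut E (insert c Z) (univ \ Z) c := by
    refine ⟨Finset.mem_insert_self _ _, Finset.mem_sdiff.2 ⟨Finset.mem_univ _, hcZ⟩, ?_, ?_⟩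
    · intro x hx hx'
      rw [Finset.mem_insert] at hx
      exact hx.resolve_right (Finset.mem_sdiff.1 hx').2
    · intro x hx y hy hxc hyc
      rw [Finset.mem_insert] at hx
      exact hclV x (hx.resolve_left hxc) y (Finset.mem_sdiff.1 hy).2 hyc
  have hedge' : s(c, c') ∈ E := by rw [Sym2.eq_swap]; exact hc'.2.2
  refine devAt_neg_of_edge hcut ?_ (Finset.mem_sdiff.2 ⟨Finset.mem_univ _, fun h => hZC c' h hc'.1⟩)
    hc'.2.1.symm hedge' m (hedge c hc c' hc'.1 hc'.2.1.symm hedge')
  ext x
  rw [Finset.mem_union, Finset.mem_insert, Finset.mem_sdiff]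
  refine ⟨fun _ => Finset.mem_univ _, fun _ => ?_⟩
  by_cases hx : x ∈ Z
  · exact Or.inl (Or.inr hx)
  · exact Or.inr ⟨Finset.mem_univ _, hx⟩

/-- trees inside `Z` through `z` or not -/
theorem dev_split (m : ℝ) {Z : Finset V} {z : V} :
    dev E m Z = devAt E m Z z + dev E m (Z.erase z) := by
  unfold dev devAt treesAt
  rw [← Finset.sum_filter_add_sum_filter_not (trees E Z) (fun p => z ∈ p.1)]
  congr 1
  refine Finset.sum_congr ?_ fun _ _ => rfl
  ext p
  rw [Finset.mem_filter, mem_trees, mem_trees]
  constructor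
  · rintro ⟨⟨h1, h2⟩, h3⟩
    exact ⟨fun x hx => Finset.mem_erase.2 ⟨fun h => h3 (h ▸ hx), h1 hx⟩, h2⟩
  · rintro ⟨h1, h2⟩
    exact ⟨⟨h1.trans (Finset.erase_subset _ _), h2⟩, fun h => (Finset.mem_erase.1 (h1 h)).1 rfl⟩

/-- the bridge step: a vertex with one neighbour -/
theorem devAt_bridge (m : ℝ) {w z : V} {Z : Finset V} (hw : w ∉ Z) (hz : z ∈ Z)
    (hZ : Conn E Z) (huniq : ∀ y ∈ Z, s(w, y) ∈ E → y = z) (hwz : s(w, z) ∈ E) :
    devAt E m (insert w Z) w = (1 - m) + ∑ q ∈ treesAt E Z z, ((q.1.card : ℝ) + 1 - m) := by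
  have hwz' : w ≠ z := fun h => hw (h ▸ hz)
  have hcut : Cut E {w, z} Z z := by
    refine ⟨by simp, hz, ?_, ?_⟩
    · intro x hx hxZ
      rw [Finset.mem_insert, Finset.mem_singleton] at hx
      rcases hx with rfl | rfl
      · exact absurd hxZ hw
      · rfl
    · intro x hx y hy hxz hyz he
      rw [Finset.mem_insert, Finset.mem_singleton] at hx
      rcases hx with rfl | rfl
      · exact hyz (huniq y hy he)
      · exact hxz rfl
  have hun : ({w, z} : Finset V) ∪ Z = insert w Z := by
    ext x
    simp only [Finset.mem_union, Finset.mem_insert, Finset.mem_singleton]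
    constructor
    · rintro ((h | h) | h)
      · exact Or.inl h
      · exact Or.inr (h ▸ hz)
      · exact Or.inr h
    · rintro (h | h)
      · exact Or.inl (Or.inl h)
      · exact Or.inr h
  -- the trees through `w`
  have h1 : treesAt E (insert w Z) w =
      insert ({w}, ∅) ((treesAt E (insert w Z) z).filter fun p => w ∈ p.1) := by
    ext p
    rw [Finset.mem_insert, Finset.mem_filter, mem_treesAt, mem_treesAt]
    constructor
    · rintro ⟨h2, h3⟩
      by_cases hzp : z ∈ p.1
      · exact Or.inr ⟨⟨h2, h3.reroot hzp⟩, h3.sub (Finset.mem_singleton_self _)⟩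
      · left
        have h4 : p.1 ⊆ {w} := h3.closed subset_rfl (by
          intro x hx y hy hyw he
          rw [Finset.mem_singleton] at hx hyw
          subst hx
          have h5 := h2 hy
          rw [Finset.mem_insert] at h5
          rcases h5 with h5 | h5
          · exact hyw h5
          · exact hzp (huniq y h5 he ▸ hy))
        have h5 : p.1 = {w} := Finset.Subset.antisymm h4 h3.sub
        have h6 := h3.card
        rw [h5, Finset.card_singleton] at h6
        have h7 : p.2.card = 0 := by omega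
        rw [Finset.card_eq_zero] at h7
        exact Prod.ext h5 h7
    · rintro (rfl | ⟨⟨h2, h3⟩, h4⟩)
      · exact ⟨Finset.singleton_subset_iff.2 (Finset.mem_insert_self _ _), Gen.base⟩
      · exact ⟨h2, h3.reroot h4⟩
  have h2 : (({w}, ∅) : Finset V × Finset (Sym2 V)) ∉
      (treesAt E (insert w Z) z).filter fun p => w ∈ p.1 := by
    rw [Finset.mem_filter, mem_treesAt]
    rintro ⟨⟨_, h⟩, _⟩
    have := h.sub (Finset.mem_singleton_self z)
    simp only [Finset.mem_singleton] at this
    exact hwz' this.symm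
  have h3 : devAt E m (insert w Z) w = (1 - m) +
      ∑ p ∈ (treesAt E (insert w Z) z).filter (fun p => w ∈ p.1), ((p.1.card : ℝ) - m) := by
    unfold devAt
    rw [h1, Finset.sum_insert h2]
    simp
  -- the trees on `{w, z}`
  have h4 : (treesAt E {w, z} z).filter (fun p => w ∈ p.1) = {({w, z}, {s(w, z)})} := by
    ext p
    rw [Finset.mem_filter, mem_treesAt, Finset.mem_singleton]
    constructor
    · rintro ⟨⟨h5, h6⟩, h7⟩
      have h8 : p.1 = {w, z} := by
        apply Finset.Subset.antisymm h5
        intro x hx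
        rw [Finset.mem_insert, Finset.mem_singleton] at hx
        rcases hx with rfl | rfl
        · exact h7
        · exact h6.sub (Finset.mem_singleton_self _)
      have h9 := h6.card
      rw [h8, Finset.card_pair hwz', Finset.card_singleton] at h9
      have h10 : p.2.card = 1 := by omega
      obtain ⟨e, he⟩ := Finset.card_eq_one.1 h10
      have h11 : e ∈ p.2 := by rw [he]; exact Finset.mem_singleton_self _
      refine Prod.ext h8 ?_
      rw [he]
      congr 1
      induction e with
      | _ a b =>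
        have ha := h6.ends _ h11 a (Sym2.mem_mk_left _ _)
        have hb := h6.ends _ h11 b (Sym2.mem_mk_right _ _)
        have hab : a ≠ b := fun h => h6.noLoop a (by rw [h] at h11 ⊢; exact h11)
        rw [h8, Finset.mem_insert, Finset.mem_singleton] at ha hb
        rcases ha with rfl | rfl <;> rcases hb with rfl | rfl
        · exact absurd rfl hab
        · rfl
        · exact Sym2.eq_swap
        · exact absurd rfl hab
    · rintro rfl
      refine ⟨⟨subset_rfl, (IsT.pair hwz' hwz).gen (by simp)⟩, by simp⟩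
  have h5 := sum_prod hcut (fun p q => if w ∈ p.1 then ((q.1.card : ℝ) + 1 - m) else 0)
  rw [hun] at h5
  rw [h3]
  congr 1
  have h6 : ∑ p ∈ (treesAt E (insert w Z) z).filter (fun p => w ∈ p.1), ((p.1.card : ℝ) - m) =
      ∑ p ∈ treesAt E (insert w Z) z, if w ∈ (res {w, z} p).1 then
        (((res Z p).1.card : ℝ) + 1 - m) else 0 := by
    rw [← Finset.sum_filter]
    refine Finset.sum_congr ?_ ?_
    · ext p
      rw [Finset.mem_filter, Finset.mem_filter]
      unfold res
      rw [Finset.mem_inter]
      exact ⟨fun h => ⟨h.1, h.2, by simp⟩, fun h => ⟨h.1, h.2.1⟩⟩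
    · intro p hp
      rw [Finset.mem_filter, mem_treesAt] at hp
      have hwp : w ∈ p.1 := by
        have h := hp.2
        unfold res at h
        exact (Finset.mem_inter.1 h).1
      have h7 := card_res hcut hp.1.2 (by rw [hun]; exact hp.1.1)
      rw [Prod.mk.eta] at h7
      have h8 : (res {w, z} p).1 = {w, z} := by
        unfold res
        simp only
        refine Finset.inter_eq_right.2 ?_
        intro x hx
        rw [Finset.mem_insert, Finset.mem_singleton] at hx
        rcases hx with rfl | rfl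
        · exact hwp
        · exact hp.1.2.sub (Finset.mem_singleton_self _)
      rw [h7, h8, Finset.card_pair hwz']
      push_cast
      ring
  rw [h6, h5]
  have h7 : ∀ p ∈ treesAt E {w, z} z, ∑ q ∈ treesAt E Z z,
      (if w ∈ p.1 then ((q.1.card : ℝ) + 1 - m) else 0) =
      if w ∈ p.1 then ∑ q ∈ treesAt E Z z, ((q.1.card : ℝ) + 1 - m) else 0 := by
    intro p _
    by_cases h : w ∈ p.1
    · simp only [if_pos h]
    · simp only [if_neg h, Finset.sum_const_zero]
  rw [Finset.sum_congr rfl h7, ← Finset.sum_filter, h4, Finset.sum_singleton]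

/-- there is no state -/
theorem no_state (hE : Conn E univ) (m : ℝ) (hm0 : dev E m univ = 0)
    (hedge : ∀ u v, u ≠ v → s(u, v) ∈ E → Conn (E.erase s(u, v)) univ →
      ∑ p ∈ (trees E univ).filter (fun p => s(u, v) ∈ p.2), ((p.1.card : ℝ) - m) ≤ 0)
    (hblk : ∀ C, Block E C → ∑ p ∈ touch E C, ((p.1.card : ℝ) - m) < 0) (n : ℕ) :
    ∀ w Z, Z.card = n → St E m w Z → False := by
  induction n using Nat.strong_induction_on with
  | _ n ih =>
    intro w Z hn hst
    -- `w` has a neighbour in `Z`
    have hnb : ∃ z ∈ Z, s(w, z) ∈ E := by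
      by_contra hcon
      push Not at hcon
      obtain ⟨x, hx⟩ := hst.conn.nonempty
      have h1 := hE.closed (W := Z) (Finset.mem_univ x) hx (by
        intro a ha b _ hb he
        by_cases hbw : b = w
        · subst hbw
          rw [Sym2.eq_swap] at he
          exact hcon a ha he
        · exact hst.cl a ha b hb hbw he)
      exact hst.notMem (h1 (Finset.mem_univ w))
    obtain ⟨z, hz, hwz⟩ := hnb
    by_cases huniq : ∀ y ∈ Z, s(w, y) ∈ E → y = z
    · -- bridge
      have h1 := devAt_bridge m hst.notMem hz hst.conn huniq hwz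
      have hneg := hst.neg
      rw [h1] at hneg
      have h2 : ∑ q ∈ treesAt E Z z, ((q.1.card : ℝ) + 1 - m) = devAt E m Z z +
          (treesAt E Z z).card := by
        unfold devAt
        rw [Finset.card_eq_sum_ones]
        push_cast
        rw [← Finset.sum_add_distrib]
        refine Finset.sum_congr rfl fun q _ => ?_
        ring
      rw [h2] at hneg
      have h3 : (Z.card : ℝ) ≤ (treesAt E Z z).card := by
        exact_mod_cast card_le_treesAt hst.conn hz
      have h4 := card_of_dev_pos hst.pos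
      have h5 : devAt E m Z z < 0 := by linarith
      have h6 := dev_split (E := E) m (Z := Z) (z := z)
      have h7 : 0 < dev E m (Z.erase z) := by
        have := hst.pos
        linarith
      obtain ⟨Z', hZ'Z, hZ', hcl', hdev'⟩ := exists_comp (E := E) m _ (Z.erase z) rfl h7
      have hzZ' : z ∉ Z' := fun h => (Finset.mem_erase.1 (hZ'Z h)).1 rfl
      have hclV : ∀ x ∈ Z', ∀ y, y ∉ Z' → y ≠ z → s(x, y) ∉ E := by
        intro x hx y hy hyz he
        have hx' := Finset.mem_erase.1 (hZ'Z hx)
        by_cases hyZ : y ∈ Z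
        · exact hcl' x hx y (Finset.mem_erase.2 ⟨hyz, hyZ⟩) hy he
        · by_cases hyw : y = w
          · subst hyw
            rw [Sym2.eq_swap] at he
            exact hx'.1 (huniq x hx'.2 he)
          · exact hst.cl x hx'.2 y hyZ hyw he
      have hcut : Cut E (insert z Z') (Z \ Z') z := by
        refine ⟨Finset.mem_insert_self _ _, Finset.mem_sdiff.2 ⟨hz, hzZ'⟩, ?_, ?_⟩
        · intro x hx hx'
          rw [Finset.mem_insert] at hx
          exact hx.resolve_right (Finset.mem_sdiff.1 hx').2
        · intro x hx y hy hxc hyc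
          rw [Finset.mem_insert] at hx
          exact hclV x (hx.resolve_left hxc) y (Finset.mem_sdiff.1 hy).2 hyc
      have hun : insert z Z' ∪ (Z \ Z') = Z := by
        ext x
        rw [Finset.mem_union, Finset.mem_insert, Finset.mem_sdiff]
        constructor
        · rintro ((rfl | h) | h)
          · exact hz
          · exact Finset.mem_of_mem_erase (hZ'Z h)
          · exact h.1
        · intro h
          by_cases hx : x ∈ Z'
          · exact Or.inl (Or.inr hx)
          · exact Or.inr ⟨h, hx⟩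
      have h8 : devAt E m (insert z Z') z < 0 := by
        refine devAt_neg_of hcut m ?_
        rw [hun]
        exact h5
      refine ih Z'.card ?_ z Z' rfl ⟨hzZ', hZ', hclV, hdev', h8⟩
      rw [← hn]
      refine Finset.card_lt_card ⟨hZ'Z.trans (Finset.erase_subset _ _), fun h => ?_⟩
      exact hzZ' (h hz)
    · -- block
      push Not at huniq
      obtain ⟨z2, hz2, hwz2, hne⟩ := huniq
      have hwz' : w ≠ z := fun h => hst.notMem (h ▸ hz)
      obtain ⟨K, hKZ, hz2K, hK, hclK⟩ := exists_component (E := E) (U := Z.erase z) (z := z2)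
        (Finset.mem_erase.2 ⟨hne, hz2⟩)
      have hzK : z ∉ K := fun h => (Finset.mem_erase.1 (hKZ h)).1 rfl
      have hwK : w ∉ K := fun h => hst.notMem (Finset.mem_of_mem_erase (hKZ h))
      have hKz : ∃ k ∈ K, s(z, k) ∈ E := by
        by_contra hcon
        push Not at hcon
        have h1 := hst.conn.closed (W := K) hz2 hz2K (by
          intro x hx y hy hyK he
          by_cases hyz : y = z
          · subst hyz
            rw [Sym2.eq_swap] at he
            exact hcon x hx he
          · exact hclK x hx y (Finset.mem_erase.2 ⟨hyz, hy⟩) hyK he)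
        exact hzK (h1 hz)
      obtain ⟨C1, hC1, hC1'⟩ := ear (NS.pair hwz' hwz) (a := w) (b := z) (by simp) (by simp) hwz' hK
        (by
          rw [Finset.disjoint_left]
          intro x hx h
          rw [Finset.mem_insert, Finset.mem_singleton] at h
          rcases h with rfl | rfl
          · exact hwK hx
          · exact hzK hx) ⟨z2, hz2K, hwz2⟩ hKz
      obtain ⟨C, hC0, hB⟩ := exists_block (NS.pair hwz' hwz) hC1 hC1'
      have hwC : w ∈ C := hC0 (by simp)
      have hzC : z ∈ C := hC0 (by simp)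
      have hCZ : C.erase w ⊆ Z := by
        refine (hB.ns.erase w hwC).closed (Finset.mem_erase.2 ⟨hwz'.symm, hzC⟩) hz ?_
        intro x hx y hy hyZ
        exact hst.cl x hx y hyZ (Finset.mem_erase.1 hy).1
      obtain ⟨π, hg, hgate⟩ := hB.exists_gate hE
      have htC := hblk C hB
      have hedgeC : ∀ u ∈ C, ∀ v ∈ C, u ≠ v → s(u, v) ∈ E →
          ∑ p ∈ (trees E univ).filter (fun p => s(u, v) ∈ p.2), ((p.1.card : ℝ) - m) ≤ 0 :=
        fun u hu v hv huv he => hedge u v huv he (hB.ns.nonbridge hE hB.three hu hv huv)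
      -- forward sides
      have hfwd : ∀ c ∈ C, c ≠ w → dev E m ((hang π c).erase c) ≤ 0 := by
        intro c hc hcw
        by_contra hcon
        rw [not_le] at hcon
        obtain ⟨Z', hZ', hst'⟩ := exists_state hB hg m hedgeC hc hcon
        have hwZ' : w ∉ Z' := by
          intro h
          have h1 := mem_hang.1 (Finset.mem_of_mem_erase (hZ' h))
          rw [hg.fix w hwC] at h1
          exact hcw h1.symm
        have hex : ∃ x ∈ Z', s(x, c) ∈ E := by
          by_contra hcon'
          push Not at hcon'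
          obtain ⟨x, hx⟩ := hst'.conn.nonempty
          have h1 := hE.closed (W := Z') (Finset.mem_univ x) hx (by
            intro a ha b _ hb he
            by_cases hbc : b = c
            · subst hbc
              exact hcon' a ha he
            · exact hst'.cl a ha b hb hbc he)
          exact hst'.notMem (h1 (Finset.mem_univ c))
        obtain ⟨x, hx, hxc⟩ := hex
        have h1 : Conn E (insert c Z') := hst'.conn.insert hx hxc
        have h2 : insert c Z' ⊆ Z := by
          refine h1.closed (Finset.mem_insert_self _ _) (hCZ (Finset.mem_erase.2 ⟨hcw, hc⟩)) ?_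
          intro a ha b hb hbZ
          refine hst.cl a ha b hbZ ?_
          rintro rfl
          rw [Finset.mem_insert] at hb
          exact hb.elim (fun h => hcw h.symm) hwZ'
        refine ih Z'.card ?_ c Z' rfl hst'
        have h3 := Finset.card_le_card h2
        rw [Finset.card_insert_of_notMem hst'.notMem] at h3
        omega
      have hsplit := hg.sum_split (E := E) (fun p => (p.1.card : ℝ) - m)
      have h0 : ∑ p ∈ trees E univ, ((p.1.card : ℝ) - m) = 0 := hm0
      rw [h0] at hsplit
      have hsum : ∑ c ∈ C, dev E m ((hang π c).erase c) =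
          dev E m ((hang π w).erase w) + ∑ c ∈ C.erase w, dev E m ((hang π c).erase c) := by
        rw [Finset.add_sum_erase C (fun c => dev E m ((hang π c).erase c)) hwC]
      have hle : ∑ c ∈ C.erase w, dev E m ((hang π c).erase c) ≤ 0 :=
        Finset.sum_nonpos fun c hc => hfwd c (Finset.mem_of_mem_erase hc) (Finset.mem_erase.1 hc).1
      have hsplit' : (0 : ℝ) = ∑ p ∈ touch E C, ((p.1.card : ℝ) - m) +
          ∑ c ∈ C, dev E m ((hang π c).erase c) := hsplit
      have hwpos : 0 < dev E m ((hang π w).erase w) := by linarith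
      have hc1 := card_of_dev_pos hwpos
      have hc2 := card_of_dev_pos hst.pos
      -- gates of the vertices of `Z`
      have hZπ : ∀ y ∈ Z, π y ≠ w := by
        intro y hy h
        obtain ⟨FZ, hFZ⟩ := hst.conn
        have h1 := hg.tree_gate hzC (hFZ.gen hz) y hy
        rw [h] at h1
        exact hst.notMem h1
      have hcard : (Z.card : ℝ) + ((hang π w).erase w).card + 1 ≤ Fintype.card V := by
        have h1 : Disjoint Z (hang π w) := by
          rw [Finset.disjoint_left]
          intro y hy h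
          exact hZπ y hy (mem_hang.1 h)
        have h2 : (Z ∪ hang π w).card ≤ Fintype.card V := Finset.card_le_univ _
        rw [Finset.card_union_of_disjoint h1] at h2
        have h3 : ((hang π w).erase w).card + 1 = (hang π w).card :=
          Finset.card_erase_add_one (mem_hang.2 (hg.fix w hwC))
        have h4 : Z.card + ((hang π w).erase w).card + 1 ≤ Fintype.card V := by omega
        exact_mod_cast h4
      -- the trees through `w`
      have hsw : 0 < devAt E m univ w := by
        have h1 := half hE w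
        have h2 : ∑ p ∈ treesAt E univ w, (2 * (p.1.card : ℝ) - 1 - Fintype.card V) =
            2 * devAt E m univ w - ((Fintype.card V : ℝ) + 1 - 2 * m) * (treesAt E univ w).card := by
          unfold devAt
          rw [Finset.mul_sum, Finset.card_eq_sum_ones]
          push_cast
          rw [Finset.mul_sum, ← Finset.sum_sub_distrib]
          refine Finset.sum_congr rfl fun p _ => ?_
          ring
        rw [h2] at h1
        have h3 : (0 : ℝ) < (treesAt E univ w).card := card_treesAt_pos (Finset.mem_univ w)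
        have h4 : 0 < (Fintype.card V : ℝ) + 1 - 2 * m := by linarith
        have h5 := mul_pos h4 h3
        linarith
      -- the trees touching `C` but not containing `w`
      have ht1 : ∑ p ∈ touch E C, ((p.1.card : ℝ) - m) = devAt E m univ w +
          ∑ p ∈ (trees E Z).filter (fun p => (p.1 ∩ C).Nonempty), ((p.1.card : ℝ) - m) := by
        rw [← Finset.sum_filter_add_sum_filter_not (touch E C) (fun p => w ∈ p.1), touch_at hwC]
        congr 1
        refine Finset.sum_congr ?_ fun _ _ => rfl
        ext p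
        rw [Finset.mem_filter, Finset.mem_filter, mem_touch, mem_trees]
        constructor
        · rintro ⟨⟨h1, h2⟩, h3⟩
          refine ⟨⟨?_, h1⟩, h2⟩
          obtain ⟨c, hc⟩ := h2
          rw [Finset.mem_inter] at hc
          have hcZ : c ∈ Z := hCZ (Finset.mem_erase.2 ⟨fun h => h3 (h ▸ hc.1), hc.2⟩)
          have h4 : Conn E p.1 := ⟨p.2, h1⟩
          refine h4.closed hc.1 hcZ ?_
          intro x hx y hy hyZ
          refine hst.cl x hx y hyZ ?_
          rintro rfl
          exact h3 hy
        · rintro ⟨⟨h1, h2⟩, h3⟩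
          exact ⟨⟨h2, h3⟩, fun h => hst.notMem (h1 h)⟩
      have ht2 : dev E m Z = ∑ p ∈ (trees E Z).filter (fun p => (p.1 ∩ C).Nonempty),
          ((p.1.card : ℝ) - m) + ∑ c ∈ C.erase w, dev E m ((hang π c).erase c) := by
        unfold dev
        rw [← Finset.sum_filter_add_sum_filter_not (trees E Z) (fun p => (p.1 ∩ C).Nonempty)]
        congr 1
        have h1 : (trees E Z).filter (fun p => ¬(p.1 ∩ C).Nonempty) = trees E (Z \ C) := by
          ext p
          rw [Finset.mem_filter, mem_trees, mem_trees, Finset.not_nonempty_iff_eq_empty,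
            ← Finset.disjoint_iff_inter_eq_empty]
          constructor
          · rintro ⟨⟨h1, h2⟩, h3⟩
            exact ⟨fun x hx => Finset.mem_sdiff.2 ⟨h1 hx, Finset.disjoint_left.1 h3 hx⟩, h2⟩
          · rintro ⟨h1, h2⟩
            exact ⟨⟨h1.trans Finset.sdiff_subset, h2⟩, Finset.disjoint_left.2 fun x hx hxC =>
              (Finset.mem_sdiff.1 (h1 hx)).2 hxC⟩
        rw [h1, sum_partition (E := E) π (Z \ C) (C.erase w) (fun x hx =>
          Finset.mem_erase.2 ⟨hZπ x (Finset.mem_sdiff.1 hx).1, hg.mem x⟩) (fun x hx y _ he =>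
          hg.edge x y he fun h => (Finset.mem_sdiff.1 hx).2 h.1)]
        refine Finset.sum_congr rfl fun c hc => ?_
        rw [Finset.mem_erase] at hc
        congr 2
        ext x
        rw [Finset.mem_filter, Finset.mem_sdiff, Finset.mem_erase, mem_hang]
        constructor
        · rintro ⟨⟨_, h2⟩, h3⟩
          exact ⟨fun h => h2 (h ▸ hc.2), h3⟩
        · rintro ⟨h2, h3⟩
          have hxC : x ∉ C := fun h => h2 (by rw [← hg.fix x h]; exact h3)
          refine ⟨⟨?_, hxC⟩, h3⟩
          obtain ⟨_, K', hK', hxK', hd', k, hk, hke⟩ := hgate x hxC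
          rw [h3] at hke
          have h4 : Conn E (insert c K') := hK'.insert hk (by rw [Sym2.eq_swap]; exact hke)
          have h5 : insert c K' ⊆ Z := by
            refine h4.closed (Finset.mem_insert_self _ _) (hCZ (Finset.mem_erase.2 hc)) ?_
            intro a ha b hb hbZ
            refine hst.cl a ha b hbZ ?_
            rintro rfl
            rw [Finset.mem_insert] at hb
            rcases hb with h | h
            · exact hc.1 h.symm
            · exact Finset.disjoint_left.1 hd' h hwC
          exact h5 (Finset.mem_insert_of_mem hxK')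
      have := hst.pos
      linarith

/-- a non-bridge lies in a block -/
theorem exists_block_of_edge {u v : V} (huv : u ≠ v) (he : s(u, v) ∈ E)
    (hE' : Conn (E.erase s(u, v)) univ) : ∃ C, Block E C := by
  by_cases hex : ∃ K, Conn E K ∧ Disjoint K {u, v} ∧ (∃ k ∈ K, s(u, k) ∈ E) ∧ ∃ k ∈ K, s(v, k) ∈ E
  · obtain ⟨K, hK, hd, hu, hv⟩ := hex
    obtain ⟨C1, hC1, hC1'⟩ := ear (NS.pair huv he) (a := u) (b := v) (by simp) (by simp) huv hK hd
      hu hv
    obtain ⟨C, _, hB⟩ := exists_block (NS.pair huv he) hC1 hC1'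
    exact ⟨C, hB⟩
  · exfalso
    set W : Finset V := univ.filter fun x => x = u ∨ ∃ K, Conn E K ∧ x ∈ K ∧ Disjoint K {u, v} ∧
      ∃ k ∈ K, s(u, k) ∈ E with hW
    have hmem : ∀ x, x ∈ W ↔ x = u ∨ ∃ K, Conn E K ∧ x ∈ K ∧ Disjoint K {u, v} ∧
        ∃ k ∈ K, s(u, k) ∈ E := by
      intro x
      rw [hW, Finset.mem_filter]
      exact ⟨fun h => h.2, fun h => ⟨Finset.mem_univ _, h⟩⟩
    have h1 := hE'.closed (W := W) (Finset.mem_univ u) ((hmem u).2 (Or.inl rfl)) (by
      intro x hx y _ hy he'
      rw [Finset.mem_erase] at he'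
      rw [hmem] at hx
      by_cases hyu : y = u
      · exact hy ((hmem y).2 (Or.inl hyu))
      rcases hx with rfl | ⟨K, hK, hxK, hd, k, hk, huk⟩
      · by_cases hyv : y = v
        · subst hyv
          exact he'.1 rfl
        · refine hy ((hmem y).2 (Or.inr ⟨{y}, Conn.single y, Finset.mem_singleton_self y, ?_, y,
            Finset.mem_singleton_self y, he'.2⟩))
          rw [Finset.disjoint_singleton_left, Finset.mem_insert, Finset.mem_singleton, not_or]
          exact ⟨hyu, hyv⟩
      · by_cases hyv : y = v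
        · subst hyv
          refine hex ⟨K, hK, hd, ⟨k, hk, huk⟩, ⟨x, hxK, ?_⟩⟩
          rw [Sym2.eq_swap]
          exact he'.2
        · refine hy ((hmem y).2 (Or.inr ⟨insert y K, hK.insert hxK he'.2, Finset.mem_insert_self _ _,
            ?_, k, Finset.mem_insert_of_mem hk, huk⟩))
          rw [Finset.disjoint_insert_left, Finset.mem_insert, Finset.mem_singleton, not_or]
          exact ⟨⟨hyu, hyv⟩, hd⟩)
    have h2 := (hmem v).1 (h1 (Finset.mem_univ v))
    rcases h2 with h2 | ⟨K, _, hvK, hd, _⟩
    · exact huv h2.symm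
    · exact Finset.disjoint_left.1 hd hvK (by simp)

/-- the main theorem on edge sets -/
theorem main_edge (hE : Conn E univ) (m : ℝ) (hm0 : dev E m univ = 0)
    (hcyc : ∃ u v, u ≠ v ∧ s(u, v) ∈ E ∧ Conn (E.erase s(u, v)) univ)
    (hleaf : ∀ C, Block E C → ∀ π, Gate E C π → ∀ S F, IsT E S F → S ⊆ C →
      ∑ c ∈ C.filter (fun c => hang π c ≠ {c} ∧ leafAt C (S, F) c), 1 / (degC E C c : ℝ) ≤ 4)
    (hloop : ∀ x, s(x, x) ∉ E) :
    ∃ u v, u ≠ v ∧ s(u, v) ∈ E ∧ Conn (E.erase s(u, v)) univ ∧
      0 < ∑ p ∈ (trees E univ).filter (fun p => s(u, v) ∈ p.2), ((p.1.card : ℝ) - m) := by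
  by_contra hcon
  push Not at hcon
  have hblk : ∀ C, Block E C → ∑ p ∈ touch E C, ((p.1.card : ℝ) - m) < 0 := by
    intro C hB
    obtain ⟨π, hg, _⟩ := hB.exists_gate hE
    refine touch_neg hg hB.ns.erase (fun c hc => hB.ns.degC_pos hc) hB.ns.conn.nonempty
      (hleaf C hB π hg) m ?_
    intro e he hin
    induction e with
    | _ a b =>
      have hab : a ≠ b := by
        rintro rfl
        exact hloop a he
      exact hcon a b hab he (hB.ns.nonbridge hE hB.three (hin a (Sym2.mem_mk_left _ _))
        (hin b (Sym2.mem_mk_right _ _)) hab)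
  obtain ⟨u, v, huv, he, hE'⟩ := hcyc
  obtain ⟨C, hB⟩ := exists_block_of_edge huv he hE'
  obtain ⟨π, hg, _⟩ := hB.exists_gate hE
  have hedgeC : ∀ u ∈ C, ∀ v ∈ C, u ≠ v → s(u, v) ∈ E →
      ∑ p ∈ (trees E univ).filter (fun p => s(u, v) ∈ p.2), ((p.1.card : ℝ) - m) ≤ 0 :=
    fun u hu v hv huv he => hcon u v huv he (hB.ns.nonbridge hE hB.three hu hv huv)
  have hsplit := hg.sum_split (E := E) (fun p => (p.1.card : ℝ) - m)
  have h0 : ∑ p ∈ trees E univ, ((p.1.card : ℝ) - m) = 0 := hm0
  rw [h0] at hsplit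
  have htC := hblk C hB
  have h1 : 0 < ∑ c ∈ C, dev E m ((hang π c).erase c) := by
    have : (0 : ℝ) = ∑ p ∈ touch E C, ((p.1.card : ℝ) - m) +
        ∑ c ∈ C, dev E m ((hang π c).erase c) := hsplit
    linarith
  obtain ⟨c, hc, hpos⟩ := Finset.exists_lt_of_sum_lt (s := C) (f := fun _ => (0 : ℝ))
    (g := fun c => dev E m ((hang π c).erase c)) (by simpa using h1)
  obtain ⟨Z, _, hst⟩ := exists_state hB hg m hedgeC hc hpos
  exact no_state hE m hm0 (fun u v huv he h => hcon u v huv he h) hblk Z.card c Z rfl hst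

end Pool.Agent.H46.MST
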