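import Pool.Agent.H46.MstGate

/-!
Extension of a tree by a path ending in a given vertex.
-/

namespace Pool.Agent.H46.MST

open Finset
open scoped Classical

variable {V : Type*} [Fintype V] [DecidableEq V]
variable {E : Finset (Sym2 V)} {A B : Finset V} {S : Finset V} {F : Finset (Sym2 V)}
variable {C : Finset V} {π : V → V}

/-- `PExt E C p i v q`: the tree `q` is the tree `p` with a path of `i + 1` edges of `E` ending in `v`;
all the new vertices are in `C`. -/
inductive PExt (E : Finset (Sym2 V)) (C : Finset V) (p : Finset V × Finset (Sym2 V)) :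
    ℕ → V → Finset V × Finset (Sym2 V) → Prop
  | one {u v : V} : u ∈ p.1 → u ∈ C → v ∉ p.1 → v ∈ C → s(u, v) ∈ E →
      PExt E C p 0 v (insert v p.1, insert s(u, v) p.2)
  | succ {i : ℕ} {u v : V} {q : Finset V × Finset (Sym2 V)} : PExt E C p i u q → v ∉ q.1 → v ∈ C →
      s(u, v) ∈ E → PExt E C p (i + 1) v (insert v q.1, insert s(u, v) q.2)

variable {p q : Finset V × Finset (Sym2 V)}

theorem PExt.memC {i : ℕ} {v : V} (h : PExt E C p i v q) : v ∈ C := by
  cases h with
  | one _ _ _ h _ => exact h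
  | succ _ _ h _ => exact h

theorem PExt.memq {i : ℕ} {v : V} (h : PExt E C p i v q) : v ∈ q.1 := by
  cases h with
  | one _ _ _ h _ => exact Finset.mem_insert_self _ _
  | succ _ _ h _ => exact Finset.mem_insert_self _ _

theorem PExt.sub {i : ℕ} {v : V} (h : PExt E C p i v q) : p.1 ⊆ q.1 := by
  induction h with
  | one => exact Finset.subset_insert _ _
  | succ _ _ _ _ ih => exact ih.trans (Finset.subset_insert _ _)

theorem PExt.gen {i : ℕ} {v : V} (h : PExt E C p i v q) (hp : IsT E p.1 p.2) :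
    IsT E q.1 q.2 := by
  induction h with
  | one hu _ hv _ he => exact hp.step hu hv he
  | succ h hv _ he ih => exact ih.step h.memq hv he

theorem PExt.cardC {i : ℕ} {v : V} (h : PExt E C p i v q) :
    (q.1 ∩ C).card = (p.1 ∩ C).card + (i + 1) := by
  induction h with
  | one hu _ hv hvC he =>
    rw [Finset.insert_inter_of_mem hvC, Finset.card_insert_of_notMem]
    rw [Finset.mem_inter]
    exact fun h => hv h.1
  | succ h hv hvC he ih =>
    rw [Finset.insert_inter_of_mem hvC, Finset.card_insert_of_notMem, ih]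
    · ring
    · rw [Finset.mem_inter]
      exact fun h => hv h.1

/-- peeling off a leaf -/
theorem peel {S1 S2 : Finset V} {F1 F2 : Finset (Sym2 V)} {u1 u2 v : V} (h1 : v ∉ S1) (h2 : v ∉ S2)
    (w1 : ∀ e ∈ F1, ∀ x ∈ e, x ∈ S1) (w2 : ∀ e ∈ F2, ∀ x ∈ e, x ∈ S2)
    (hS : insert v S1 = insert v S2) (hF : insert s(u1, v) F1 = insert s(u2, v) F2) :
    S1 = S2 ∧ F1 = F2 ∧ u1 = u2 := by
  have a1 : ∀ e ∈ F1, v ∉ e := fun e he hv => h1 (w1 e he v hv)
  have a2 : ∀ e ∈ F2, v ∉ e := fun e he hv => h2 (w2 e he v hv)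
  have b1 : s(u1, v) ∉ F1 := fun h => a1 _ h (Sym2.mem_mk_right _ _)
  have b2 : s(u2, v) ∉ F2 := fun h => a2 _ h (Sym2.mem_mk_right _ _)
  have hu : s(u1, v) = s(u2, v) := by
    have : s(u1, v) ∈ insert s(u2, v) F2 := hF ▸ Finset.mem_insert_self _ _
    rw [Finset.mem_insert] at this
    rcases this with h | h
    · exact h
    · exact absurd (Sym2.mem_mk_right _ _) (a2 _ h)
  refine ⟨?_, ?_, ?_⟩
  · rw [← Finset.erase_insert h1, hS, Finset.erase_insert h2]
  · rw [← Finset.erase_insert b1, hF, hu, Finset.erase_insert b2]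
  · rw [Sym2.eq_iff] at hu
    rcases hu with ⟨h, _⟩ | ⟨h, h'⟩
    · exact h
    · rw [h, h']

theorem PExt.uniq {p' : Finset V × Finset (Sym2 V)} {i : ℕ} {v : V} (h : PExt E C p i v q)
    (h' : PExt E C p' i v q) (hp : IsT E p.1 p.2) (hp' : IsT E p'.1 p'.2) : p = p' := by
  induction i generalizing v q with
  | zero =>
    generalize hq : q = q' at h'
    cases h with
    | @one u _ hu _ hv _ he =>
      cases h' with
      | @one u' _ hu' _ hv' _ he' =>
        rw [Prod.mk.injEq] at hq
        obtain ⟨h1, h2, _⟩ := peel hv hv' hp.ends hp'.ends hq.1 hq.2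
        exact Prod.ext h1 h2
  | succ i ih =>
    generalize hq : q = q' at h'
    cases h with
    | @succ _ u _ q1 h1 hv _ he =>
      cases h' with
      | @succ _ u' _ q1' h1' hv' _ he' =>
        rw [Prod.mk.injEq] at hq
        obtain ⟨e1, e2, e3⟩ := peel hv hv' (h1.gen hp).ends (h1'.gen hp').ends hq.1 hq.2
        have e4 : q1 = q1' := Prod.ext e1 e2
        subst e4
        subst e3
        exact ih h1 h1'

/-- `c` is a leaf of the part of `p` inside `C` -/
def leafAt (C : Finset V) (p : Finset V × Finset (Sym2 V)) (c : V) : Prop :=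
  ((res C p).2.filter fun e => c ∈ e).card = 1

theorem PExt.leaf_eq {i : ℕ} {v : V} (h : PExt E C p i v q) (hp : IsT E p.1 p.2) :
    ∃ u, (res C q).2.filter (fun e => v ∈ e) = {s(u, v)} := by
  have key : ∀ (S : Finset V) (F : Finset (Sym2 V)) (u : V), IsT E S F → u ∈ C → v ∈ C → v ∉ S →
      (res C (insert v S, insert s(u, v) F)).2.filter (fun e => v ∈ e) = {s(u, v)} := by
    intro S F u hSF hu hv hvS
    unfold res
    ext e
    rw [Finset.mem_filter, Finset.mem_filter, Finset.mem_insert, Finset.mem_singleton]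
    constructor
    · rintro ⟨⟨h1 | h1, _⟩, h2⟩
      · exact h1
      · exact absurd (hSF.ends e h1 v h2) hvS
    · rintro rfl
      refine ⟨⟨Or.inl rfl, fun x hx => ?_⟩, Sym2.mem_mk_right _ _⟩
      rw [Sym2.mem_iff] at hx
      rcases hx with rfl | rfl
      · exact hu
      · exact hv
  cases h with
  | @one u _ hu huC hv hvC he => exact ⟨u, key _ _ u hp huC hvC hv⟩
  | @succ i u _ q1 h1 hv hvC he => exact ⟨u, key _ _ u (h1.gen hp) h1.memC hvC hv⟩

theorem PExt.leaf {i : ℕ} {v : V} (h : PExt E C p i v q) (hp : IsT E p.1 p.2) :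
    leafAt C q v := by
  obtain ⟨u, hu⟩ := h.leaf_eq hp
  unfold leafAt
  rw [hu, Finset.card_singleton]

/-- existence of path extensions -/
theorem exists_pext_aux {t : V} {K : Finset V} {FK : Finset (Sym2 V)} (hK : Gen E {t} K FK)
    (ht : t ∈ p.1) (hKC : K ⊆ C) :
    ∀ u ∈ K, u ∈ p.1 ∨ ∃ i q, PExt E C p i u q ∧ q.1 ⊆ p.1 ∪ K := by
  induction hK with
  | base =>
    intro u hu
    rw [Finset.mem_singleton] at hu
    exact Or.inl (hu ▸ ht)
  | @step S F a b h0 ha hb he ih =>
    intro u hu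
    have hSC : S ⊆ C := (Finset.subset_insert _ _).trans hKC
    have hbC : b ∈ C := hKC (Finset.mem_insert_self _ _)
    rw [Finset.mem_insert] at hu
    rcases hu with rfl | hu
    · by_cases hup : u ∈ p.1
      · exact Or.inl hup
      · right
        rcases ih hSC a ha with hap | ⟨i, q, hq, hqs⟩
        · refine ⟨0, _, PExt.one hap (hSC ha) hup hbC he, ?_⟩
          simp only
          refine Finset.insert_subset ?_ Finset.subset_union_left
          exact Finset.mem_union_right _ (Finset.mem_insert_self _ _)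
        · refine ⟨i + 1, _, PExt.succ hq ?_ hbC he, ?_⟩
          · intro h
            have := hqs h
            rw [Finset.mem_union] at this
            exact this.elim hup hb
          · simp only
            refine Finset.insert_subset ?_ ?_
            · exact Finset.mem_union_right _ (Finset.mem_insert_self _ _)
            · exact hqs.trans (Finset.union_subset_union subset_rfl (Finset.subset_insert _ _))
    · rcases ih hSC u hu with h | ⟨i, q, hq, hqs⟩
      · exact Or.inl h
      · exact Or.inr ⟨i, q, hq, hqs.trans (Finset.union_subset_union subset_rfl (Finset.subset_insert _ _))⟩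

theorem exists_pext {c : V} (hc : c ∈ C) (hK : Conn E (C.erase c)) (hcp : c ∉ p.1)
    (htouch : (p.1 ∩ C).Nonempty) {u : V} (huC : u ∈ C) (huc : u ≠ c) (he : s(u, c) ∈ E) :
    ∃ i q, PExt E C p i c q ∧ s(u, c) ∈ q.2 ∧ q.1 ⊆ p.1 ∪ C := by
  obtain ⟨t, ht⟩ := htouch
  rw [Finset.mem_inter] at ht
  obtain ⟨FK, hFK⟩ := hK
  have htK : t ∈ C.erase c := Finset.mem_erase.2 ⟨fun h => hcp (h ▸ ht.1), ht.2⟩
  have h1 := exists_pext_aux (p := p) (hFK.gen htK) ht.1 (Finset.erase_subset _ _) u
    (Finset.mem_erase.2 ⟨huc, huC⟩)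
  rcases h1 with h1 | ⟨i, q, hq, hqs⟩
  · refine ⟨0, _, PExt.one h1 huC hcp hc he, Finset.mem_insert_self _ _, ?_⟩
    simp only
    exact Finset.insert_subset (Finset.mem_union_right _ hc) Finset.subset_union_left
  · refine ⟨i + 1, _, PExt.succ hq ?_ hc he, Finset.mem_insert_self _ _, ?_⟩
    · intro h
      have := hqs h
      rw [Finset.mem_union, Finset.mem_erase] at this
      rcases this with h | h
      · exact hcp h
      · exact h.1 rfl
    · simp only
      refine Finset.insert_subset (Finset.mem_union_right _ hc) ?_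
      exact hqs.trans (Finset.union_subset_union subset_rfl (Finset.erase_subset _ _))

theorem sum_tri (n : ℕ) : ∀ x : ℝ, ∑ i ∈ range n, max (x - (i + 1)) 0 ≤ (max x 0) ^ 2 / 2 := by
  induction n with
  | zero =>
    intro x
    rw [Finset.range_zero, Finset.sum_empty]
    positivity
  | succ n ih =>
    intro x
    rw [Finset.sum_range_succ']
    have h1 := ih (x - 1)
    have h2 : ∑ i ∈ range n, max (x - ((i + 1 : ℕ) + 1)) 0 = ∑ i ∈ range n, max (x - 1 - (i + 1)) 0 := by
      refine Finset.sum_congr rfl fun i _ => ?_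
      congr 1
      push_cast
      ring
    rw [h2]
    have h3 : max (x - 1) 0 ^ 2 / 2 + max (x - 1) 0 ≤ (max x 0) ^ 2 / 2 := by
      rcases le_total (x - 1) 0 with h | h
      · rw [max_eq_right h]
        have := sq_nonneg (max x 0)
        linarith
      · rw [max_eq_left h, max_eq_left (by linarith : (0 : ℝ) ≤ x)]
        nlinarith
    have h4 : max (x - ((0 : ℕ) + 1)) 0 = max (x - 1) 0 := by norm_num
    rw [h4]
    linarith

/-- the excess of the number of vertices in `C` -/
noncomputable def exc (C : Finset V) (κ : ℝ) (p : Finset V × Finset (Sym2 V)) : ℝ :=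
  ((p.1 ∩ C).card : ℝ) - κ

/-- the degree inside `C` -/
noncomputable def degC (E : Finset (Sym2 V)) (C : Finset V) (c : V) : ℕ :=
  (C.filter fun u => u ≠ c ∧ s(u, c) ∈ E).card

theorem ext_ineq (hg : Gate E C π) {c : V} (hc : c ∈ C) (hK : Conn E (C.erase c)) (κ : ℝ) :
    (degC E C c : ℝ) * ∑ p ∈ (touch E C).filter (fun p => c ∉ p.1), max (exc C κ p) 0 ≤
      ∑ q ∈ (treesAt E (out π c) c).filter (fun q => leafAt C q c), (max (exc C κ q) 0) ^ 2 / 2 := by
  set X := (touch E C).filter (fun p => c ∉ p.1) with hX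
  set N := C.filter (fun u => u ≠ c ∧ s(u, c) ∈ E) with hN
  set Q := (treesAt E (out π c) c).filter (fun q => leafAt C q c) with hQ
  have hex : ∀ r : (Finset V × Finset (Sym2 V)) × V, ∃ s : ℕ × (Finset V × Finset (Sym2 V)),
      r ∈ X ×ˢ N → PExt E C r.1 s.1 c s.2 ∧ s(r.2, c) ∈ s.2.2 ∧ s.2.1 ⊆ r.1.1 ∪ C := by
    intro r
    by_cases hr : r ∈ X ×ˢ N
    · have hr' := hr
      rw [Finset.mem_product, hX, hN, Finset.mem_filter, Finset.mem_filter, mem_touch] at hr'
      obtain ⟨i, q, h1, h2, h3⟩ := exists_pext (p := r.1) hc hK hr'.1.2 hr'.1.1.2 hr'.2.1 hr'.2.2.1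
        hr'.2.2.2
      exact ⟨(i, q), fun _ => ⟨h1, h2, h3⟩⟩
    · exact ⟨(0, (∅, ∅)), fun h => absurd h hr⟩
  choose Φ hΦ using hex
  have h1 : (degC E C c : ℝ) * ∑ p ∈ X, max (exc C κ p) 0 = ∑ r ∈ X ×ˢ N, max (exc C κ r.1) 0 := by
    rw [Finset.sum_product, Finset.mul_sum]
    refine Finset.sum_congr rfl fun p _ => ?_
    have h0 : ∑ y ∈ N, max (exc C κ (p, y).1) 0 = ∑ _y ∈ N, max (exc C κ p) 0 := rfl
    rw [h0, Finset.sum_const, nsmul_eq_mul]
    rfl
  have h2 : ∀ r ∈ X ×ˢ N, max (exc C κ r.1) 0 = max (exc C κ (Φ r).2 - ((Φ r).1 + 1)) 0 := by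
    intro r hr
    have h3 := (hΦ r hr).1.cardC
    unfold exc
    rw [h3]
    congr 1
    push_cast
    ring
  have h3 : Set.InjOn Φ (X ×ˢ N : Finset _) := by
    intro r hr r' hr' h
    rw [Finset.mem_coe] at hr hr'
    have a := hΦ r hr
    have a' := hΦ r' hr'
    rw [← h] at a'
    have b := hr
    have b' := hr'
    rw [Finset.mem_product, hX, hN, Finset.mem_filter, Finset.mem_filter, mem_touch] at b b'
    have e1 : r.1 = r'.1 := a.1.uniq a'.1 b.1.1.1 b'.1.1.1
    obtain ⟨u, hu⟩ := a.1.leaf_eq b.1.1.1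
    have key : ∀ w : V, w ∈ C → s(w, c) ∈ (Φ r).2.2 → s(w, c) = s(u, c) := by
      intro w hw h
      have : s(w, c) ∈ (res C (Φ r).2).2.filter (fun e => c ∈ e) := by
        unfold res
        rw [Finset.mem_filter, Finset.mem_filter]
        refine ⟨⟨h, fun x hx => ?_⟩, Sym2.mem_mk_right _ _⟩
        rw [Sym2.mem_iff] at hx
        rcases hx with rfl | rfl
        · exact hw
        · exact hc
      rw [hu, Finset.mem_singleton] at this
      exact this
    have e2 : s(r.2, c) = s(r'.2, c) := (key _ b.2.1 a.2.1).trans (key _ b'.2.1 a'.2.1).symm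
    refine Prod.ext e1 ?_
    rw [Sym2.eq_iff] at e2
    rcases e2 with ⟨h, _⟩ | ⟨h, h'⟩
    · exact h
    · rw [h, h']
  have h4 : ∑ r ∈ X ×ˢ N, max (exc C κ (Φ r).2 - ((Φ r).1 + 1)) 0 =
      ∑ s ∈ (X ×ˢ N).image Φ, max (exc C κ s.2 - (s.1 + 1)) 0 := by
    rw [Finset.sum_image h3]
  have h5 : (X ×ˢ N).image Φ ⊆ (range C.card) ×ˢ Q := by
    intro s hs
    rw [Finset.mem_image] at hs
    obtain ⟨r, hr, rfl⟩ := hs
    have a := hΦ r hr
    have b := hr
    rw [Finset.mem_product, hX, hN, Finset.mem_filter, Finset.mem_filter, mem_touch] at b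
    rw [Finset.mem_product, Finset.mem_range, hQ, Finset.mem_filter, mem_treesAt]
    refine ⟨?_, ⟨?_, ?_⟩, a.1.leaf b.1.1.1⟩
    · have h6 := a.1.cardC
      have h7 : ((Φ r).2.1 ∩ C).card ≤ C.card := Finset.card_le_card Finset.inter_subset_right
      omega
    · refine a.2.2.trans (Finset.union_subset ?_ (hg.sub_out c))
      intro y hy
      rw [mem_out]
      intro hyc
      exfalso
      obtain ⟨t, ht⟩ := b.1.1.2
      rw [Finset.mem_inter] at ht
      have h8 := hg.tree_gate ht.2 (b.1.1.1.gen ht.1) y hy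
      rw [hyc] at h8
      exact b.1.2 h8
    · exact (a.1.gen b.1.1.1).gen a.1.memq
  rw [h1, Finset.sum_congr rfl h2, h4]
  refine (Finset.sum_le_sum_of_subset_of_nonneg h5 fun _ _ _ => le_max_right _ _).trans ?_
  rw [Finset.sum_product_right]
  exact Finset.sum_le_sum fun q _ => sum_tri C.card (exc C κ q)

end Pool.Agent.H46.MST
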