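import Pool.Agent.H46.MstHalf

/-!
Partition of the trees, components with positive sum, gates.
-/

namespace Pool.Agent.H46.MST

open Finset
open scoped Classical

variable {V : Type*} [Fintype V] [DecidableEq V]
variable {E : Finset (Sym2 V)} {A B : Finset V} {S : Finset V} {F : Finset (Sym2 V)}

/-- a labelling which is constant along the edges is constant on a tree -/
theorem IsT.const {ι : Type*} (ρ : V → ι) (h : IsT E S F)
    (hρ : ∀ x ∈ S, ∀ y ∈ S, s(x, y) ∈ E → ρ x = ρ y) {a b : V} (ha : a ∈ S) (hb : b ∈ S) :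
    ρ a = ρ b := by
  have h1 := (h.gen ha).closed (W := S.filter fun x => ρ x = ρ a) ?_ ?_
  · exact ((Finset.mem_filter.1 (h1 hb)).2).symm
  · rw [Finset.singleton_subset_iff, Finset.mem_filter]
    exact ⟨ha, rfl⟩
  · intro x hx y hy hy' he
    rw [Finset.mem_filter] at hx hy'
    exact hy' ⟨hy, (hρ x hx.1 y hy he) ▸ hx.2⟩

/-- the trees inside `W` are distributed over the classes of a labelling -/
theorem sum_partition {ι : Type*} [DecidableEq ι] (ρ : V → ι) (W : Finset V) (I : Finset ι)
    (hI : ∀ x ∈ W, ρ x ∈ I) (hρ : ∀ x ∈ W, ∀ y ∈ W, s(x, y) ∈ E → ρ x = ρ y)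
    (g : Finset V × Finset (Sym2 V) → ℝ) :
    ∑ p ∈ trees E W, g p = ∑ i ∈ I, ∑ p ∈ trees E (W.filter fun x => ρ x = i), g p := by
  rw [← Finset.sum_biUnion]
  · refine Finset.sum_congr ?_ fun _ _ => rfl
    ext p
    rw [Finset.mem_biUnion, mem_trees]
    constructor
    · rintro ⟨h1, h2⟩
      obtain ⟨r, hr⟩ := h2.nonempty
      refine ⟨ρ r, hI r (h1 hr), ?_⟩
      rw [mem_trees]
      refine ⟨fun x hx => ?_, h2⟩
      rw [Finset.mem_filter]
      exact ⟨h1 hx, h2.const ρ (fun a ha b hb => hρ a (h1 ha) b (h1 hb)) hx hr⟩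
    · rintro ⟨i, _, hp⟩
      rw [mem_trees] at hp
      exact ⟨hp.1.trans (Finset.filter_subset _ _), hp.2⟩
  · intro i _ j _ hij
    rw [Function.onFun, Finset.disjoint_left]
    intro p hp hp'
    rw [mem_trees] at hp hp'
    obtain ⟨r, hr⟩ := hp.2.nonempty
    have h1 := (Finset.mem_filter.1 (hp.1 hr)).2
    have h2 := (Finset.mem_filter.1 (hp'.1 hr)).2
    exact hij (h1 ▸ h2)

/-- the sum of the deviations over the trees inside `W` -/
noncomputable def dev (E : Finset (Sym2 V)) (m : ℝ) (W : Finset V) : ℝ :=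
  ∑ p ∈ trees E W, ((p.1.card : ℝ) - m)

/-- if the sum of the deviations over the trees inside `W` is positive then it is positive for a
component of `W` -/
theorem exists_comp (m : ℝ) (n : ℕ) : ∀ W : Finset V, W.card = n → 0 < dev E m W →
    ∃ Z ⊆ W, Conn E Z ∧ (∀ x ∈ Z, ∀ y ∈ W, y ∉ Z → s(x, y) ∉ E) ∧ 0 < dev E m Z := by
  induction n using Nat.strong_induction_on with
  | _ n ih =>
    intro W hW hpos
    have hne : W.Nonempty := by
      rw [Finset.nonempty_iff_ne_empty]
      rintro rfl
      unfold dev at hpos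
      rw [Finset.sum_eq_zero] at hpos
      · exact lt_irrefl _ hpos
      · intro p hp
        rw [mem_trees] at hp
        obtain ⟨r, hr⟩ := hp.2.nonempty
        exact absurd (hp.1 hr) (Finset.notMem_empty _)
    obtain ⟨z, hz⟩ := hne
    obtain ⟨Z, hZW, hzZ, hZ, hcl⟩ := exists_component (E := E) hz
    by_cases h1 : 0 < dev E m Z
    · exact ⟨Z, hZW, hZ, hcl, h1⟩
    · have h2 : dev E m W = dev E m Z + dev E m (W \ Z) := by
        unfold dev
        rw [sum_partition (E := E) (fun x => decide (x ∈ Z)) W univ (fun _ _ => Finset.mem_univ _)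
          (fun x hx y hy he => by
            by_cases hxZ : x ∈ Z <;> by_cases hyZ : y ∈ Z
            · simp [hxZ, hyZ]
            · exact absurd he (hcl x hxZ y hy hyZ)
            · rw [Sym2.eq_swap] at he
              exact absurd he (hcl y hyZ x hx hxZ)
            · simp [hxZ, hyZ]), Fintype.sum_bool]
        congr 1
        · congr 2
          ext x
          rw [Finset.mem_filter, decide_eq_true_eq]
          exact ⟨fun h => h.2, fun h => ⟨hZW h, h⟩⟩
        · congr 2
          ext x
          rw [Finset.mem_filter, decide_eq_false_iff_not, Finset.mem_sdiff]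
      have h3 : 0 < dev E m (W \ Z) := by linarith
      have h4 : (W \ Z).card < n := by
        rw [← hW]
        exact Finset.card_lt_card (Finset.sdiff_ssubset hZW ⟨z, hzZ⟩)
      obtain ⟨Z', hZ'W, hZ', hcl', hpos'⟩ := ih _ h4 (W \ Z) rfl h3
      refine ⟨Z', hZ'W.trans Finset.sdiff_subset, hZ', ?_, hpos'⟩
      intro x hx y hy hyZ'
      by_cases hyZ : y ∈ Z
      · have hx' := Finset.mem_sdiff.1 (hZ'W hx)
        intro he
        rw [Sym2.eq_swap] at he
        exact hcl y hyZ x hx'.1 hx'.2 he
      · exact hcl' x hx y (Finset.mem_sdiff.2 ⟨hy, hyZ⟩) hyZ'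

/-- positive deviation means that the set is large -/
theorem card_of_dev_pos {m : ℝ} {W : Finset V} (h : 0 < dev E m W) : m < W.card := by
  by_contra hcon
  rw [not_lt] at hcon
  have h1 : dev E m W ≤ 0 := by
    unfold dev
    refine Finset.sum_nonpos fun p hp => ?_
    rw [mem_trees] at hp
    have h2 : (p.1.card : ℝ) ≤ W.card := by exact_mod_cast Finset.card_le_card hp.1
    linarith
  linarith

/-- `π` is a retraction of the graph onto `C`: edges which are not inside `C` have one gate -/
structure Gate (E : Finset (Sym2 V)) (C : Finset V) (π : V → V) : Prop where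
  fix : ∀ c ∈ C, π c = c
  mem : ∀ y, π y ∈ C
  edge : ∀ x y, s(x, y) ∈ E → ¬(x ∈ C ∧ y ∈ C) → π x = π y

/-- the vertices hanging at `c` -/
def hang (π : V → V) (c : V) : Finset V := univ.filter fun y => π y = c

theorem mem_hang {π : V → V} {c y : V} : y ∈ hang π c ↔ π y = c := by
  unfold hang
  rw [Finset.mem_filter]
  exact ⟨fun h => h.2, fun h => ⟨Finset.mem_univ _, h⟩⟩

/-- everything else -/
def out (π : V → V) (c : V) : Finset V := univ \ ((hang π c).erase c)

theorem mem_out {π : V → V} {c y : V} : y ∈ out π c ↔ (π y = c → y = c) := by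
  unfold out
  rw [Finset.mem_sdiff, Finset.mem_erase, mem_hang]
  constructor
  · rintro ⟨_, h⟩ h1
    by_contra h2
    exact h ⟨h2, h1⟩
  · intro h
    exact ⟨Finset.mem_univ _, fun h1 => h1.1 (h h1.2)⟩

theorem hang_union_out {π : V → V} {c : V} : hang π c ∪ out π c = univ := by
  ext y
  rw [Finset.mem_union, mem_hang, mem_out]
  refine ⟨fun _ => Finset.mem_univ _, fun _ => ?_⟩
  by_cases h : π y = c
  · exact Or.inl h
  · exact Or.inr fun h' => absurd h' h

variable {C : Finset V} {π : V → V}

theorem Gate.cut (hg : Gate E C π) {c : V} (hc : c ∈ C) : Cut E (hang π c) (out π c) c where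
  vP := mem_hang.2 (hg.fix c hc)
  vQ := mem_out.2 fun _ => rfl
  inter x hx hx' := mem_out.1 hx' (mem_hang.1 hx)
  noEdge x hx y hy hxc hyc he := by
    have h1 := mem_hang.1 hx
    have h2 : π x = π y := hg.edge x y he fun h => hxc (by rw [← hg.fix x h.1]; exact h1)
    exact hyc (mem_out.1 hy (h2 ▸ h1))

theorem Gate.sub_out (hg : Gate E C π) (c : V) : C ⊆ out π c := by
  intro y hy
  rw [mem_out]
  intro h
  rw [← hg.fix y hy]
  exact h

/-- a tree touching `C` contains the gates of its vertices -/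
theorem Gate.tree_gate (hg : Gate E C π) {c : V} (hc : c ∈ C) (h : Gen E {c} S F) :
    ∀ y ∈ S, π y ∈ S := by
  induction h with
  | base =>
    intro y hy
    rw [Finset.mem_singleton] at hy ⊢
    rw [hy]
    exact hg.fix c hc
  | @step S F a b h0 ha hb he ih =>
    intro y hy
    rw [Finset.mem_insert] at hy
    rcases hy with rfl | hy
    · by_cases h1 : a ∈ C ∧ y ∈ C
      · rw [hg.fix y h1.2]
        exact Finset.mem_insert_self _ _
      · rw [← hg.edge a y he h1]
        exact Finset.mem_insert_of_mem (ih a ha)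
    · exact Finset.mem_insert_of_mem (ih y hy)

/-- the part inside `C` of a tree touching `C` is a tree -/
theorem Gate.tree_res (hg : Gate E C π) {c : V} (hc : c ∈ C) (h : Gen E {c} S F) :
    Gen E {c} (res C (S, F)).1 (res C (S, F)).2 := by
  unfold res
  simp only
  induction h with
  | base =>
    rw [Finset.filter_empty, Finset.inter_eq_left.2 (Finset.singleton_subset_iff.2 hc)]
    exact Gen.base
  | @step S F a b h0 ha hb he ih =>
    by_cases hbC : b ∈ C
    · have haC : a ∈ C := by
        by_contra haC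
        have h1 := hg.edge a b he fun h => haC h.1
        rw [hg.fix b hbC] at h1
        exact hb (h1 ▸ hg.tree_gate hc h0 a ha)
      rw [Finset.insert_inter_of_mem hbC, Finset.filter_insert, if_pos]
      · refine Gen.step ih (Finset.mem_inter.2 ⟨ha, haC⟩) ?_ he
        rw [Finset.mem_inter]
        exact fun h => hb h.1
      · intro x hx
        rw [Sym2.mem_iff] at hx
        rcases hx with rfl | rfl
        · exact haC
        · exact hbC
    · rw [Finset.insert_inter_of_notMem hbC, Finset.filter_insert, if_neg]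
      · exact ih
      · intro h
        exact hbC (h b (Sym2.mem_mk_right _ _))

/-- the trees touching `C` -/
noncomputable def touch (E : Finset (Sym2 V)) (C : Finset V) : Finset (Finset V × Finset (Sym2 V)) :=
  (trees E univ).filter fun p => (p.1 ∩ C).Nonempty

theorem mem_touch {p : Finset V × Finset (Sym2 V)} :
    p ∈ touch E C ↔ IsT E p.1 p.2 ∧ (p.1 ∩ C).Nonempty := by
  unfold touch
  rw [Finset.mem_filter, mem_trees]
  exact ⟨fun h => ⟨h.1.2, h.2⟩, fun h => ⟨⟨Finset.subset_univ _, h.1⟩, h.2⟩⟩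

/-- sum over all trees = touching trees + trees in the hanging parts -/
theorem Gate.sum_split (hg : Gate E C π) (g : Finset V × Finset (Sym2 V) → ℝ) :
    ∑ p ∈ trees E univ, g p = ∑ p ∈ touch E C, g p +
      ∑ c ∈ C, ∑ p ∈ trees E ((hang π c).erase c), g p := by
  unfold touch
  rw [← Finset.sum_filter_add_sum_filter_not (trees E univ) (fun p => (p.1 ∩ C).Nonempty)]
  congr 1
  have h1 : (trees E univ).filter (fun p => ¬(p.1 ∩ C).Nonempty) = trees E (univ \ C) := by
    ext p
    rw [Finset.mem_filter, mem_trees, mem_trees, Finset.not_nonempty_iff_eq_empty,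
      ← Finset.disjoint_iff_inter_eq_empty]
    constructor
    · rintro ⟨⟨_, h2⟩, h3⟩
      exact ⟨fun x hx => Finset.mem_sdiff.2 ⟨Finset.mem_univ _, Finset.disjoint_left.1 h3 hx⟩, h2⟩
    · rintro ⟨h1, h2⟩
      exact ⟨⟨Finset.subset_univ _, h2⟩, Finset.disjoint_left.2 fun x hx hxC =>
        (Finset.mem_sdiff.1 (h1 hx)).2 hxC⟩
  rw [h1, sum_partition (E := E) π (univ \ C) C (fun x _ => hg.mem x) (fun x hx y _ he =>
    hg.edge x y he fun h => (Finset.mem_sdiff.1 hx).2 h.1)]
  refine Finset.sum_congr rfl fun c hc => ?_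
  congr 2
  ext x
  rw [Finset.mem_filter, Finset.mem_sdiff, Finset.mem_erase, mem_hang]
  constructor
  · rintro ⟨⟨_, h2⟩, h3⟩
    exact ⟨fun h => h2 (h ▸ hc), h3⟩
  · rintro ⟨h2, h3⟩
    refine ⟨⟨Finset.mem_univ _, fun h => h2 ?_⟩, h3⟩
    rw [← hg.fix x h]
    exact h3

end Pool.Agent.H46.MST
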