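import Mathlib

/-!
Trees in a graph given by a finset `E` of edges, generated by adding leaves.
-/

namespace Pool.Agent.H46.MST

open Finset
open scoped Classical

variable {V : Type*} [Fintype V] [DecidableEq V]

/-- `Gen E A S F`: the forest with edge set `F` and vertex set `S` is obtained from the root set `A`
by adding vertices one by one, each joined to an earlier vertex by an edge of `E`. -/
inductive Gen (E : Finset (Sym2 V)) (A : Finset V) : Finset V → Finset (Sym2 V) → Prop
  | base : Gen E A A ∅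
  | step {S : Finset V} {F : Finset (Sym2 V)} {u v : V} :
      Gen E A S F → u ∈ S → v ∉ S → s(u, v) ∈ E → Gen E A (insert v S) (insert s(u, v) F)

variable {E : Finset (Sym2 V)} {A B : Finset V} {S : Finset V} {F : Finset (Sym2 V)}

omit [Fintype V] in
theorem Gen.sub (h : Gen E A S F) : A ⊆ S := by
  induction h with
  | base => exact subset_rfl
  | step _ _ _ _ ih => exact ih.trans (Finset.subset_insert _ _)

omit [Fintype V] in
theorem Gen.subE (h : Gen E A S F) : F ⊆ E := by
  induction h with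
  | base => exact Finset.empty_subset _
  | step _ _ _ he ih => exact Finset.insert_subset he ih

omit [Fintype V] in
theorem Gen.ends (h : Gen E A S F) : ∀ e ∈ F, ∀ x ∈ e, x ∈ S := by
  induction h with
  | base => simp
  | step _ hu _ _ ih =>
    intro e he x hx
    rw [Finset.mem_insert] at he
    rcases he with rfl | he
    · rw [Sym2.mem_iff] at hx
      rcases hx with rfl | rfl
      · exact Finset.mem_insert_of_mem hu
      · exact Finset.mem_insert_self _ _
    · exact Finset.mem_insert_of_mem (ih e he x hx)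

omit [Fintype V] in
theorem Gen.notMem (h : Gen E A S F) {x y : V} (hx : x ∉ S) : s(y, x) ∉ F := by
  intro h1
  exact hx (h.ends _ h1 x (Sym2.mem_mk_right _ _))

omit [Fintype V] in
theorem Gen.notMem' (h : Gen E A S F) {x y : V} (hx : x ∉ S) : s(x, y) ∉ F := by
  intro h1
  exact hx (h.ends _ h1 x (Sym2.mem_mk_left _ _))

omit [Fintype V] in
theorem Gen.card (h : Gen E A S F) : S.card = A.card + F.card := by
  induction h with
  | base => simp
  | step h1 _ hv _ ih =>
    rw [Finset.card_insert_of_notMem hv, Finset.card_insert_of_notMem (h1.notMem hv), ih]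
    ring

omit [Fintype V] in
theorem Gen.mono {E' : Finset (Sym2 V)} (h : Gen E A S F) (hF : F ⊆ E') : Gen E' A S F := by
  induction h with
  | base => exact Gen.base
  | step _ hu hv _ ih =>
    exact Gen.step (ih ((Finset.subset_insert _ _).trans hF)) hu hv
      (hF (Finset.mem_insert_self _ _))

omit [Fintype V] in
theorem Gen.closed {W : Finset V} (h : Gen E A S F) (hA : A ⊆ W)
    (hW : ∀ x ∈ W, ∀ y ∈ S, y ∉ W → s(x, y) ∉ E) : S ⊆ W := by
  induction h with
  | base => exact hA
  | @step S F u v _ hu hv he ih =>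
    have h1 : S ⊆ W := ih fun x hx y hy => hW x hx y (Finset.mem_insert_of_mem hy)
    refine Finset.insert_subset ?_ h1
    by_contra hvW
    exact hW u (h1 hu) v (Finset.mem_insert_self _ _) hvW he

omit [Fintype V] in
theorem Gen.cons {u v : V} (h : Gen E {u} S F) (hv : v ∉ S) (he : s(v, u) ∈ E) :
    Gen E {v} (insert v S) (insert s(v, u) F) := by
  induction h with
  | base =>
    have h1 : Gen E {v} {v} ∅ := Gen.base
    have h2 := Gen.step h1 (Finset.mem_singleton_self v) (v := u)
      (fun h => hv (by rw [Finset.mem_singleton] at *; exact h.symm)) he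
    rwa [Finset.pair_comm] at h2
  | @step S F a b _ ha hb hab ih =>
    rw [Finset.mem_insert, not_or] at hv
    have h1 := ih hv.2
    have h2 := Gen.step h1 (Finset.mem_insert_of_mem ha) (v := b)
      (by rw [Finset.mem_insert, not_or]; exact ⟨fun h => hv.1 h.symm, hb⟩) hab
    rwa [Finset.insert_comm, Finset.insert_comm s(a, b)] at h2

omit [Fintype V] in
theorem Gen.reroot {r v : V} (h : Gen E {r} S F) (hv : v ∈ S) : Gen E {v} S F := by
  induction h generalizing v with
  | base =>
    rw [Finset.mem_singleton] at hv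
    rw [hv]
    exact Gen.base
  | @step S F a b _ ha hb hab ih =>
    rw [Finset.mem_insert] at hv
    rcases hv with rfl | hv
    · have h1 := (ih ha).cons hb (by rw [Sym2.eq_swap]; exact hab)
      rwa [Sym2.eq_swap] at h1
    · exact Gen.step (ih hv) ha hb hab

omit [Fintype V] in
/-- adding roots -/
theorem Gen.addRoots (h : Gen E A S F) (hB : S ∩ B ⊆ A) : Gen E (A ∪ B) (S ∪ B) F := by
  induction h with
  | base => exact Gen.base
  | @step S F u v h0 hu hv he ih =>
    have h1 : S ∩ B ⊆ A := fun x hx => by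
      rw [Finset.mem_inter] at hx
      exact hB (Finset.mem_inter.2 ⟨Finset.mem_insert_of_mem hx.1, hx.2⟩)
    have hvB : v ∉ B := fun h => hv (h0.sub (hB (Finset.mem_inter.2 ⟨Finset.mem_insert_self _ _, h⟩)))
    rw [Finset.insert_union]
    refine Gen.step (ih h1) (Finset.mem_union_left _ hu) ?_ he
    rw [Finset.mem_union, not_or]
    exact ⟨hv, hvB⟩

omit [Fintype V] in
/-- the union of two forests -/
theorem Gen.union {S' : Finset V} {F' : Finset (Sym2 V)} (h : Gen E A S F) (h' : Gen E B S' F')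
    (hA : S ∩ S' ⊆ A) (hB : S ∩ S' ⊆ B) : Gen E (A ∪ B) (S ∪ S') (F ∪ F') := by
  induction h' with
  | base =>
    rw [Finset.union_empty]
    exact h.addRoots hA
  | @step S' F' u v h0 hu hv he ih =>
    have h1 : S ∩ S' ⊆ S ∩ insert v S' :=
      Finset.inter_subset_inter_left (Finset.subset_insert _ _)
    have h2 := ih (h1.trans hA) (h1.trans hB)
    have hvS : v ∉ S := fun h => hv (h0.sub (hB (Finset.mem_inter.2 ⟨h, Finset.mem_insert_self _ _⟩)))
    rw [Finset.union_insert, Finset.union_insert]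
    refine Gen.step h2 (Finset.mem_union_right _ hu) ?_ he
    rw [Finset.mem_union, not_or]
    exact ⟨hvS, hv⟩

/-- `(S, F)` is a tree -/
def IsT (E : Finset (Sym2 V)) (S : Finset V) (F : Finset (Sym2 V)) : Prop := ∃ r, Gen E {r} S F

omit [Fintype V] in
theorem IsT.gen {v : V} (h : IsT E S F) (hv : v ∈ S) : Gen E {v} S F := by
  obtain ⟨r, h⟩ := h
  exact h.reroot hv

omit [Fintype V] in
theorem IsT.nonempty (h : IsT E S F) : S.Nonempty := by
  obtain ⟨r, h⟩ := h
  exact ⟨r, h.sub (Finset.mem_singleton_self r)⟩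

omit [Fintype V] in
theorem IsT.card (h : IsT E S F) : S.card = F.card + 1 := by
  obtain ⟨r, h⟩ := h
  rw [h.card, Finset.card_singleton, add_comm]

omit [Fintype V] in
theorem IsT.subE (h : IsT E S F) : F ⊆ E := by
  obtain ⟨r, h⟩ := h
  exact h.subE

omit [Fintype V] in
theorem IsT.ends (h : IsT E S F) : ∀ e ∈ F, ∀ x ∈ e, x ∈ S := by
  obtain ⟨r, h⟩ := h
  exact h.ends

omit [Fintype V] in
theorem IsT.single (v : V) : IsT E {v} ∅ := ⟨v, Gen.base⟩

omit [Fintype V] in
theorem IsT.mono {E' : Finset (Sym2 V)} (h : IsT E S F) (hF : F ⊆ E') : IsT E' S F := by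
  obtain ⟨r, h⟩ := h
  exact ⟨r, h.mono hF⟩

omit [Fintype V] in
theorem IsT.step {u v : V} (h : IsT E S F) (hu : u ∈ S) (hv : v ∉ S) (he : s(u, v) ∈ E) :
    IsT E (insert v S) (insert s(u, v) F) := by
  obtain ⟨r, h⟩ := h
  exact ⟨r, h.step hu hv he⟩

omit [Fintype V] in
theorem IsT.pair {u v : V} (huv : u ≠ v) (he : s(u, v) ∈ E) : IsT E {u, v} {s(u, v)} := by
  have h1 := (IsT.single (E := E) u).step (v := v) (Finset.mem_singleton_self u)
    (fun h => huv (Finset.mem_singleton.1 h).symm) he
  rw [Finset.pair_comm]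
  exact h1

/-- the trees inside the vertex set `U` -/
noncomputable def trees (E : Finset (Sym2 V)) (U : Finset V) : Finset (Finset V × Finset (Sym2 V)) :=
  univ.filter fun p => p.1 ⊆ U ∧ IsT E p.1 p.2

theorem mem_trees {U : Finset V} {p : Finset V × Finset (Sym2 V)} :
    p ∈ trees E U ↔ p.1 ⊆ U ∧ IsT E p.1 p.2 := by
  unfold trees
  rw [Finset.mem_filter]
  exact ⟨fun h => h.2, fun h => ⟨Finset.mem_univ _, h⟩⟩

/-- connected vertex sets -/
def Conn (E : Finset (Sym2 V)) (S : Finset V) : Prop := ∃ F, IsT E S F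

omit [Fintype V] in
theorem Conn.nonempty (h : Conn E S) : S.Nonempty := by
  obtain ⟨F, h⟩ := h
  exact h.nonempty

omit [Fintype V] in
theorem Conn.single (v : V) : Conn E {v} := ⟨∅, IsT.single v⟩

omit [Fintype V] in
theorem Conn.mono {E' : Finset (Sym2 V)} (h : Conn E S) (hE : E ⊆ E') : Conn E' S := by
  obtain ⟨F, h⟩ := h
  exact ⟨F, h.mono (h.subE.trans hE)⟩

omit [Fintype V] in
/-- a connected set which meets `W` and sends no edge out of `W` is inside `W` -/
theorem Conn.closed {W : Finset V} (h : Conn E S) {x : V} (hx : x ∈ S) (hxW : x ∈ W)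
    (hW : ∀ x ∈ W, ∀ y ∈ S, y ∉ W → s(x, y) ∉ E) : S ⊆ W := by
  obtain ⟨F, h⟩ := h
  exact (h.gen hx).closed (Finset.singleton_subset_iff.2 hxW) hW

omit [Fintype V] in
theorem Conn.union {S' : Finset V} (h : Conn E S) (h' : Conn E S') {x : V} (hx : x ∈ S)
    (hx' : x ∈ S') : Conn E (S ∪ S') := by
  obtain ⟨F', h'⟩ := h'
  have h1 := h'.gen hx'
  clear h' hx'
  induction h1 with
  | base =>
    rw [Finset.union_comm, Finset.singleton_union, Finset.insert_eq_of_mem hx]
    exact h
  | @step S' F' u v _ hu hv he ih =>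
    rw [Finset.union_insert]
    by_cases hvS : v ∈ S ∪ S'
    · rwa [Finset.insert_eq_of_mem hvS]
    · obtain ⟨F1, h1⟩ := ih
      exact ⟨_, h1.step (Finset.mem_union_right _ hu) hvS he⟩

omit [Fintype V] in
theorem Conn.insert {u v : V} (h : Conn E S) (hu : u ∈ S) (he : s(u, v) ∈ E) :
    Conn E (insert v S) := by
  by_cases hv : v ∈ S
  · rwa [Finset.insert_eq_of_mem hv]
  · obtain ⟨F, h⟩ := h
    exact ⟨_, h.step hu hv he⟩

omit [Fintype V] in
theorem Conn.join {S' : Finset V} (h : Conn E S) (h' : Conn E S') {x y : V} (hx : x ∈ S)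
    (hy : y ∈ S') (he : s(x, y) ∈ E) : Conn E (S ∪ S') := by
  have h1 := (h.insert hx he).union h' (Finset.mem_insert_self _ _) hy
  rwa [Finset.insert_union, Finset.insert_eq_of_mem (Finset.mem_union_right _ hy)] at h1

/-- the component of `z` in `U` -/
theorem exists_component {U : Finset V} {z : V} (hz : z ∈ U) :
    ∃ S ⊆ U, z ∈ S ∧ Conn E S ∧ ∀ x ∈ S, ∀ y ∈ U, y ∉ S → s(x, y) ∉ E := by
  have h1 : ((trees E U).filter fun p => z ∈ p.1).Nonempty := by
    refine ⟨({z}, ∅), ?_⟩
    rw [Finset.mem_filter, mem_trees]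
    exact ⟨⟨Finset.singleton_subset_iff.2 hz, IsT.single z⟩, Finset.mem_singleton_self z⟩
  obtain ⟨p, hp, hmax⟩ := Finset.exists_max_image _ (fun p => p.1.card) h1
  rw [Finset.mem_filter, mem_trees] at hp
  refine ⟨p.1, hp.1.1, hp.2, ⟨p.2, hp.1.2⟩, ?_⟩
  intro x hx y hyU hy he
  have h2 := hmax (insert y p.1, insert s(x, y) p.2) (by
    rw [Finset.mem_filter, mem_trees]
    exact ⟨⟨Finset.insert_subset hyU hp.1.1, hp.1.2.step hx hy he⟩,
      Finset.mem_insert_of_mem hp.2⟩)
  rw [Finset.card_insert_of_notMem hy] at h2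
  omega

/-- the union of connected sets through one point -/
theorem conn_of_forall {U : Finset V} {z : V} (hz : z ∈ U)
    (h : ∀ x ∈ U, ∃ K ⊆ U, Conn E K ∧ x ∈ K ∧ z ∈ K) : Conn E U := by
  obtain ⟨S, hSU, hzS, hS, hcl⟩ := exists_component (E := E) hz
  have h1 : U ⊆ S := by
    intro x hx
    obtain ⟨K, hKU, hK, hxK, hzK⟩ := h x hx
    exact hK.closed hzK hzS (fun a ha b hb hb' => hcl a ha b (hKU hb) hb') hxK
  rwa [Finset.Subset.antisymm h1 hSU]

end Pool.Agent.H46.MST
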