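import Pool.Agent.H46.MstDescent

/-!
From edge sets to simple graphs.
-/

namespace Pool.Agent.H46.MST

open Finset
open scoped Classical

variable {V : Type*} [Fintype V] [DecidableEq V]

/-- the finset of the edges of a graph -/
noncomputable def ed (G : SimpleGraph V) : Finset (Sym2 V) := univ.filter fun e => e ∈ G.edgeSet

theorem mem_ed {G : SimpleGraph V} {e : Sym2 V} : e ∈ ed G ↔ e ∈ G.edgeSet := by
  unfold ed
  rw [Finset.mem_filter]
  exact ⟨fun h => h.2, fun h => ⟨Finset.mem_univ _, h⟩⟩

theorem mk_mem_ed {G : SimpleGraph V} {a b : V} : s(a, b) ∈ ed G ↔ G.Adj a b := by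
  rw [mem_ed, SimpleGraph.mem_edgeSet]

theorem Gen.reachable {G : SimpleGraph V} {r : V} {S : Finset V} {F : Finset (Sym2 V)}
    (h : Gen (ed G) {r} S F) (W : Finset V) (hSW : S ⊆ W) (hr : r ∈ W) :
    ∀ x (hx : x ∈ S), (G.induce (W : Set V)).Reachable ⟨r, hr⟩ ⟨x, hSW hx⟩ := by
  induction h with
  | base =>
    intro x hx
    have : x = r := Finset.mem_singleton.1 hx
    subst this
    exact SimpleGraph.Reachable.refl _
  | @step S F u v h0 hu hv he ih =>
    intro x hx
    have hSW' : S ⊆ W := (Finset.subset_insert _ _).trans hSW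
    by_cases hxS : x ∈ S
    · exact ih hSW' x hxS
    · have hxv : x = v := by
        rw [Finset.mem_insert] at hx
        exact hx.resolve_right hxS
      subst hxv
      refine (ih hSW' u hu).trans (SimpleGraph.Adj.reachable ?_)
      have h1 : G.Adj u x := mk_mem_ed.1 he
      exact h1

theorem conn_iff {G : SimpleGraph V} {S : Finset V} :
    Conn (ed G) S ↔ (G.induce (S : Set V)).Connected := by
  constructor
  · rintro ⟨F, r, h⟩
    have hr := h.sub (Finset.mem_singleton_self r)
    have h1 := h.reachable S subset_rfl hr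
    have : Nonempty ((S : Set V)) := ⟨⟨r, hr⟩⟩
    refine SimpleGraph.Connected.mk ?_
    intro x y
    exact (h1 x.1 x.2).symm.trans (h1 y.1 y.2)
  · intro h
    obtain ⟨⟨r, hr⟩⟩ := h.nonempty
    obtain ⟨T, hTS, hrT, hT, hcl⟩ := exists_component (E := ed G) (U := S) (z := r) hr
    have key : ∀ x y : ((S : Set V)), (G.induce (S : Set V)).Reachable x y → x.1 ∈ T → y.1 ∈ T := by
      intro x y ⟨w⟩
      induction w with
      | nil => exact fun h => h
      | @cons a b c hab _ ih =>
        intro ha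
        refine ih ?_
        by_contra hb
        exact hcl a.1 ha b.1 b.2 hb (mk_mem_ed.2 hab)
    have h2 : S ⊆ T := fun x hx => key ⟨r, hr⟩ ⟨x, hx⟩ (h.preconnected _ _) hrT
    rwa [Finset.Subset.antisymm hTS h2] at hT

theorem conn_univ_iff {G : SimpleGraph V} : Conn (ed G) univ ↔ G.Connected := by
  rw [conn_iff, Finset.coe_univ]
  exact (SimpleGraph.induceUnivIso G).connected_iff

theorem ed_delete {G : SimpleGraph V} (e : Sym2 V) : ed (G.deleteEdges {e}) = (ed G).erase e := by
  ext a
  rw [mem_ed, Finset.mem_erase, mem_ed, SimpleGraph.edgeSet_deleteEdges]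
  simp only [Set.mem_sdiff, Set.mem_singleton_iff]
  tauto

/-- the subtrees of `G` -/
noncomputable def subtrees (G : SimpleGraph V) : Finset G.Subgraph :=
  Finset.univ.filter fun H => H.coe.IsTree

/-- the pair of a subgraph -/
noncomputable def toPair {G : SimpleGraph V} (H : G.Subgraph) : Finset V × Finset (Sym2 V) :=
  (univ.filter fun v => v ∈ H.verts, univ.filter fun e => e ∈ H.edgeSet)

theorem toPair_inj {G : SimpleGraph V} {H H' : G.Subgraph} (h : toPair H = toPair H') : H = H' := by
  unfold toPair at h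
  rw [Prod.mk.injEq] at h
  refine SimpleGraph.Subgraph.ext ?_ ?_
  · ext v
    have := congrArg (fun s => v ∈ s) h.1
    simpa using this
  · ext a b
    have := congrArg (fun s => s(a, b) ∈ s) h.2
    simpa using this

theorem ncard_verts {G : SimpleGraph V} (H : G.Subgraph) : H.verts.ncard = (toPair H).1.card := by
  unfold toPair
  rw [← Set.ncard_coe_finset]
  congr 1
  ext v
  simp

theorem ncard_edges {G : SimpleGraph V} (H : G.Subgraph) : H.edgeSet.ncard = (toPair H).2.card := by
  unfold toPair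
  rw [← Set.ncard_coe_finset]
  congr 1
  ext v
  simp

theorem isTree_iff {G : SimpleGraph V} (H : G.Subgraph) :
    H.coe.IsTree ↔ H.coe.Connected ∧ H.edgeSet.ncard + 1 = H.verts.ncard := by
  rw [SimpleGraph.isTree_iff_connected_and_card]
  have h : H.edgeSet.ncard = Nat.card H.coe.edgeSet := by
    rw [← SimpleGraph.Subgraph.image_coe_edgeSet_coe, Set.ncard_image_of_injective _
      (Sym2.map.injective Subtype.val_injective)]
    rfl
  rw [h]
  rfl

theorem coe_connected_iff {G : SimpleGraph V} (H : G.Subgraph) :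
    H.coe.Connected ↔ Conn (toPair H).2 (toPair H).1 := by
  have h1 : (toPair H).2 = ed H.spanningCoe := by
    unfold toPair ed
    ext e
    induction e with
    | _ a b => simp
  rw [h1, conn_iff]
  have h2 : (((toPair H).1 : Finset V) : Set V) = H.verts := by
    unfold toPair
    ext v
    simp
  rw [h2]
  exact Iff.rfl

theorem mem_iff {G : SimpleGraph V} (H : G.Subgraph) :
    H.coe.IsTree ↔ IsT (ed G) (toPair H).1 (toPair H).2 := by
  have hsub : (toPair H).2 ⊆ ed G := by
    intro e he
    unfold toPair at he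
    rw [mem_ed]
    simp only [Finset.mem_filter, Finset.mem_univ, true_and] at he
    exact H.edgeSet_subset he
  rw [isTree_iff, coe_connected_iff, ncard_edges, ncard_verts]
  constructor
  · rintro ⟨⟨F, hF⟩, hcard⟩
    have h1 := hF.card
    have h2 : F = (toPair H).2 := Finset.eq_of_subset_of_card_le hF.subE (by omega)
    rw [← h2]
    exact hF.mono (h2 ▸ hsub)
  · intro h
    exact ⟨⟨_, h.mono subset_rfl⟩, h.card.symm⟩

theorem exists_subgraph {G : SimpleGraph V} {p : Finset V × Finset (Sym2 V)}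
    (hp : IsT (ed G) p.1 p.2) : ∃ H : G.Subgraph, toPair H = p := by
  refine ⟨{ verts := {v | v ∈ p.1}, Adj := fun a b => s(a, b) ∈ p.2, adj_sub := ?_, edge_vert := ?_,
            symm := ?_ }, ?_⟩
  · intro a b h
    exact mk_mem_ed.1 (hp.subE h)
  · intro a b h
    exact hp.ends _ h a (Sym2.mem_mk_left _ _)
  · refine ⟨fun a b h => ?_⟩
    rw [Sym2.eq_swap]
    exact h
  · unfold toPair
    refine Prod.ext ?_ ?_
    · ext v
      simp
    · ext e
      induction e with
      | _ a b => simp

theorem sum_subtrees {G : SimpleGraph V} (g : Finset V × Finset (Sym2 V) → ℝ) :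
    ∑ H ∈ subtrees G, g (toPair H) = ∑ p ∈ trees (ed G) univ, g p := by
  refine Finset.sum_bij (fun H _ => toPair H) ?_ ?_ ?_ ?_
  · intro H hH
    unfold subtrees at hH
    rw [Finset.mem_filter, mem_iff] at hH
    exact mem_trees.2 ⟨Finset.subset_univ _, hH.2⟩
  · intro H _ H' _ h
    exact toPair_inj h
  · intro p hp
    rw [mem_trees] at hp
    obtain ⟨H, hH⟩ := exists_subgraph hp.2
    refine ⟨H, ?_, hH⟩
    unfold subtrees
    rw [Finset.mem_filter, mem_iff, hH]
    exact ⟨Finset.mem_univ _, hp.2⟩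
  · intro H _
    rfl

/-- the mean subtree order of `G` -/
noncomputable def mu (G : SimpleGraph V) : ℝ :=
  (∑ H ∈ subtrees G, (H.verts.ncard : ℝ)) / (subtrees G).card

theorem mu_eq (G : SimpleGraph V) :
    mu G = (∑ p ∈ trees (ed G) univ, (p.1.card : ℝ)) / (trees (ed G) univ).card := by
  unfold mu
  have h1 := sum_subtrees (G := G) fun p => (p.1.card : ℝ)
  have h2 := sum_subtrees (G := G) fun _ => (1 : ℝ)
  rw [Finset.sum_const, Finset.sum_const, nsmul_eq_mul, nsmul_eq_mul, mul_one, mul_one] at h2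
  rw [← h1, ← h2]
  congr 1
  refine Finset.sum_congr rfl fun H _ => ?_
  rw [ncard_verts]

theorem trees_pos (E : Finset (Sym2 V)) [Nonempty V] : (0 : ℝ) < (trees E univ).card := by
  have h1 : (({Classical.arbitrary V}, ∅) : Finset V × Finset (Sym2 V)) ∈ trees E univ :=
    mem_trees.2 ⟨Finset.subset_univ _, IsT.single _⟩
  have h2 : 0 < (trees E univ).card := Finset.card_pos.2 ⟨_, h1⟩
  exact_mod_cast h2

theorem dev_mu (G : SimpleGraph V) [Nonempty V] : dev (ed G) (mu G) univ = 0 := by
  unfold dev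
  rw [Finset.sum_sub_distrib, Finset.sum_const, nsmul_eq_mul, mu_eq]
  have := trees_pos (ed G)
  field_simp
  ring

theorem trees_erase (E : Finset (Sym2 V)) (e : Sym2 V) :
    trees (E.erase e) univ = (trees E univ).filter fun p => e ∉ p.2 := by
  ext p
  rw [Finset.mem_filter, mem_trees, mem_trees]
  constructor
  · rintro ⟨h1, h2⟩
    exact ⟨⟨h1, h2.mono (h2.subE.trans (Finset.erase_subset _ _))⟩,
      fun h => (Finset.mem_erase.1 (h2.subE h)).1 rfl⟩
  · rintro ⟨⟨h1, h2⟩, h3⟩
    exact ⟨h1, h2.mono fun a ha => Finset.mem_erase.2 ⟨fun h => h3 (h ▸ ha), h2.subE ha⟩⟩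

theorem mu_delete_lt (G : SimpleGraph V) [Nonempty V] (e : Sym2 V)
    (h : 0 < ∑ p ∈ (trees (ed G) univ).filter (fun p => e ∈ p.2), ((p.1.card : ℝ) - mu G)) :
    mu (G.deleteEdges {e}) < mu G := by
  have h1 := dev_mu G
  unfold dev at h1
  rw [← Finset.sum_filter_add_sum_filter_not (trees (ed G) univ) (fun p => e ∈ p.2)] at h1
  rw [mu_eq (G.deleteEdges {e}), ed_delete, trees_erase]
  have h2 := trees_pos ((ed G).erase e)
  rw [trees_erase] at h2
  rw [div_lt_iff₀ h2]
  have h3 : ∑ p ∈ (trees (ed G) univ).filter (fun p => e ∉ p.2), ((p.1.card : ℝ) - mu G) < 0 := by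
    linarith
  rw [Finset.sum_sub_distrib, Finset.sum_const, nsmul_eq_mul] at h3
  linarith

/-- the main theorem on simple graphs, with the condition on the leaves -/
theorem main_graph (G : SimpleGraph V) (hG : G.Connected) (hT : ¬G.IsTree)
    (hleaf : ∀ C, Block (ed G) C → ∀ π, Gate (ed G) C π → ∀ S F, IsT (ed G) S F → S ⊆ C →
      ∑ c ∈ C.filter (fun c => hang π c ≠ {c} ∧ leafAt C (S, F) c),
        1 / (degC (ed G) C c : ℝ) ≤ 4) :
    ∃ e ∈ G.edgeSet, (G.deleteEdges {e}).Connected ∧ mu (G.deleteEdges {e}) < mu G := by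
  have := hG.nonempty
  have hcyc : ∃ u v, u ≠ v ∧ s(u, v) ∈ ed G ∧ Conn ((ed G).erase s(u, v)) univ := by
    by_contra hcon
    apply hT
    refine ⟨hG, SimpleGraph.isAcyclic_iff_forall_isBridge.2 ?_⟩
    intro e he
    induction e with
    | _ u v =>
      by_contra hbr
      have h1 := hG.connected_delete_edge_of_not_isBridge hbr
      rw [← conn_univ_iff, ed_delete] at h1
      have he' : G.Adj u v := he
      exact hcon ⟨u, v, he'.ne, mk_mem_ed.2 he', h1⟩
  obtain ⟨u, v, _, he, hconn, hpos⟩ := main_edge (E := ed G) (conn_univ_iff.2 hG) (mu G) (dev_mu G)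
    hcyc hleaf (fun x hx => G.irrefl (mk_mem_ed.1 hx))
  refine ⟨s(u, v), mem_ed.1 he, ?_, mu_delete_lt G _ hpos⟩
  rw [← conn_univ_iff, ed_delete]
  exact hconn

end Pool.Agent.H46.MST
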