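import Pool.Agent.H46.MstProd

/-!
Rooted trees have on average at least half of the vertices.
-/

namespace Pool.Agent.H46.MST

open Finset
open scoped Classical

variable {V : Type*} [Fintype V] [DecidableEq V]
variable {E : Finset (Sym2 V)} {A B : Finset V} {S : Finset V} {F : Finset (Sym2 V)}

/-- all forests generated from `A` -/
noncomputable def gens (E : Finset (Sym2 V)) (A : Finset V) : Finset (Finset V × Finset (Sym2 V)) :=
  univ.filter fun p => Gen E A p.1 p.2

theorem mem_gens {p : Finset V × Finset (Sym2 V)} : p ∈ gens E A ↔ Gen E A p.1 p.2 := by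
  unfold gens
  rw [Finset.mem_filter]
  exact ⟨fun h => h.2, fun h => ⟨Finset.mem_univ _, h⟩⟩

theorem exists_reach (E : Finset (Sym2 V)) (A : Finset V) :
    ∃ R F, Gen E A R F ∧ ∀ x ∈ R, ∀ y, y ∉ R → s(x, y) ∉ E := by
  have h1 : (gens E A).Nonempty := ⟨(A, ∅), mem_gens.2 Gen.base⟩
  obtain ⟨p, hp, hmax⟩ := Finset.exists_max_image _ (fun p => p.1.card) h1
  rw [mem_gens] at hp
  refine ⟨p.1, p.2, hp, ?_⟩
  intro x hx y hy he
  have h2 := hmax (insert y p.1, insert s(x, y) p.2) (mem_gens.2 (hp.step hx hy he))
  rw [Finset.card_insert_of_notMem hy] at h2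
  omega

theorem Gen.sub_reach {R : Finset V} (h : Gen E A S F) (hA : A ⊆ R)
    (hR : ∀ x ∈ R, ∀ y, y ∉ R → s(x, y) ∉ E) : S ⊆ R :=
  h.closed hA fun x hx y _ hy => hR x hx y hy

theorem Gen.move {a y : V} (ha : a ∈ A) (hy : y ∉ A) (h : Gen E A S F) (he : s(a, y) ∈ F) :
    Gen (E.erase s(a, y)) (insert y A) S (F.erase s(a, y)) := by
  induction h with
  | base => simp at he
  | @step S F u v h0 hu hv huv ih =>
    by_cases h1 : s(u, v) = s(a, y)
    · have hvy : v = y ∧ u = a := by
        rw [Sym2.eq_iff] at h1
        rcases h1 with ⟨h1, h2⟩ | ⟨h1, h2⟩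
        · exact ⟨h2, h1⟩
        · exfalso
          rw [h2] at hv
          exact hv (h0.sub ha)
      obtain ⟨rfl, rfl⟩ := hvy
      have h2 : s(u, v) ∉ F := h0.notMem hv
      rw [Finset.erase_insert h2]
      have h3 : Gen (E.erase s(u, v)) A S F :=
        h0.mono (fun e he => Finset.mem_erase.2 ⟨fun h => h2 (h ▸ he), h0.subE he⟩)
      have h4 := h3.addRoots (B := {v}) (by
        intro x hx
        rw [Finset.mem_inter, Finset.mem_singleton] at hx
        exact absurd (hx.2 ▸ hx.1) hv)
      rwa [Finset.union_comm, Finset.union_comm S, ← Finset.insert_eq, ← Finset.insert_eq] at h4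
    · have h2 : s(a, y) ∈ F := by
        rw [Finset.mem_insert] at he
        exact he.resolve_left fun h => h1 h.symm
      have h3 := ih h2
      have h4 := h3.step hu hv (Finset.mem_erase.2 ⟨h1, huv⟩)
      rwa [Finset.erase_insert_of_ne h1]

theorem Gen.unmove {a y : V} (ha : a ∈ A) (hy : y ∉ A) (hE : s(a, y) ∈ E)
    (h : Gen (E.erase s(a, y)) (insert y A) S F) : Gen E A S (insert s(a, y) F) := by
  induction h with
  | base => exact Gen.step Gen.base ha hy hE
  | @step S F u v h0 hu hv huv ih =>
    rw [Finset.insert_comm]
    exact Gen.step ih hu hv (Finset.mem_of_mem_erase huv)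

theorem half_aux (n : ℕ) : ∀ (E : Finset (Sym2 V)) (A R : Finset V) (F : Finset (Sym2 V)),
    E.card = n → Gen E A R F → (∀ x ∈ R, ∀ y, y ∉ R → s(x, y) ∉ E) →
    0 ≤ ∑ p ∈ gens E A, (2 * (p.1.card : ℝ) - A.card - R.card) := by
  induction n with
  | zero =>
    intro E A R F hE hR hcl
    rw [Finset.card_eq_zero] at hE
    refine Finset.sum_nonneg fun p hp => ?_
    rw [mem_gens] at hp
    have h1 := hR.sub_reach (R := A) subset_rfl (by intro x _ y _; rw [hE]; simp)
    have h2 := hR.sub
    have h3 := hp.sub
    have h4 : (A.card : ℝ) ≤ p.1.card := by exact_mod_cast Finset.card_le_card h3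
    have h5 : (R.card : ℝ) ≤ A.card := by exact_mod_cast Finset.card_le_card h1
    linarith
  | succ n ih =>
    intro E A R F hE hR hcl
    by_cases hex : ∃ a ∈ A, ∃ y, y ∉ A ∧ s(a, y) ∈ E
    swap
    · refine Finset.sum_nonneg fun p hp => ?_
      rw [mem_gens] at hp
      have h1 := hR.sub_reach (R := A) subset_rfl (by
        intro x hx y hy h
        exact hex ⟨x, hx, y, hy, h⟩)
      have h3 := hp.sub
      have h4 : (A.card : ℝ) ≤ p.1.card := by exact_mod_cast Finset.card_le_card h3
      have h5 : (R.card : ℝ) ≤ A.card := by exact_mod_cast Finset.card_le_card h1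
      linarith
    · obtain ⟨a, ha, y, hy, he⟩ := hex
      set E1 := E.erase s(a, y) with hE1
      have hcard : E1.card = n := by
        rw [hE1, Finset.card_erase_of_mem he, hE]
        rfl
      -- splitting the sum
      have hsplit : ∀ g : ℕ → ℝ, ∑ p ∈ gens E A, g p.1.card =
          ∑ p ∈ gens E1 A, g p.1.card + ∑ p ∈ gens E1 (insert y A), g p.1.card := by
        intro g
        rw [← Finset.sum_filter_add_sum_filter_not (gens E A) (fun p => s(a, y) ∉ p.2)]
        congr 1
        · refine Finset.sum_congr ?_ fun _ _ => rfl
          ext p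
          rw [Finset.mem_filter, mem_gens, mem_gens]
          constructor
          · rintro ⟨h1, h2⟩
            exact h1.mono fun e he => Finset.mem_erase.2 ⟨fun h => h2 (h ▸ he), h1.subE he⟩
          · intro h1
            exact ⟨h1.mono (h1.subE.trans (Finset.erase_subset _ _)),
              fun h => (Finset.mem_erase.1 (h1.subE h)).1 rfl⟩
        · refine Finset.sum_bij' (fun p _ => (p.1, p.2.erase s(a, y)))
            (fun p _ => (p.1, insert s(a, y) p.2)) ?_ ?_ ?_ ?_ ?_
          · intro p hp
            rw [Finset.mem_filter, mem_gens, not_not] at hp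
            rw [mem_gens]
            exact hp.1.move ha hy hp.2
          · intro p hp
            rw [mem_gens] at hp
            rw [Finset.mem_filter, mem_gens, not_not]
            exact ⟨hp.unmove ha hy he, Finset.mem_insert_self _ _⟩
          · intro p hp
            rw [Finset.mem_filter, mem_gens, not_not] at hp
            exact Prod.ext rfl (Finset.insert_erase hp.2)
          · intro p hp
            rw [mem_gens] at hp
            refine Prod.ext rfl (Finset.erase_insert ?_)
            exact fun h => (Finset.mem_erase.1 (hp.subE h)).1 rfl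
          · intro p _
            rfl
      obtain ⟨R1, F1, hR1, hcl1⟩ := exists_reach E1 A
      obtain ⟨R2, F2, hR2, hcl2⟩ := exists_reach E1 (insert y A)
      have hA2 : A ⊆ R2 := (Finset.subset_insert _ _).trans hR2.sub
      have hyR2 : y ∈ R2 := hR2.sub (Finset.mem_insert_self _ _)
      have hAR : A ⊆ R := hR.sub
      have hyR : y ∈ R := by
        by_contra h
        exact hcl a (hAR ha) y h he
      have hR2R : R2 = R := by
        apply Finset.Subset.antisymm
        · refine hR2.sub_reach (Finset.insert_subset hyR hAR) ?_
          intro x hx z hz h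
          exact hcl x hx z hz (Finset.mem_of_mem_erase h)
        · refine hR.sub_reach hA2 ?_
          intro x hx z hz h
          by_cases h1 : s(x, z) = s(a, y)
          · rw [Sym2.eq_iff] at h1
            rcases h1 with ⟨_, h2⟩ | ⟨_, h2⟩
            · exact hz (h2 ▸ hyR2)
            · exact hz (h2 ▸ hA2 ha)
          · exact hcl2 x hx z hz (Finset.mem_erase.2 ⟨h1, h⟩)
      rw [hR2R] at hR2
      have ih1 := ih E1 A R1 F1 hcard hR1 hcl1
      have ih2 := ih E1 (insert y A) R F2 hcard hR2 (fun x hx z hz h =>
        hcl x hx z hz (Finset.mem_of_mem_erase h))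
      rw [hsplit fun k => 2 * (k : ℝ) - A.card - R.card]
      have hins : ((insert y A).card : ℝ) = A.card + 1 := by
        rw [Finset.card_insert_of_notMem hy]
        push_cast
        ring
      -- the main inequality
      have key : ((R.card : ℝ) - R1.card) * (gens E1 A).card ≤ (gens E1 (insert y A)).card := by
        by_cases hyR1 : y ∈ R1
        · have h1 : R ⊆ R1 := by
            refine hR.sub_reach hR1.sub ?_
            intro x hx z hz h
            by_cases h1 : s(x, z) = s(a, y)
            · rw [Sym2.eq_iff] at h1
              rcases h1 with ⟨_, h2⟩ | ⟨_, h2⟩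
              · exact hz (h2 ▸ hyR1)
              · exact hz (h2 ▸ hR1.sub ha)
            · exact hcl1 x hx z hz (Finset.mem_erase.2 ⟨h1, h⟩)
          have h2 : (R.card : ℝ) ≤ R1.card := by exact_mod_cast Finset.card_le_card h1
          have h3 : (0 : ℝ) ≤ (gens E1 A).card := Nat.cast_nonneg _
          have h4 : (0 : ℝ) ≤ (gens E1 (insert y A)).card := Nat.cast_nonneg _
          nlinarith
        · obtain ⟨D, FD, hD, hclD⟩ := exists_reach E1 {y}
          have hyD : y ∈ D := hD.sub (Finset.mem_singleton_self _)
          have hdisj : ∀ x ∈ R1, x ∉ D := by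
            intro x hx hxD
            have h1 : Conn E1 D := ⟨FD, y, hD⟩
            exact hyR1 (h1.closed hxD hx (fun p hp q _ hq => hcl1 p hp q hq) hyD)
          have h1 : R ⊆ R1 ∪ D := by
            refine hR.sub_reach (hR1.sub.trans Finset.subset_union_left) ?_
            intro x hx z hz h
            rw [Finset.mem_union, not_or] at hz
            by_cases h1 : s(x, z) = s(a, y)
            · rw [Sym2.eq_iff] at h1
              rcases h1 with ⟨_, h2⟩ | ⟨_, h2⟩
              · exact hz.2 (h2 ▸ hyD)
              · exact hz.1 (h2 ▸ hR1.sub ha)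
            · rw [Finset.mem_union] at hx
              rcases hx with hx | hx
              · exact hcl1 x hx z hz.1 (Finset.mem_erase.2 ⟨h1, h⟩)
              · exact hclD x hx z hz.2 (Finset.mem_erase.2 ⟨h1, h⟩)
          have h2 : R.card ≤ R1.card + D.card :=
            (Finset.card_le_card h1).trans (Finset.card_union_le _ _)
          have h3 : D.card ≤ (gens E1 {y}).card := by
            have h4 := hD.count_smaller (gens E1 {y}) (fun p hp _ => mem_gens.2 hp)
            rw [Finset.card_singleton] at h4
            have h5 : (D, FD) ∈ gens E1 {y} := mem_gens.2 hD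
            have h6 : ((gens E1 {y}).filter fun p => p.1.card < D.card) ⊂ gens E1 {y} :=
              Finset.filter_ssubset.2 ⟨(D, FD), h5, lt_irrefl _⟩
            have h7 := Finset.card_lt_card h6
            omega
          have h4 : (gens E1 A).card * (gens E1 {y}).card ≤ (gens E1 (insert y A)).card := by
            rw [← Finset.card_product]
            refine Finset.card_le_card_of_injOn (fun r => (r.1.1 ∪ r.2.1, r.1.2 ∪ r.2.2)) ?_ ?_
            · intro r hr
              rw [Finset.mem_coe, Finset.mem_product, mem_gens, mem_gens] at hr
              rw [Finset.mem_coe, mem_gens]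
              have hs1 := hr.1.sub_reach hR1.sub hcl1
              have hs2 := hr.2.sub_reach hD.sub hclD
              have h5 := hr.1.union hr.2 (fun x hx => by
                rw [Finset.mem_inter] at hx
                exact absurd (hs2 hx.2) (hdisj x (hs1 hx.1))) (fun x hx => by
                rw [Finset.mem_inter] at hx
                exact absurd (hs2 hx.2) (hdisj x (hs1 hx.1)))
              rwa [Finset.union_comm A, ← Finset.insert_eq] at h5
            · intro r hr r' hr' heq
              rw [Finset.mem_coe, Finset.mem_product, mem_gens, mem_gens] at hr hr'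
              simp only [Prod.mk.injEq] at heq
              have hs1 := hr.1.sub_reach hR1.sub hcl1
              have hs2 := hr.2.sub_reach hD.sub hclD
              have hs1' := hr'.1.sub_reach hR1.sub hcl1
              have hs2' := hr'.2.sub_reach hD.sub hclD
              have e1 : ∀ r : (Finset V × Finset (Sym2 V)) × (Finset V × Finset (Sym2 V)),
                  r.1.1 ⊆ R1 → r.2.1 ⊆ D → (r.1.1 ∪ r.2.1) ∩ R1 = r.1.1 ∧
                  (r.1.1 ∪ r.2.1) ∩ D = r.2.1 := by
                intro r h1 h2
                constructor
                · ext x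
                  rw [Finset.mem_inter, Finset.mem_union]
                  constructor
                  · rintro ⟨h | h, hx⟩
                    · exact h
                    · exact absurd (h2 h) (hdisj x hx)
                  · exact fun h => ⟨Or.inl h, h1 h⟩
                · ext x
                  rw [Finset.mem_inter, Finset.mem_union]
                  constructor
                  · rintro ⟨h | h, hx⟩
                    · exact absurd hx (hdisj x (h1 h))
                    · exact h
                  · exact fun h => ⟨Or.inr h, h2 h⟩
              have e2 : ∀ r : (Finset V × Finset (Sym2 V)) × (Finset V × Finset (Sym2 V)),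
                  Gen E1 A r.1.1 r.1.2 → Gen E1 {y} r.2.1 r.2.2 → r.1.1 ⊆ R1 → r.2.1 ⊆ D →
                  (r.1.2 ∪ r.2.2).filter (fun e => ∀ x ∈ e, x ∈ R1) = r.1.2 ∧
                  (r.1.2 ∪ r.2.2).filter (fun e => ∀ x ∈ e, x ∈ D) = r.2.2 := by
                intro r g1 g2 h1 h2
                constructor
                · ext e
                  rw [Finset.mem_filter, Finset.mem_union]
                  constructor
                  · rintro ⟨h | h, hx⟩
                    · exact h
                    · exfalso
                      induction e with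
                      | _ c d =>
                        exact hdisj c (hx c (Sym2.mem_mk_left _ _))
                          (h2 (g2.ends _ h c (Sym2.mem_mk_left _ _)))
                  · exact fun h => ⟨Or.inl h, fun x hx => h1 (g1.ends _ h x hx)⟩
                · ext e
                  rw [Finset.mem_filter, Finset.mem_union]
                  constructor
                  · rintro ⟨h | h, hx⟩
                    · exfalso
                      induction e with
                      | _ c d =>
                        exact hdisj c (h1 (g1.ends _ h c (Sym2.mem_mk_left _ _)))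
                          (hx c (Sym2.mem_mk_left _ _))
                    · exact h
                  · exact fun h => ⟨Or.inr h, fun x hx => h2 (g2.ends _ h x hx)⟩
              have a1 := e1 r hs1 hs2
              have a2 := e1 r' hs1' hs2'
              have b1 := e2 r hr.1 hr.2 hs1 hs2
              have b2 := e2 r' hr'.1 hr'.2 hs1' hs2'
              refine Prod.ext (Prod.ext ?_ ?_) (Prod.ext ?_ ?_)
              · rw [← a1.1, heq.1, a2.1]
              · rw [← b1.1, heq.2, b2.1]
              · rw [← a1.2, heq.1, a2.2]
              · rw [← b1.2, heq.2, b2.2]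
          have h5 : (R.card : ℝ) - R1.card ≤ D.card := by
            have : (R.card : ℝ) ≤ R1.card + D.card := by exact_mod_cast h2
            linarith
          have h6 : ((gens E1 A).card : ℝ) * D.card ≤ (gens E1 (insert y A)).card := by
            have h7 : (gens E1 A).card * D.card ≤ (gens E1 (insert y A)).card :=
              (Nat.mul_le_mul_left _ h3).trans h4
            exact_mod_cast h7
          have h7 : (0 : ℝ) ≤ (gens E1 A).card := Nat.cast_nonneg _
          nlinarith
      have e1 : ∑ p ∈ gens E1 A, (2 * (p.1.card : ℝ) - A.card - R.card) =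
          ∑ p ∈ gens E1 A, (2 * (p.1.card : ℝ) - A.card - R1.card) -
            ((R.card : ℝ) - R1.card) * (gens E1 A).card := by
        rw [← sub_eq_zero, ← sub_add, ← Finset.sum_sub_distrib]
        rw [Finset.sum_congr rfl (g := fun _ => (R1.card : ℝ) - R.card) (fun p _ => by ring)]
        rw [Finset.sum_const, nsmul_eq_mul]
        ring
      have e2 : ∑ p ∈ gens E1 (insert y A), (2 * (p.1.card : ℝ) - A.card - R.card) =
          ∑ p ∈ gens E1 (insert y A), (2 * (p.1.card : ℝ) - (insert y A).card - R.card) +
            (gens E1 (insert y A)).card := by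
        rw [hins, ← sub_eq_zero, ← sub_sub, ← Finset.sum_sub_distrib]
        rw [Finset.sum_congr rfl (g := fun _ => (1 : ℝ)) (fun p _ => by ring)]
        rw [Finset.sum_const, nsmul_eq_mul]
        ring
      rw [e1, e2]
      linarith

/-- the trees of a connected graph through a vertex `w` have mean order at least `(|V| + 1) / 2` -/
theorem half (hE : Conn E (univ : Finset V)) (w : V) :
    0 ≤ ∑ p ∈ treesAt E univ w, (2 * (p.1.card : ℝ) - 1 - Fintype.card V) := by
  obtain ⟨F, hF⟩ := hE
  have h1 := hF.gen (Finset.mem_univ w)
  have h2 := half_aux E.card E {w} univ F rfl h1 (fun x _ y hy => absurd (Finset.mem_univ y) hy)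
  have h3 : treesAt E univ w = gens E {w} := by
    ext p
    rw [mem_treesAt, mem_gens]
    exact ⟨fun h => h.2, fun h => ⟨Finset.subset_univ _, h⟩⟩
  rw [h3]
  rw [Finset.card_singleton, Nat.cast_one, Finset.card_univ] at h2
  exact h2

end Pool.Agent.H46.MST
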