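import Pool.Agent.H46.MstGraph

/-!
The number of leaves of a tree in a sparse block.
-/

namespace Pool.Agent.H46.MST

open Finset
open scoped Classical

variable {V : Type*} [Fintype V] [DecidableEq V]
variable {E : Finset (Sym2 V)} {S : Finset V} {F : Finset (Sym2 V)} {C : Finset V} {π : V → V}

theorem res_self (h : IsT E S F) (hS : S ⊆ C) : (res C (S, F)).2 = F := by
  unfold res
  simp only
  rw [Finset.filter_eq_self]
  exact fun e he x hx => hS (h.ends e he x hx)

/-- the leaves -/
noncomputable def leaves (C S : Finset V) (F : Finset (Sym2 V)) : Finset V :=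
  C.filter fun c => leafAt C (S, F) c

theorem mem_leaves (h : IsT E S F) (hS : S ⊆ C) {c : V} :
    c ∈ leaves C S F ↔ c ∈ C ∧ (F.filter fun e => c ∈ e).card = 1 := by
  unfold leaves
  rw [Finset.mem_filter]
  unfold leafAt
  rw [res_self h hS]

theorem NS.degC_two (hC : NS E C) (h3 : 3 ≤ C.card) {c : V} (hc : c ∈ C) : 2 ≤ degC E C c := by
  by_contra hcon
  have h1 : degC E C c = 1 := by
    have := hC.degC_pos hc
    omega
  unfold degC at h1
  obtain ⟨u, hu⟩ := Finset.card_eq_one.1 h1
  have huN : u ∈ C.filter fun u => u ≠ c ∧ s(u, c) ∈ E := by rw [hu]; exact Finset.mem_singleton_self _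
  rw [Finset.mem_filter] at huN
  have h2 := hC.erase u huN.1
  have hcu : c ∈ C.erase u := Finset.mem_erase.2 ⟨huN.2.1.symm, hc⟩
  have h4 := h2.closed (W := {c}) hcu (Finset.mem_singleton_self c) (by
    intro x hx y hy hyc he
    rw [Finset.mem_singleton] at hx hyc
    subst hx
    have h5 := Finset.mem_erase.1 hy
    have h6 : y ∈ C.filter fun u => u ≠ x ∧ s(u, x) ∈ E :=
      Finset.mem_filter.2 ⟨h5.2, hyc, by rw [Sym2.eq_swap]; exact he⟩
    rw [hu, Finset.mem_singleton] at h6
    exact h5.1 h6)
  have h5 := Finset.card_le_card h4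
  rw [Finset.card_singleton, Finset.card_erase_of_mem huN.1] at h5
  omega

/-- the edges inside `C` -/
noncomputable def edC (E : Finset (Sym2 V)) (C : Finset V) : Finset (Sym2 V) :=
  E.filter fun e => ∀ x ∈ e, x ∈ C

theorem degC_le {c : V} (hc : c ∈ C) :
    degC E C c ≤ ((edC E C).filter fun e => c ∈ e).card := by
  unfold degC
  refine Finset.card_le_card_of_injOn (fun u => s(u, c)) ?_ ?_
  · intro u hu
    rw [Finset.mem_coe, Finset.mem_filter] at hu
    rw [Finset.mem_coe, Finset.mem_filter]
    unfold edC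
    rw [Finset.mem_filter]
    refine ⟨⟨hu.2.2, fun x hx => ?_⟩, Sym2.mem_mk_right _ _⟩
    rw [Sym2.mem_iff] at hx
    rcases hx with rfl | rfl
    · exact hu.1
    · exact hc
  · intro u _ u' _ h
    simp only at h
    rw [Sym2.eq_iff] at h
    rcases h with ⟨h, _⟩ | ⟨h, h'⟩
    · exact h
    · rw [h, h']

theorem card_ends_le (e : Sym2 V) (L : Finset V) : (L.filter fun c => c ∈ e).card ≤ 2 := by
  induction e with
  | _ a b =>
    have h1 : (L.filter fun c => c ∈ s(a, b)) ⊆ {a, b} := by
      intro c hc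
      rw [Finset.mem_filter, Sym2.mem_iff] at hc
      rw [Finset.mem_insert, Finset.mem_singleton]
      exact hc.2
    exact (Finset.card_le_card h1).trans Finset.card_le_two

/-- leaves of a spanning tree -/
theorem leaves_spanning (hC : NS E C) (h3 : 3 ≤ C.card) (h : IsT E C F) :
    (leaves C C F).card + 2 * C.card ≤ 2 * (edC E C).card + 2 := by
  have hF : F ⊆ edC E C := by
    intro e he
    unfold edC
    rw [Finset.mem_filter]
    exact ⟨h.subE he, h.ends e he⟩
  have h1 : ∀ c ∈ leaves C C F, 1 ≤ ((edC E C \ F).filter fun e => c ∈ e).card := by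
    intro c hc
    rw [mem_leaves h subset_rfl] at hc
    have h2 := hC.degC_two h3 hc.1
    have h4 := degC_le (E := E) hc.1
    have h5 : ((edC E C).filter fun e => c ∈ e) =
        ((edC E C \ F).filter fun e => c ∈ e) ∪ (F.filter fun e => c ∈ e) := by
      ext e
      simp only [Finset.mem_union, Finset.mem_filter, Finset.mem_sdiff]
      constructor
      · rintro ⟨h6, h7⟩
        by_cases h8 : e ∈ F
        · exact Or.inr ⟨h8, h7⟩
        · exact Or.inl ⟨⟨h6, h8⟩, h7⟩
      · rintro (⟨⟨h6, _⟩, h7⟩ | ⟨h6, h7⟩)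
        · exact ⟨h6, h7⟩
        · exact ⟨hF h6, h7⟩
    have h6 := Finset.card_union_le ((edC E C \ F).filter fun e => c ∈ e) (F.filter fun e => c ∈ e)
    rw [← h5, hc.2] at h6
    omega
  have h2 : (leaves C C F).card ≤ ∑ c ∈ leaves C C F, ((edC E C \ F).filter fun e => c ∈ e).card := by
    rw [Finset.card_eq_sum_ones]
    exact Finset.sum_le_sum h1
  have h4 : ∑ c ∈ leaves C C F, ((edC E C \ F).filter fun e => c ∈ e).card =
      ∑ e ∈ edC E C \ F, ((leaves C C F).filter fun c => c ∈ e).card := by
    simp only [Finset.card_filter]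
    exact Finset.sum_comm
  have h5 : ∑ e ∈ edC E C \ F, ((leaves C C F).filter fun c => c ∈ e).card ≤
      ∑ _e ∈ edC E C \ F, 2 := Finset.sum_le_sum fun e _ => card_ends_le e _
  rw [Finset.sum_const, smul_eq_mul] at h5
  have h6 : (edC E C \ F).card + F.card = (edC E C).card := by
    rw [Finset.card_sdiff_of_subset hF]
    have := Finset.card_le_card hF
    omega
  have h7 := h.card
  omega

theorem leaves_le (hC : NS E C) (h3 : 3 ≤ C.card) (h : IsT E S F) (hS : S ⊆ C) :
    (leaves C S F).card + 2 * C.card ≤ 2 * (edC E C).card + 2 := by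
  have hfam : ((trees E C).filter fun p => (leaves C S F).card ≤ (leaves C p.1 p.2).card).Nonempty :=
    ⟨(S, F), Finset.mem_filter.2 ⟨mem_trees.2 ⟨hS, h⟩, le_rfl⟩⟩
  obtain ⟨p, hp, hmax⟩ := Finset.exists_max_image _ (fun p => p.1.card) hfam
  rw [Finset.mem_filter, mem_trees] at hp
  have hpC : p.1 = C := by
    by_contra hne
    have hex : ∃ u ∈ p.1, ∃ v ∈ C, v ∉ p.1 ∧ s(u, v) ∈ E := by
      by_contra hcon
      push Not at hcon
      obtain ⟨x, hx⟩ := hp.1.2.nonempty
      have h1 := hC.conn.closed (W := p.1) (hp.1.1 hx) hx (fun a ha b hb hb' => hcon a ha b hb hb')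
      exact hne (Finset.Subset.antisymm hp.1.1 h1)
    obtain ⟨u, hu, v, hv, hvp, he⟩ := hex
    have hnew := hp.1.2.step hu hvp he
    have hnewC : insert v p.1 ⊆ C := Finset.insert_subset hv hp.1.1
    have h1 : insert v ((leaves C p.1 p.2).erase u) ⊆
        leaves C (insert v p.1) (insert s(u, v) p.2) := by
      intro c hc
      rw [mem_leaves hnew hnewC]
      rw [Finset.mem_insert, Finset.mem_erase, mem_leaves hp.1.2 hp.1.1] at hc
      rcases hc with rfl | ⟨hcu, hcC, hc1⟩
      · refine ⟨hv, ?_⟩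
        rw [Finset.card_eq_one]
        refine ⟨s(u, c), ?_⟩
        ext e
        rw [Finset.mem_filter, Finset.mem_insert, Finset.mem_singleton]
        constructor
        · rintro ⟨h2 | h2, h4⟩
          · exact h2
          · exact absurd (hp.1.2.ends e h2 c h4) hvp
        · rintro rfl
          exact ⟨Or.inl rfl, Sym2.mem_mk_right _ _⟩
      · refine ⟨hcC, ?_⟩
        have hcv : c ≠ v := by
          rintro rfl
          obtain ⟨e, he'⟩ := Finset.card_eq_one.1 hc1
          have h2 : e ∈ p.2.filter fun e => c ∈ e := by rw [he']; exact Finset.mem_singleton_self _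
          rw [Finset.mem_filter] at h2
          exact hvp (hp.1.2.ends e h2.1 c h2.2)
        rw [Finset.filter_insert, if_neg]
        · exact hc1
        · rw [Sym2.mem_iff, not_or]
          exact ⟨hcu, hcv⟩
    have h2 : v ∉ (leaves C p.1 p.2).erase u := by
      rw [Finset.mem_erase, mem_leaves hp.1.2 hp.1.1]
      rintro ⟨_, _, hc1⟩
      obtain ⟨e, he'⟩ := Finset.card_eq_one.1 hc1
      have h2 : e ∈ p.2.filter fun e => v ∈ e := by rw [he']; exact Finset.mem_singleton_self _
      rw [Finset.mem_filter] at h2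
      exact hvp (hp.1.2.ends e h2.1 v h2.2)
    have h4 := Finset.card_le_card h1
    rw [Finset.card_insert_of_notMem h2] at h4
    have h5 : (leaves C p.1 p.2).card ≤ ((leaves C p.1 p.2).erase u).card + 1 := by
      have := Finset.pred_card_le_card_erase (s := leaves C p.1 p.2) (a := u)
      omega
    have h7 : (leaves C S F).card ≤ (leaves C (insert v p.1) (insert s(u, v) p.2)).card := by
      have := hp.2
      omega
    have h6 := hmax (insert v p.1, insert s(u, v) p.2) (by
      rw [Finset.mem_filter, mem_trees]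
      exact ⟨⟨hnewC, hnew⟩, h7⟩)
    simp only at h6
    rw [Finset.card_insert_of_notMem hvp] at h6
    omega
  have h1 : IsT E C p.2 := hpC ▸ hp.1.2
  have h2 := leaves_spanning hC h3 h1
  have h4 := hp.2
  rw [hpC] at h4
  omega

/-- the condition on the leaves holds in sparse blocks -/
theorem leaf_sparse (hC : NS E C) (h3 : 3 ≤ C.card) (hs : (edC E C).card ≤ C.card + 3)
    (P : V → Prop) (S : Finset V) (F : Finset (Sym2 V)) (h : IsT E S F) (hS : S ⊆ C) :
    ∑ c ∈ C.filter (fun c => P c ∧ leafAt C (S, F) c), 1 / (degC E C c : ℝ) ≤ 4 := by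
  have h1 : ∑ c ∈ C.filter (fun c => P c ∧ leafAt C (S, F) c), 1 / (degC E C c : ℝ) ≤
      ∑ c ∈ leaves C S F, 1 / (2 : ℝ) := by
    refine (Finset.sum_le_sum_of_subset_of_nonneg (t := leaves C S F) ?_ fun _ _ _ => by positivity).trans
      (Finset.sum_le_sum fun c hc => ?_)
    · intro c hc
      unfold leaves
      rw [Finset.mem_filter] at hc ⊢
      exact ⟨hc.1, hc.2.2⟩
    · have hcC : c ∈ C := (Finset.mem_filter.1 hc).1
      have h2 : (2 : ℝ) ≤ degC E C c := by exact_mod_cast hC.degC_two h3 hcC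
      exact one_div_le_one_div_of_le (by norm_num) h2
  rw [Finset.sum_const, nsmul_eq_mul] at h1
  have h2 := leaves_le hC h3 h hS
  have h4 : ((leaves C S F).card : ℝ) ≤ 8 := by
    have : (leaves C S F).card ≤ 8 := by omega
    exact_mod_cast this
  linarith

/-- a vertex of a block with something hanging is a cut vertex -/
theorem cut_of_hang {G : SimpleGraph V} (hg : Gate (ed G) C π) {c : V} (hc : c ∈ C)
    (h2 : 2 ≤ C.card) (hh : hang π c ≠ {c}) : ¬(G.induce ({c}ᶜ : Set V)).Preconnected := by
  intro hpre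
  have hex : ∃ y, π y = c ∧ y ≠ c := by
    by_contra hcon
    push Not at hcon
    apply hh
    ext y
    rw [mem_hang, Finset.mem_singleton]
    exact ⟨fun h => hcon y h, fun h => by rw [h]; exact hg.fix c hc⟩
  obtain ⟨y, hy, hyc⟩ := hex
  have hex' : ∃ d ∈ C, d ≠ c := by
    by_contra hcon
    push Not at hcon
    have h1 : C ⊆ {c} := fun x hx => Finset.mem_singleton.2 (hcon x hx)
    have h3 := Finset.card_le_card h1
    rw [Finset.card_singleton] at h3
    omega
  obtain ⟨d, hd, hdc⟩ := hex'
  have key : ∀ a b : (({c}ᶜ : Set V)), (G.induce ({c}ᶜ : Set V)).Reachable a b →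
      π a.1 = c → π b.1 = c := by
    intro a b ⟨w⟩
    induction w with
    | nil => exact fun h => h
    | @cons a b d hab _ ih =>
      intro ha
      apply ih
      have h1 : π a.1 = π b.1 := by
        refine hg.edge a.1 b.1 (mk_mem_ed.2 hab) ?_
        rintro ⟨h, _⟩
        rw [hg.fix _ h] at ha
        exact a.2 ha
      rw [← h1]
      exact ha
  have h1 := key ⟨y, hyc⟩ ⟨d, hdc⟩ (hpre _ _) hy
  simp only at h1
  rw [hg.fix d hd] at h1
  exact hdc h1

end Pool.Agent.H46.MST
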