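import Pool.Agent.H46.MstGen

/-!
Product decomposition of the trees through a cut vertex.
-/

namespace Pool.Agent.H46.MST

open Finset
open scoped Classical

variable {V : Type*} [Fintype V] [DecidableEq V]
variable {E : Finset (Sym2 V)} {A B : Finset V} {S : Finset V} {F : Finset (Sym2 V)}

theorem Gen.noLoop (h : Gen E A S F) (x : V) : s(x, x) ∉ F := by
  induction h with
  | base => simp
  | @step S F u v _ hu hv _ ih =>
    rw [Finset.mem_insert, not_or]
    refine ⟨fun h => hv ?_, ih⟩
    rw [Sym2.eq_iff] at h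
    rcases h with ⟨h1, h2⟩ | ⟨h1, h2⟩
    · rw [← h2, h1]; exact hu
    · rw [← h1, h2]; exact hu

/-- the restriction of a tree to a vertex set -/
noncomputable def res (P : Finset V) (p : Finset V × Finset (Sym2 V)) :
    Finset V × Finset (Sym2 V) :=
  (p.1 ∩ P, p.2.filter fun e => ∀ x ∈ e, x ∈ P)

/-- the trees in `U` through `v` -/
noncomputable def treesAt (E : Finset (Sym2 V)) (U : Finset V) (v : V) :
    Finset (Finset V × Finset (Sym2 V)) :=
  (trees E U).filter fun p => v ∈ p.1

theorem mem_treesAt {U : Finset V} {v : V} {p : Finset V × Finset (Sym2 V)} :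
    p ∈ treesAt E U v ↔ p.1 ⊆ U ∧ Gen E {v} p.1 p.2 := by
  unfold treesAt
  rw [Finset.mem_filter, mem_trees]
  constructor
  · rintro ⟨⟨h1, h2⟩, h3⟩
    exact ⟨h1, h2.gen h3⟩
  · rintro ⟨h1, h2⟩
    exact ⟨⟨h1, ⟨v, h2⟩⟩, h2.sub (Finset.mem_singleton_self v)⟩

/-- `P` and `Q` meet in `v` and there is no other edge between them -/
structure Cut (E : Finset (Sym2 V)) (P Q : Finset V) (v : V) : Prop where
  vP : v ∈ P
  vQ : v ∈ Q
  inter : ∀ x ∈ P, x ∈ Q → x = v
  noEdge : ∀ x ∈ P, ∀ y ∈ Q, x ≠ v → y ≠ v → s(x, y) ∉ E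

theorem Cut.symm {P Q : Finset V} {v : V} (h : Cut E P Q v) : Cut E Q P v where
  vP := h.vQ
  vQ := h.vP
  inter x hx hy := h.inter x hy hx
  noEdge x hx y hy hxv hyv := by
    rw [Sym2.eq_swap]
    exact h.noEdge y hy x hx hyv hxv

theorem res_gen {P Q : Finset V} {v : V} (hc : Cut E P Q v) (h : Gen E {v} S F)
    (hS : S ⊆ P ∪ Q) : Gen E {v} (res P (S, F)).1 (res P (S, F)).2 := by
  unfold res
  simp only
  induction h with
  | base =>
    rw [Finset.filter_empty, Finset.inter_eq_left.2 (Finset.singleton_subset_iff.2 hc.vP)]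
    exact Gen.base
  | @step S F a b h0 ha hb he ih =>
    have hS' : S ⊆ P ∪ Q := (Finset.subset_insert _ _).trans hS
    have ih' := ih hS'
    by_cases hbP : b ∈ P
    · have haP : a ∈ P := by
        by_contra haP
        have haQ : a ∈ Q := by
          have := hS' ha
          rw [Finset.mem_union] at this
          exact this.resolve_left haP
        refine hc.noEdge b hbP a haQ ?_ ?_ (by rw [Sym2.eq_swap]; exact he)
        · rintro rfl
          exact hb (h0.sub (Finset.mem_singleton_self _))
        · rintro rfl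
          exact haP hc.vP
      rw [Finset.insert_inter_of_mem hbP, Finset.filter_insert, if_pos]
      · refine Gen.step ih' (Finset.mem_inter.2 ⟨ha, haP⟩) ?_ he
        rw [Finset.mem_inter]
        exact fun h => hb h.1
      · intro x hx
        rw [Sym2.mem_iff] at hx
        rcases hx with rfl | rfl
        · exact haP
        · exact hbP
    · rw [Finset.insert_inter_of_notMem hbP, Finset.filter_insert, if_neg]
      · exact ih'
      · intro h
        exact hbP (h b (Sym2.mem_mk_right _ _))

theorem res_union {P Q : Finset V} {v : V} (hc : Cut E P Q v) (h : Gen E {v} S F)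
    (hS : S ⊆ P ∪ Q) : (res P (S, F)).2 ∪ (res Q (S, F)).2 = F := by
  unfold res
  simp only
  apply Finset.Subset.antisymm
  · exact Finset.union_subset (Finset.filter_subset _ _) (Finset.filter_subset _ _)
  · induction h with
    | base => simp
    | @step S F a b h0 ha hb he ih =>
      have hS' : S ⊆ P ∪ Q := (Finset.subset_insert _ _).trans hS
      have ih' := ih hS'
      refine Finset.insert_subset ?_ (ih'.trans (Finset.union_subset_union
        (Finset.filter_subset_filter _ (Finset.subset_insert _ _))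
        (Finset.filter_subset_filter _ (Finset.subset_insert _ _))))
      have haPQ := hS' ha
      have hbPQ := hS (Finset.mem_insert_self _ _)
      rw [Finset.mem_union] at haPQ hbPQ
      have hbv : b ≠ v := by
        rintro rfl
        exact hb (h0.sub (Finset.mem_singleton_self _))
      rw [Finset.mem_union, Finset.mem_filter, Finset.mem_filter]
      have key : (a ∈ P ∧ b ∈ P) ∨ (a ∈ Q ∧ b ∈ Q) := by
        by_cases hav : a = v
        · subst hav
          rcases hbPQ with h | h
          · exact Or.inl ⟨hc.vP, h⟩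
          · exact Or.inr ⟨hc.vQ, h⟩
        · rcases haPQ with h1 | h1 <;> rcases hbPQ with h2 | h2
          · exact Or.inl ⟨h1, h2⟩
          · exact absurd he (hc.noEdge a h1 b h2 hav hbv)
          · exact absurd he (hc.symm.noEdge a h1 b h2 hav hbv)
          · exact Or.inr ⟨h1, h2⟩
      rcases key with ⟨h1, h2⟩ | ⟨h1, h2⟩
      · left
        refine ⟨Finset.mem_insert_self _ _, fun x hx => ?_⟩
        rw [Sym2.mem_iff] at hx
        rcases hx with rfl | rfl
        · exact h1
        · exact h2
      · right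
        refine ⟨Finset.mem_insert_self _ _, fun x hx => ?_⟩
        rw [Sym2.mem_iff] at hx
        rcases hx with rfl | rfl
        · exact h1
        · exact h2

theorem res_of_union {P Q : Finset V} {v : V} (hc : Cut E P Q v) {S1 S2 : Finset V}
    {F1 F2 : Finset (Sym2 V)} (h1 : Gen E {v} S1 F1) (h2 : Gen E {v} S2 F2) (hS1 : S1 ⊆ P)
    (hS2 : S2 ⊆ Q) : res P (S1 ∪ S2, F1 ∪ F2) = (S1, F1) := by
  unfold res
  refine Prod.ext ?_ ?_
  · simp only
    ext x
    rw [Finset.mem_inter, Finset.mem_union]
    constructor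
    · rintro ⟨h | h, hx⟩
      · exact h
      · rw [hc.inter x hx (hS2 h)]
        exact h1.sub (Finset.mem_singleton_self _)
    · intro h
      exact ⟨Or.inl h, hS1 h⟩
  · simp only
    ext e
    rw [Finset.mem_filter, Finset.mem_union]
    constructor
    · rintro ⟨h | h, hx⟩
      · exact h
      · exfalso
        induction e with
        | _ a b =>
          have ha := hc.inter a (hx a (Sym2.mem_mk_left _ _)) (hS2 (h2.ends _ h a (Sym2.mem_mk_left _ _)))
          have hb := hc.inter b (hx b (Sym2.mem_mk_right _ _)) (hS2 (h2.ends _ h b (Sym2.mem_mk_right _ _)))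
          rw [ha, hb] at h
          exact h2.noLoop _ h
    · intro h
      exact ⟨Or.inl h, fun x hx => hS1 (h1.ends _ h x hx)⟩

/-- the product formula -/
theorem sum_prod {P Q : Finset V} {v : V} (hc : Cut E P Q v)
    (f : Finset V × Finset (Sym2 V) → Finset V × Finset (Sym2 V) → ℝ) :
    ∑ p ∈ treesAt E (P ∪ Q) v, f (res P p) (res Q p) =
      ∑ p ∈ treesAt E P v, ∑ q ∈ treesAt E Q v, f p q := by
  rw [← Finset.sum_product' (treesAt E P v) (treesAt E Q v) f]
  refine Finset.sum_bij' (fun p _ => (res P p, res Q p))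
    (fun q _ => (q.1.1 ∪ q.2.1, q.1.2 ∪ q.2.2)) ?_ ?_ ?_ ?_ ?_
  · intro p hp
    rw [mem_treesAt] at hp
    rw [Finset.mem_product, mem_treesAt, mem_treesAt]
    refine ⟨⟨Finset.inter_subset_right, res_gen hc hp.2 hp.1⟩,
      ⟨Finset.inter_subset_right, res_gen hc.symm hp.2 (by rw [Finset.union_comm]; exact hp.1)⟩⟩
  · intro q hq
    rw [Finset.mem_product, mem_treesAt, mem_treesAt] at hq
    rw [mem_treesAt]
    refine ⟨Finset.union_subset_union hq.1.1 hq.2.1, ?_⟩
    have h := hq.1.2.union hq.2.2 (A := {v}) (B := {v}) ?_ ?_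
    · rwa [Finset.union_idempotent] at h
    · intro x hx
      rw [Finset.mem_inter] at hx
      rw [Finset.mem_singleton]
      exact hc.inter x (hq.1.1 hx.1) (hq.2.1 hx.2)
    · intro x hx
      rw [Finset.mem_inter] at hx
      rw [Finset.mem_singleton]
      exact hc.inter x (hq.1.1 hx.1) (hq.2.1 hx.2)
  · intro p hp
    rw [mem_treesAt] at hp
    refine Prod.ext ?_ ?_
    · change p.1 ∩ P ∪ p.1 ∩ Q = p.1
      rw [← Finset.inter_union_distrib_left]
      exact Finset.inter_eq_left.2 hp.1
    · exact res_union hc hp.2 hp.1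
  · intro q hq
    rw [Finset.mem_product, mem_treesAt, mem_treesAt] at hq
    refine Prod.ext ?_ ?_
    · exact res_of_union hc hq.1.2 hq.2.2 hq.1.1 hq.2.1
    · have := res_of_union hc.symm hq.2.2 hq.1.2 hq.2.1 hq.1.1
      rw [Finset.union_comm, Finset.union_comm q.2.2] at this
      exact this
  · intro p _
    rfl

/-- the order of a tree is the sum of the orders of its parts minus one -/
theorem card_res {P Q : Finset V} {v : V} (hc : Cut E P Q v) (h : Gen E {v} S F)
    (hS : S ⊆ P ∪ Q) : (S.card : ℝ) = ((res P (S, F)).1.card : ℝ) + ((res Q (S, F)).1.card : ℝ) - 1 := by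
  unfold res
  simp only
  have h1 : (S ∩ P) ∪ (S ∩ Q) = S := by
    rw [← Finset.inter_union_distrib_left]
    exact Finset.inter_eq_left.2 hS
  have h2 : (S ∩ P) ∩ (S ∩ Q) = {v} := by
    ext x
    rw [Finset.mem_inter, Finset.mem_inter, Finset.mem_inter, Finset.mem_singleton]
    constructor
    · rintro ⟨⟨_, h1⟩, ⟨_, h2⟩⟩
      exact hc.inter x h1 h2
    · rintro rfl
      have := h.sub (Finset.mem_singleton_self _)
      exact ⟨⟨this, hc.vP⟩, ⟨this, hc.vQ⟩⟩
  have h3 := Finset.card_union_add_card_inter (S ∩ P) (S ∩ Q)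
  rw [h1, h2, Finset.card_singleton] at h3
  have h4 : (S.card : ℝ) + 1 = ((S ∩ P).card : ℝ) + ((S ∩ Q).card : ℝ) := by exact_mod_cast h3
  linarith

/-- there are enough smaller trees -/
theorem Gen.count_smaller (h : Gen E A S F) (X : Finset (Finset V × Finset (Sym2 V)))
    (hX : ∀ p : Finset V × Finset (Sym2 V), Gen E A p.1 p.2 → p.1 ⊆ S → p ∈ X) :
    S.card ≤ A.card + (X.filter fun p => p.1.card < S.card).card := by
  induction h with
  | base => exact Nat.le_add_right _ _
  | @step S F u v h0 hu hv he ih =>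
    have h1 := ih fun p hp hpS => hX p hp (hpS.trans (Finset.subset_insert _ _))
    rw [Finset.card_insert_of_notMem hv]
    have h2 : insert (S, F) (X.filter fun p => p.1.card < S.card) ⊆
        X.filter fun p => p.1.card < S.card + 1 := by
      intro p hp
      rw [Finset.mem_insert] at hp
      rw [Finset.mem_filter]
      rcases hp with rfl | hp
      · exact ⟨hX _ h0 (Finset.subset_insert _ _), Nat.lt_succ_self _⟩
      · rw [Finset.mem_filter] at hp
        exact ⟨hp.1, by omega⟩
    have h3 := Finset.card_le_card h2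
    rw [Finset.card_insert_of_notMem] at h3
    · omega
    · rw [Finset.mem_filter]
      exact fun h => lt_irrefl _ h.2

/-- number of trees through `v` in a connected set -/
theorem card_le_treesAt {U : Finset V} {v : V} (hU : Conn E U) (hv : v ∈ U) :
    U.card ≤ (treesAt E U v).card := by
  obtain ⟨F, hF⟩ := hU
  have h1 := hF.gen hv
  have h2 := h1.count_smaller (treesAt E U v) (fun p hp hpU => mem_treesAt.2 ⟨hpU, hp⟩)
  rw [Finset.card_singleton] at h2
  have h3 : (U, F) ∈ treesAt E U v := mem_treesAt.2 ⟨subset_rfl, h1⟩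
  have h4 : ((treesAt E U v).filter fun p => p.1.card < U.card) ⊂ treesAt E U v := by
    refine Finset.filter_ssubset.2 ⟨(U, F), h3, lt_irrefl _⟩
  have h5 := Finset.card_lt_card h4
  omega

/-- the mean order of the trees through `v` is at most half of their number plus one -/
theorem box (U : Finset V) (v : V) :
    2 * ∑ p ∈ treesAt E U v, ((p.1.card : ℝ) - 1) ≤
      ((treesAt E U v).card : ℝ) * ((treesAt E U v).card - 1) := by
  set X := treesAt E U v with hX
  have h1 : ∀ p ∈ X, ((p.1.card : ℝ) - 1) ≤ ((X.filter fun q => q.1.card < p.1.card).card : ℝ) := by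
    intro p hp
    have h2 := mem_treesAt.1 hp
    have h3 := h2.2.count_smaller X (fun q hq hqS => mem_treesAt.2 ⟨hqS.trans h2.1, hq⟩)
    rw [Finset.card_singleton] at h3
    have h4 : (p.1.card : ℝ) ≤ 1 + ((X.filter fun q => q.1.card < p.1.card).card : ℝ) := by
      exact_mod_cast h3
    linarith
  have h2 : ∑ p ∈ X, ((p.1.card : ℝ) - 1) ≤
      ∑ p ∈ X, ((X.filter fun q => q.1.card < p.1.card).card : ℝ) := Finset.sum_le_sum h1
  have h3 : ∑ p ∈ X, (X.filter fun q => q.1.card < p.1.card).card =
      ((X ×ˢ X).filter fun r => r.2.1.card < r.1.1.card).card := by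
    rw [Finset.card_filter, Finset.sum_product]
    refine Finset.sum_congr rfl fun p _ => ?_
    rw [Finset.card_filter]
  have h4 : ((X ×ˢ X).filter fun r => r.2.1.card < r.1.1.card).card =
      ((X ×ˢ X).filter fun r => r.1.1.card < r.2.1.card).card := by
    refine Finset.card_bij (fun r _ => (r.2, r.1)) ?_ ?_ ?_
    · intro r hr
      rw [Finset.mem_filter, Finset.mem_product] at hr ⊢
      exact ⟨⟨hr.1.2, hr.1.1⟩, hr.2⟩
    · intro r _ r' _ h
      rw [Prod.mk.injEq] at h
      exact Prod.ext h.2 h.1
    · intro r hr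
      rw [Finset.mem_filter, Finset.mem_product] at hr
      exact ⟨(r.2, r.1), by rw [Finset.mem_filter, Finset.mem_product]; exact ⟨⟨hr.1.2, hr.1.1⟩, hr.2⟩, rfl⟩
  have h5 : ((X ×ˢ X).filter fun r => r.2.1.card < r.1.1.card).card +
      ((X ×ˢ X).filter fun r => r.1.1.card < r.2.1.card).card ≤ X.offDiag.card := by
    rw [← Finset.card_union_of_disjoint]
    · refine Finset.card_le_card fun r hr => ?_
      rw [Finset.mem_union, Finset.mem_filter, Finset.mem_filter, Finset.mem_product] at hr
      rw [Finset.mem_offDiag]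
      rcases hr with hr | hr
      · exact ⟨hr.1.1, hr.1.2, fun h => by rw [h] at hr; exact lt_irrefl _ hr.2⟩
      · exact ⟨hr.1.1, hr.1.2, fun h => by rw [h] at hr; exact lt_irrefl _ hr.2⟩
    · rw [Finset.disjoint_left]
      intro r hr hr'
      rw [Finset.mem_filter] at hr hr'
      omega
  rw [Finset.offDiag_card] at h5
  rw [← h4, ← h3] at h5
  have h6 : (X.card : ℝ) ≤ (X.card : ℝ) * X.card := by
    rcases Nat.eq_zero_or_pos X.card with h | h
    · rw [h]; simp
    · have : (1 : ℝ) ≤ X.card := by exact_mod_cast h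
      nlinarith
  have h7 : ((∑ p ∈ X, (X.filter fun q => q.1.card < p.1.card).card : ℕ) : ℝ) +
      ((∑ p ∈ X, (X.filter fun q => q.1.card < p.1.card).card : ℕ) : ℝ) ≤ (X.card : ℝ) * X.card - X.card := by
    have h8 : X.card ≤ X.card * X.card := Nat.le_mul_self _
    have h9 := h5
    rw [← Nat.cast_add]
    calc ((_ : ℕ) : ℝ) ≤ ((X.card * X.card - X.card : ℕ) : ℝ) := by exact_mod_cast h9
      _ = (X.card : ℝ) * X.card - X.card := by
        rw [Nat.cast_sub h8]; push_cast; ring
  rw [Nat.cast_sum] at h7
  linarith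

end Pool.Agent.H46.MST
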