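import Pool.Agent.H46.MstCov

/-!
If no edge of the block raises the mean then the trees touching the block are small.
-/

namespace Pool.Agent.H46.MST

open Finset
open scoped Classical

variable {V : Type*} [Fintype V] [DecidableEq V]
variable {E : Finset (Sym2 V)} {A B : Finset V} {S : Finset V} {F : Finset (Sym2 V)}
variable {C : Finset V} {π : V → V}

theorem touch_neg (hg : Gate E C π) (hK : ∀ c ∈ C, Conn E (C.erase c))
    (hd : ∀ c ∈ C, 0 < degC E C c) (hne : C.Nonempty)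
    (hleaf : ∀ S F, IsT E S F → S ⊆ C →
      ∑ c ∈ C.filter (fun c => hang π c ≠ {c} ∧ leafAt C (S, F) c), 1 / (degC E C c : ℝ) ≤ 4)
    (m : ℝ) (hm : ∀ e ∈ E, (∀ x ∈ e, x ∈ C) →
      ∑ p ∈ (trees E univ).filter (fun p => e ∈ p.2), ((p.1.card : ℝ) - m) ≤ 0) :
    ∑ p ∈ touch E C, ((p.1.card : ℝ) - m) < 0 := by
  set N : ℝ := ((touch E C).card : ℝ) with hN
  have hNpos : 0 < N := by
    obtain ⟨c, hc⟩ := hne
    have hp1 : (({c}, ∅) : Finset V × Finset (Sym2 V)) ∈ touch E C := by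
      rw [mem_touch]
      exact ⟨IsT.single c, ⟨c, Finset.mem_inter.2 ⟨Finset.mem_singleton_self c, hc⟩⟩⟩
    have h1 : 0 < (touch E C).card := Finset.card_pos.2 ⟨_, hp1⟩
    have h2 : (0 : ℝ) < ((touch E C).card : ℝ) := by exact_mod_cast h1
    exact h2
  set κ : ℝ := (∑ p ∈ touch E C, ((p.1 ∩ C).card : ℝ)) / N with hκdef
  have hκ : ∑ p ∈ touch E C, exc C κ p = 0 := by
    unfold exc
    rw [Finset.sum_sub_distrib, Finset.sum_const, nsmul_eq_mul, ← hN, hκdef]
    field_simp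
    ring
  have hκ1 : 1 ≤ κ := by
    rw [hκdef, le_div_iff₀ hNpos, one_mul]
    have h1 : N = ∑ _p ∈ touch E C, (1 : ℝ) := by
      rw [Finset.sum_const, nsmul_eq_mul, mul_one]
    rw [h1]
    refine Finset.sum_le_sum fun p hp => ?_
    rw [mem_touch] at hp
    exact_mod_cast Finset.card_pos.2 hp.2
  have hcov := cov_pos hg hK hd hne hleaf κ hκ
  set t : ℝ := ∑ p ∈ touch E C, ((p.1.card : ℝ) - m) with ht
  have e1 : ∑ e ∈ E.filter (fun e => ∀ x ∈ e, x ∈ C),
      ∑ p ∈ (trees E univ).filter (fun p => e ∈ p.2), ((p.1.card : ℝ) - m) =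
      ∑ p ∈ touch E C, ((p.1.card : ℝ) - m) * (((p.1 ∩ C).card : ℝ) - 1) := by
    have h1 : ∀ e ∈ E.filter (fun e => ∀ x ∈ e, x ∈ C),
        ∑ p ∈ (trees E univ).filter (fun p => e ∈ p.2), ((p.1.card : ℝ) - m) =
        ∑ p ∈ trees E univ, if e ∈ p.2 then ((p.1.card : ℝ) - m) else 0 := by
      intro e _
      rw [Finset.sum_filter]
    rw [Finset.sum_congr rfl h1, Finset.sum_comm]
    unfold touch
    rw [Finset.sum_filter]
    refine Finset.sum_congr rfl fun p hp => ?_
    rw [mem_trees] at hp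
    rw [← Finset.sum_filter, Finset.sum_const, nsmul_eq_mul, mul_comm]
    have h2 : (E.filter (fun e => ∀ x ∈ e, x ∈ C)).filter (fun e => e ∈ p.2) = (res C p).2 := by
      unfold res
      ext e
      simp only [Finset.mem_filter]
      exact ⟨fun h => ⟨h.2, h.1.2⟩, fun h => ⟨⟨hp.2.subE h.1, h.2⟩, h.1⟩⟩
    rw [h2]
    by_cases h3 : (p.1 ∩ C).Nonempty
    · rw [if_pos h3]
      congr 1
      obtain ⟨c, hc⟩ := h3
      rw [Finset.mem_inter] at hc
      have h4 : IsT E (res C p).1 (res C p).2 := ⟨c, hg.tree_res hc.2 (hp.2.gen hc.1)⟩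
      have h5 := h4.card
      have h6 : ((p.1 ∩ C).card : ℝ) = ((res C p).2.card : ℝ) + 1 := by exact_mod_cast h5
      rw [h6]
      ring
    · have h4 : (res C p).2 = ∅ := by
        unfold res
        rw [Finset.filter_eq_empty_iff]
        intro e he h
        apply h3
        induction e with
        | _ a b =>
          exact ⟨a, Finset.mem_inter.2 ⟨hp.2.ends _ he a (Sym2.mem_mk_left _ _),
            h a (Sym2.mem_mk_left _ _)⟩⟩
      rw [if_neg h3, h4, Finset.card_empty]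
      simp
  have e2 : ∑ p ∈ touch E C, ((p.1.card : ℝ) - m) * (((p.1 ∩ C).card : ℝ) - 1) ≤ 0 := by
    rw [← e1]
    refine Finset.sum_nonpos fun e he => ?_
    rw [Finset.mem_filter] at he
    exact hm e he.1 he.2
  have e3 : ∑ p ∈ touch E C, ((p.1.card : ℝ) - m) * (((p.1 ∩ C).card : ℝ) - 1) =
      ∑ p ∈ touch E C, (p.1.card : ℝ) * exc C κ p - m * ∑ p ∈ touch E C, exc C κ p +
        (κ - 1) * t := by
    rw [ht, Finset.mul_sum, Finset.mul_sum, ← Finset.sum_sub_distrib, ← Finset.sum_add_distrib]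
    refine Finset.sum_congr rfl fun p _ => ?_
    unfold exc
    ring
  rw [e3, hκ, mul_zero, sub_zero] at e2
  by_contra hcon
  rw [not_lt] at hcon
  nlinarith

end Pool.Agent.H46.MST
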