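import Mathlib
import Pool.Agent.H46.Cube

set_option autoImplicit false

namespace Pool.Agent.H46

open Finset

/-- Switching of `G` with respect to the vertex set `{v | X v = true}`. -/
def swS {p : ℕ} (G : SimpleGraph (Fin p)) (X : Fin p → Bool) : SimpleGraph (Fin p) where
  Adj u v := u ≠ v ∧ (G.Adj u v ↔ X u = X v)
  symm := ⟨by
    intro u v h
    refine ⟨h.1.symm, ?_⟩
    rw [G.adj_comm v u, h.2]
    exact eq_comm⟩
  loopless := ⟨fun a h => h.1 rfl⟩

/-- The switch at one vertex, as in the problem. -/
def sw1 {p : ℕ} (G : SimpleGraph (Fin p)) (i : Fin p) : SimpleGraph (Fin p) :=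
  symmDiff G (SimpleGraph.fromRel (fun u (_ : Fin p) => u = i))

def pt {p : ℕ} (i : Fin p) : Fin p → Bool := fun u => decide (u = i)

theorem sw1_eq {p : ℕ} (G : SimpleGraph (Fin p)) (i : Fin p) : sw1 G i = swS G (pt i) := by
  ext u v
  simp only [sw1, symmDiff, SimpleGraph.sup_adj, SimpleGraph.sdiff_adj, SimpleGraph.fromRel_adj,
    swS, pt, decide_eq_decide]
  constructor
  · rintro (⟨h1, h2⟩ | ⟨h1, h2⟩)
    · refine ⟨h1.ne, ?_⟩
      have h3 : ¬ (u = i ∨ v = i) := fun h => h2 ⟨h1.ne, h⟩
      rw [not_or] at h3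
      simp [h1, h3.1, h3.2]
    · refine ⟨h1.1, ?_⟩
      have h3 := h1.2
      constructor
      · intro h; exact absurd h h2
      · intro h
        exfalso
        apply h1.1
        rcases h3 with h3 | h3
        · rw [h3, h.mp h3]
        · rw [h3, h.mpr h3]
  · rintro ⟨h1, h2⟩
    by_cases h3 : u = i ∨ v = i
    · right
      refine ⟨⟨h1, h3⟩, ?_⟩
      intro h4
      have h5 := h2.mp h4
      apply h1
      rcases h3 with h3 | h3
      · rw [h3, h5.mp h3]
      · rw [h3, h5.mpr h3]
    · left
      rw [not_or] at h3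
      refine ⟨h2.mpr (by simp [h3.1, h3.2]), ?_⟩
      rintro ⟨_, h4⟩
      rcases h4 with h4 | h4
      · exact h3.1 h4
      · exact h3.2 h4

theorem swS_update {p : ℕ} (G : SimpleGraph (Fin p)) (X : Fin p → Bool) (i : Fin p) :
    swS G (Function.update X i (!X i)) = swS (swS G X) (pt i) := by
  ext u v
  simp only [swS, pt, decide_eq_decide]
  by_cases huv : u = v
  · simp [huv]
  · simp only [ne_eq, huv, not_false_eq_true, true_and]
    by_cases hu : u = i
    · have hv : v ≠ i := fun h => huv (hu.trans h.symm)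
      subst hu
      rw [Function.update_self, Function.update_of_ne hv]
      simp only [hv, iff_false, true_iff]
      by_cases hG : G.Adj u v
      · simp only [hG, true_iff]
        cases X u <;> cases X v <;> simp
      · simp only [hG, false_iff]
        cases X u <;> cases X v <;> simp
    · by_cases hv : v = i
      · subst hv
        rw [Function.update_self, Function.update_of_ne hu]
        simp only [hu, false_iff, not_true_eq_false, iff_false]
        by_cases hG : G.Adj u v
        · simp only [hG, true_iff]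
          cases X u <;> cases X v <;> simp
        · simp only [hG, false_iff]
          cases X u <;> cases X v <;> simp
      · rw [Function.update_of_ne hu, Function.update_of_ne hv]
        simp [hu, hv]

theorem swS_iso {p : ℕ} {G K : SimpleGraph (Fin p)} (e : G ≃g K) (X : Fin p → Bool) :
    Nonempty (swS G X ≃g swS K (X ∘ e.symm)) := by
  refine ⟨⟨e.toEquiv, ?_⟩⟩
  intro u v
  simp only [swS, Function.comp]
  have h1 : K.Adj (e.toEquiv u) (e.toEquiv v) ↔ G.Adj u v := e.map_rel_iff
  have h2 : ∀ w, e.symm (e.toEquiv w) = w := fun w => e.symm_apply_apply w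
  rw [h1, h2, h2]
  simp

theorem pt_comp {p : ℕ} {G K : SimpleGraph (Fin p)} (e : G ≃g K) (i : Fin p) :
    (pt i) ∘ e.symm = pt (e i) := by
  funext w
  simp only [pt, Function.comp, decide_eq_decide]
  constructor
  · intro h; rw [← h]; simp
  · intro h; rw [h]; simp

open Classical in
/-- number of vertices `i` with `K` switched at `i` isomorphic to `L` -/
noncomputable def NN {p : ℕ} (K L : SimpleGraph (Fin p)) : ℕ :=
  (univ.filter (fun i => Nonempty (swS K (pt i) ≃g L))).card

theorem NN_left {p : ℕ} {K K' : SimpleGraph (Fin p)} (L : SimpleGraph (Fin p))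
    (h : Nonempty (K ≃g K')) : NN K L = NN K' L := by
  classical
  obtain ⟨e⟩ := h
  unfold NN
  apply Finset.card_bij (fun i _ => e i)
  · intro i hi
    rw [Finset.mem_filter] at hi ⊢
    refine ⟨Finset.mem_univ _, ?_⟩
    obtain ⟨e1⟩ := hi.2
    obtain ⟨e2⟩ := swS_iso e (pt i)
    rw [pt_comp] at e2
    exact ⟨e2.symm.trans e1⟩
  · intro i _ j _ h
    exact e.injective h
  · intro j hj
    rw [Finset.mem_filter] at hj
    refine ⟨e.symm j, ?_, by simp⟩
    rw [Finset.mem_filter]
    refine ⟨Finset.mem_univ _, ?_⟩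
    obtain ⟨e1⟩ := hj.2
    obtain ⟨e2⟩ := swS_iso e (pt (e.symm j))
    rw [pt_comp, RelIso.apply_symm_apply] at e2
    exact ⟨e2.trans e1⟩

theorem NN_right {p : ℕ} (K : SimpleGraph (Fin p)) {L L' : SimpleGraph (Fin p)}
    (h : Nonempty (L ≃g L')) : NN K L = NN K L' := by
  classical
  obtain ⟨e⟩ := h
  unfold NN
  congr 1
  ext i
  simp only [Finset.mem_filter, Finset.mem_univ, true_and]
  constructor
  · rintro ⟨a⟩; exact ⟨a.trans e⟩
  · rintro ⟨a⟩; exact ⟨a.trans e.symm⟩

open Classical in
/-- switchings of `G` isomorphic to `L` -/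
noncomputable def OO {p : ℕ} (G L : SimpleGraph (Fin p)) : Finset (Fin p → Bool) :=
  univ.filter (fun X => Nonempty (swS G X ≃g L))

theorem update_update {p : ℕ} (X : Fin p → Bool) (i : Fin p) :
    Function.update (Function.update X i (!X i)) i
      (!(Function.update X i (!X i)) i) = X := by
  simp

theorem double {p : ℕ} (G K L : SimpleGraph (Fin p)) :
    (OO G K).card * NN K L = (OO G L).card * NN L K := by
  classical
  have h1 : ∀ K L : SimpleGraph (Fin p), (OO G K).card * NN K L =
      ((OO G K ×ˢ (univ : Finset (Fin p))).filter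
        (fun q => Function.update q.1 q.2 (!q.1 q.2) ∈ OO G L)).card := by
    intro K L
    rw [Finset.card_filter, Finset.sum_product, ← smul_eq_mul, ← Finset.sum_const]
    apply Finset.sum_congr rfl
    intro X hX
    rw [OO, Finset.mem_filter] at hX
    rw [← NN_left L hX.2]
    unfold NN
    rw [Finset.card_filter]
    apply Finset.sum_congr rfl
    intro i _
    simp only [OO, Finset.mem_filter, Finset.mem_univ, true_and, swS_update]
  rw [h1 K L, h1 L K]
  apply Finset.card_bij (fun q _ => (Function.update q.1 q.2 (!q.1 q.2), q.2))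
  · rintro ⟨X, i⟩ h
    simp only [Finset.mem_filter, Finset.mem_product, Finset.mem_univ, and_true] at h ⊢
    refine ⟨h.2, ?_⟩
    rw [update_update]
    exact h.1
  · rintro ⟨X, i⟩ _ ⟨Y, j⟩ _ h
    simp only [Prod.mk.injEq] at h
    obtain ⟨h1, rfl⟩ := h
    have h2 := update_update X i
    rw [h1, update_update Y i] at h2
    rw [h2]
  · rintro ⟨Y, j⟩ h
    simp only [Finset.mem_filter, Finset.mem_product, Finset.mem_univ, and_true] at h
    refine ⟨(Function.update Y j (!Y j), j), ?_, ?_⟩
    · simp only [Finset.mem_filter, Finset.mem_product, Finset.mem_univ, and_true]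
      refine ⟨h.2, ?_⟩
      rw [update_update]
      exact h.1
    · simp only [Prod.mk.injEq, and_true]
      exact update_update Y j

theorem swS_true {p : ℕ} (G : SimpleGraph (Fin p)) : swS G (fun _ => false) = G := by
  ext u v
  simp only [swS, iff_true]
  exact ⟨fun h => h.2, fun h => ⟨h.ne, h⟩⟩

/-- Same deck. -/
def Deck {p : ℕ} (G H : SimpleGraph (Fin p)) : Prop :=
  ∃ σ : Equiv.Perm (Fin p), ∀ i, Nonempty (sw1 G i ≃g sw1 H (σ i))

theorem deck_NN {p : ℕ} {G H : SimpleGraph (Fin p)} (h : Deck G H) (K : SimpleGraph (Fin p)) :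
    NN G K = NN H K := by
  classical
  obtain ⟨σ, hσ⟩ := h
  unfold NN
  apply Finset.card_bij (fun i _ => σ i)
  · intro i hi
    rw [Finset.mem_filter] at hi ⊢
    refine ⟨Finset.mem_univ _, ?_⟩
    obtain ⟨e1⟩ := hi.2
    obtain ⟨e2⟩ := hσ i
    rw [sw1_eq, sw1_eq] at e2
    exact ⟨e2.symm.trans e1⟩
  · intro i _ j _ hij
    exact σ.injective hij
  · intro j hj
    rw [Finset.mem_filter] at hj
    refine ⟨σ.symm j, ?_, by simp⟩
    rw [Finset.mem_filter]
    refine ⟨Finset.mem_univ _, ?_⟩
    obtain ⟨e1⟩ := hj.2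
    obtain ⟨e2⟩ := hσ (σ.symm j)
    rw [sw1_eq, sw1_eq, Equiv.apply_symm_apply] at e2
    exact ⟨e2.trans e1⟩

theorem OO_H_nonempty {p : ℕ} (hp : 0 < p) {G H : SimpleGraph (Fin p)} (h : Deck G H) :
    (OO G H).Nonempty := by
  classical
  obtain ⟨σ, hσ⟩ := h
  let i : Fin p := ⟨0, hp⟩
  obtain ⟨e⟩ := hσ i
  rw [sw1_eq, sw1_eq] at e
  obtain ⟨e2⟩ := swS_iso e.symm (pt (σ i))
  rw [pt_comp] at e2
  -- switching H twice at σ i gives H
  have h1 : swS (swS H (pt (σ i))) (pt (σ i)) = H := by
    have h2 : pt (σ i) = Function.update (fun _ : Fin p => false) (σ i) (!false) := by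
      funext u
      by_cases hu : u = σ i
      · subst hu; simp [pt]
      · rw [Function.update_of_ne hu]; simp [pt, hu]
    have h3 := swS_update H (pt (σ i)) (σ i)
    rw [← h3]
    have h4 : Function.update (pt (σ i)) (σ i) (!(pt (σ i) (σ i))) = fun _ => false := by
      funext u
      by_cases hu : u = σ i
      · subst hu; simp [pt]
      · rw [Function.update_of_ne hu]; simp [pt, hu]
    rw [h4, swS_true]
  rw [h1, ← swS_update] at e2
  exact ⟨_, by rw [OO, Finset.mem_filter]; exact ⟨Finset.mem_univ _, ⟨e2.symm⟩⟩⟩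

theorem main_switch {p i : ℕ} (hpi : p = 2 * i) (hi : 1 ≤ i) (G H : SimpleGraph (Fin p))
    (hd : Deck G H) (hno : ¬ Nonempty (G ≃g H)) : 2 ^ (i - 1) ≤ (OO G G).card := by
  classical
  have hG0 : (fun _ => false) ∈ OO G G := by
    rw [OO, Finset.mem_filter]
    refine ⟨Finset.mem_univ _, ?_⟩
    rw [swS_true]
    exact ⟨RelIso.refl _⟩
  have hGpos : 0 < (OO G G).card := Finset.card_pos.mpr ⟨_, hG0⟩
  have hHpos : 0 < (OO G H).card := Finset.card_pos.mpr (OO_H_nonempty (by omega) hd)
  have hdisj : ∀ X, X ∈ OO G G → X ∉ OO G H := by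
    intro X h1 h2
    rw [OO, Finset.mem_filter] at h1 h2
    obtain ⟨e1⟩ := h1.2
    obtain ⟨e2⟩ := h2.2
    exact hno ⟨e1.symm.trans e2⟩
  let f : (Fin p → Bool) → ℤ := fun X =>
    ((OO G H).card : ℤ) * (if X ∈ OO G G then 1 else 0) -
      ((OO G G).card : ℤ) * (if X ∈ OO G H then 1 else 0)
  have hf0 : ∀ X, cubeA f X = 0 := by
    intro X
    have h1 : cubeA f X = ((OO G H).card : ℤ) * (NN (swS G X) G : ℤ) -
        ((OO G G).card : ℤ) * (NN (swS G X) H : ℤ) := by
      unfold cubeA
      simp only [f]
      rw [Finset.sum_sub_distrib, ← Finset.mul_sum, ← Finset.mul_sum]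
      have h2 : ∀ L : SimpleGraph (Fin p),
          (∑ i, (if Function.update X i (!X i) ∈ OO G L then (1 : ℤ) else 0)) =
            (NN (swS G X) L : ℤ) := by
        intro L
        unfold NN
        rw [Finset.card_filter]
        push_cast
        apply Finset.sum_congr rfl
        intro j _
        simp only [OO, Finset.mem_filter, Finset.mem_univ, true_and, swS_update]
      rw [h2 G, h2 H]
    rw [h1]
    have hX : X ∈ OO G (swS G X) := by
      rw [OO, Finset.mem_filter]
      exact ⟨Finset.mem_univ _, ⟨RelIso.refl _⟩⟩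
    have hXpos : 0 < (OO G (swS G X)).card := Finset.card_pos.mpr ⟨_, hX⟩
    have d1 := double G (swS G X) G
    have d2 := double G (swS G X) H
    have d3 := deck_NN hd (swS G X)
    rw [← d3] at d2
    have d4 : ((OO G (swS G X)).card : ℤ) * (((OO G H).card : ℤ) * (NN (swS G X) G : ℤ) -
        ((OO G G).card : ℤ) * (NN (swS G X) H : ℤ)) = 0 := by
      have d1' : ((OO G (swS G X)).card : ℤ) * (NN (swS G X) G : ℤ) =
          ((OO G G).card : ℤ) * (NN G (swS G X) : ℤ) := by exact_mod_cast d1
      have d2' : ((OO G (swS G X)).card : ℤ) * (NN (swS G X) H : ℤ) =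
          ((OO G H).card : ℤ) * (NN G (swS G X) : ℤ) := by exact_mod_cast d2
      calc ((OO G (swS G X)).card : ℤ) * (((OO G H).card : ℤ) * (NN (swS G X) G : ℤ) -
            ((OO G G).card : ℤ) * (NN (swS G X) H : ℤ))
          = ((OO G H).card : ℤ) * (((OO G (swS G X)).card : ℤ) * (NN (swS G X) G : ℤ)) -
            ((OO G G).card : ℤ) * (((OO G (swS G X)).card : ℤ) * (NN (swS G X) H : ℤ)) := by ring
        _ = 0 := by rw [d1', d2']; ring
    rcases mul_eq_zero.mp d4 with h | h
    · exfalso
      have : (0 : ℤ) < ((OO G (swS G X)).card : ℤ) := by exact_mod_cast hXpos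
      omega
    · exact h
  have hfval : f (fun _ => false) = ((OO G H).card : ℤ) := by
    simp only [f]
    rw [if_pos hG0, if_neg (hdisj _ hG0)]
    ring
  obtain ⟨_, h2⟩ := cube_support p i f (by
    intro X
    rw [hf0 X, hpi]
    push_cast
    ring) ⟨fun _ => false, by
      rw [hfval]
      have : (0 : ℤ) < ((OO G H).card : ℤ) := by exact_mod_cast hHpos
      omega⟩
  refine (h2 hi).trans ?_
  rw [← Finset.card_filter]
  apply Finset.card_le_card
  intro X hX
  rw [Finset.mem_filter] at hX
  by_contra hXG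
  have h3 : f X ≤ 0 := by
    simp only [f]
    rw [if_neg hXG]
    split_ifs
    · simp
    · simp
  omega

/-- From sets to labelled graphs: each labelled graph arises from at most two sets. -/
theorem labelled_bound {p : ℕ} (G : SimpleGraph (Fin p)) :
    (OO G G).card ≤ 2 * {K : SimpleGraph (Fin p) | Nonempty (K ≃g G) ∧
      ∃ X : Fin p → Bool, K = swS G X}.ncard := by
  classical
  set S : Set (SimpleGraph (Fin p)) := {K : SimpleGraph (Fin p) | Nonempty (K ≃g G) ∧
      ∃ X : Fin p → Bool, K = swS G X} with hS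
  have hfin : S.Finite := Set.toFinite S
  rw [Set.ncard_eq_toFinset_card S hfin]
  have hmaps : ∀ X ∈ OO G G, swS G X ∈ hfin.toFinset := by
    intro X hX
    rw [OO, Finset.mem_filter] at hX
    rw [Set.Finite.mem_toFinset]
    exact ⟨hX.2, X, rfl⟩
  have := Finset.card_le_mul_card_image_of_maps_to hmaps 2 (by
    intro K hK
    rw [Set.Finite.mem_toFinset] at hK
    by_cases hp : 0 < p
    · let z : Fin p := ⟨0, hp⟩
      -- the value at z determines X
      have hinj : Set.InjOn (fun X : Fin p → Bool => X z)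
          (↑((OO G G).filter (fun X => swS G X = K)) : Set (Fin p → Bool)) := by
        intro X hX Y hY hXY
        simp only [Finset.coe_filter, Set.mem_ofPred_eq] at hX hY
        have hXY' : X z = Y z := hXY
        funext u
        by_cases hu : u = z
        · rw [hu]; exact hXY'
        · have h1 : (swS G X).Adj u z ↔ (swS G Y).Adj u z := by rw [hX.2, hY.2]
          simp only [swS, ne_eq, hu, not_false_eq_true, true_and] at h1
          rw [← hXY'] at h1
          by_cases hG : G.Adj u z
          · simp only [hG, true_iff] at h1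
            cases h2 : X u <;> cases h3 : Y u <;> cases h4 : X z <;> simp_all
          · simp only [hG, false_iff] at h1
            cases h2 : X u <;> cases h3 : Y u <;> cases h4 : X z <;> simp_all
      have h2 := Finset.card_le_card_of_injOn (s := (OO G G).filter (fun X => swS G X = K))
        (t := (univ : Finset Bool)) (fun X => X z) (fun _ _ => Finset.mem_coe.mpr (Finset.mem_univ _)) hinj
      simpa using h2
    · have hp0 : p = 0 := by omega
      subst hp0
      refine (Finset.card_le_card (Finset.subset_univ _)).trans ?_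
      simp)
  exact this

end Pool.Agent.H46
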